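import Mathlib

set_option autoImplicit false

/-!
# The counting argument (natural numbers only)
-/

namespace Pool.Agent.Semi

/-- the numerical data of a twin-free semiorder which is not a direct sum -/
structure NumData (n : ℕ) (up dn : ℕ → ℕ) : Prop where
  up_mono : ∀ i j, i ≤ j → j < n → up i ≤ up j
  dn_mono : ∀ i j, i ≤ j → j < n → dn i ≤ dn j
  up_le : ∀ i, i < n → up i ≤ n
  dn_le : ∀ j, j < n → dn j ≤ j
  lt_up : ∀ i, i < n → i < up i
  dn_iff : ∀ i j, i < n → j < n → (up i ≤ j ↔ i < dn j)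
  nocut : ∀ i, i + 1 < n → i + 1 < up i
  notwin : ∀ i, i + 1 < n → up i < up (i + 1) ∨ dn i < dn (i + 1)

/-- what the linear programs leave for a pair `i, i + 1` which differs by one element above only -/
def ARule (n : ℕ) (up dn : ℕ → ℕ) : Prop :=
  ∀ i, i + 1 < n → dn (i + 1) = dn i → up (i + 1) = up i + 1 →
    (up i = i + 2 ∧ 1 ≤ i ∧ up (i - 1) = up i ∧ dn (i - 1) + 3 ≤ dn i) ∨
    (up i = i + 2 ∧ i = 0 ∧ dn 3 = dn 2 + 1 ∧ up 2 + 3 ≤ up 3) ∨
    (up i = i + 3 ∧ dn (i + 1) + up (i + 1) + 3 ≤ dn (i + 2) + up (i + 2) ∧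
      ¬ (dn (i + 3) = dn (i + 2) + 1 ∧ up (i + 3) = up (i + 2))) ∨
    (up i = i + 3 ∧ dn (i + 2) = dn (i + 1) + 2 ∧ up (i + 2) = up (i + 1) ∧
      dn (i + 2) + up (i + 2) + 3 ≤ dn (i + 3) + up (i + 3))

/-- the element `i` is a left source for the target `t` -/
def SrcL (n : ℕ) (up dn : ℕ → ℕ) (i t : ℕ) : Prop :=
  (i = 0 ∧ t = 2 ∧ up 0 = 2 ∧ up 1 = 3 ∧ dn 1 = dn 0 ∧ dn 3 = dn 2 + 1 ∧ up 2 + 3 ≤ up 3) ∨
  (t = i + 1 ∧ up i = i + 3 ∧ up (i + 1) = i + 4 ∧ dn (i + 1) = dn i ∧ i + 3 < n ∧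
    dn (i + 1) + up (i + 1) + 3 ≤ dn (i + 2) + up (i + 2) ∧
    ¬ (dn (i + 3) = dn (i + 2) + 1 ∧ up (i + 3) = up (i + 2))) ∨
  (t = i + 2 ∧ up i = i + 3 ∧ up (i + 1) = i + 4 ∧ dn (i + 1) = dn i ∧ i + 3 < n ∧
    dn (i + 2) = dn (i + 1) + 2 ∧ up (i + 2) = i + 4 ∧
    dn (i + 2) + up (i + 2) + 3 ≤ dn (i + 3) + up (i + 3)) ∨
  (t = i + 1 ∧ dn (i + 1) = i ∧ dn (i + 1) = dn i + 1 ∧ up (i + 1) = up i ∧ i + 2 < n ∧
    dn (i + 2) = i ∧ up (i + 1) + 3 ≤ up (i + 2))

/-- the element `i` is a right source for the target `t` -/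
def SrcR (n : ℕ) (up dn : ℕ → ℕ) (i t : ℕ) : Prop :=
  (i = t + 1 ∧ up (t + 1) = t + 3 ∧ up t = t + 3 ∧ dn t + 3 ≤ dn (t + 1) ∧ t + 2 < n ∧
    dn (t + 2) = dn (t + 1) ∧ up (t + 2) = t + 4) ∨
  (i = t + 2 ∧ t + 4 = n ∧ dn (t + 3) = t + 2 ∧ dn (t + 3) = dn (t + 2) + 1 ∧
    up (t + 3) = up (t + 2) ∧ up (t + 1) = up t + 1 ∧ dn t + 3 ≤ dn (t + 1)) ∨
  (i = t + 1 ∧ t + 2 < n ∧ dn (t + 2) = t ∧ dn (t + 2) = dn (t + 1) + 1 ∧
    up (t + 2) = up (t + 1) ∧ dn t + up t + 3 ≤ dn (t + 1) + up (t + 1)) ∨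
  (i = t + 2 ∧ t + 3 < n ∧ dn (t + 3) = t + 1 ∧ dn (t + 3) = dn (t + 2) + 1 ∧
    up (t + 3) = up (t + 2) ∧ up (t + 1) + 2 = up (t + 2) ∧ dn (t + 1) = dn (t + 2) ∧
    dn t + up t + 3 ≤ dn (t + 1) + up (t + 1))

theorem exists_src_A (n : ℕ) (hn : 4 ≤ n) (up dn : ℕ → ℕ) (D : NumData n up dn)
    (hA : ARule n up dn) (i : ℕ) (hi : i + 1 < n) (h1 : dn (i + 1) = dn i)
    (h2 : up (i + 1) = up i + 1) : ∃ t, t + 1 < n ∧ (SrcL n up dn i t ∨ SrcR n up dn i t) := by
  have hup := D.up_le (i + 1) hi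
  rcases hA i hi h1 h2 with h | h | h | h
  · obtain ⟨a1, a2, a3, a4⟩ := h
    obtain ⟨t, rfl⟩ : ∃ t, i = t + 1 := ⟨i - 1, by omega⟩
    rw [Nat.add_sub_cancel] at a3 a4
    refine ⟨t, by omega, Or.inr (Or.inl ⟨rfl, by omega, by omega, a4, by omega, h1, ?_⟩)⟩
    have : up (t + 2) = up (t + 1) + 1 := h2
    omega
  · obtain ⟨a1, a2, a3, a4⟩ := h
    subst a2
    exact ⟨2, by omega, Or.inl (Or.inl ⟨rfl, rfl, a1, by simpa [a1] using h2, h1, a3, a4⟩)⟩
  · obtain ⟨a1, a2, a3⟩ := h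
    exact ⟨i + 1, by omega, Or.inl (Or.inr (Or.inl
      ⟨rfl, a1, by omega, h1, by omega, a2, a3⟩))⟩
  · obtain ⟨a1, a2, a3, a4⟩ := h
    exact ⟨i + 2, by omega, Or.inl (Or.inr (Or.inr (Or.inl
      ⟨rfl, a1, by omega, h1, by omega, a2, by omega, a4⟩)))⟩

theorem exists_src_B' (n : ℕ) (hn : 4 ≤ n) (up dn : ℕ → ℕ) (D : NumData n up dn)
    (cd cu : ℕ → ℕ) (hcd : ∀ j, j < n → cd j + dn j = n) (hcu : ∀ j, j < n → cu j + up j = n)
    (hB : ARule n (fun i => cd (n - 1 - i)) (fun i => cu (n - 1 - i)))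
    (i : ℕ) (hi : i + 1 < n) (h1 : dn (i + 1) = dn i + 1)
    (h2 : up (i + 1) = up i) : ∃ t, t + 1 < n ∧ (SrcL n up dn i t ∨ SrcR n up dn i t) := by
  obtain ⟨k, hk⟩ : ∃ k, n = i + 2 + k := ⟨n - 2 - i, by omega⟩
  have e0 : n - 1 - k = i + 1 := by omega
  have e1 : n - 1 - (k + 1) = i := by omega
  have u1 := D.up_le (i + 1) hi
  have u2 := D.lt_up (i + 1) hi
  have d1 := D.dn_le (i + 1) hi
  have d2 := D.dn_le i (by omega)
  have c1 := hcd (i + 1) hi
  have c2 := hcd i (by omega)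
  have c3 := hcu (i + 1) hi
  have c4 := hcu i (by omega)
  have hB' := hB k (by omega)
  simp only [e0, e1] at hB'
  rcases hB' (by omega) (by omega) with h | h | h | h
  · obtain ⟨a1, a2, a3, a4⟩ := h
    have e2 : n - 1 - (k - 1) = i + 2 := by omega
    rw [e2] at a3 a4
    have c5 := hcd (i + 2) (by omega)
    have c6 := hcu (i + 2) (by omega)
    exact ⟨i + 1, by omega, Or.inl (Or.inr (Or.inr (Or.inr
      ⟨rfl, by omega, h1, h2, by omega, by omega, by omega⟩)))⟩
  · obtain ⟨a1, a2, a3, a4⟩ := h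
    obtain ⟨t, rfl⟩ : ∃ t, i = t + 2 := ⟨i - 2, by omega⟩
    have e2 : n - 1 - 3 = t := by omega
    have e3 : n - 1 - 2 = t + 1 := by omega
    rw [e2, e3] at a3 a4
    have c5 := hcd t (by omega)
    have c6 := hcu t (by omega)
    have c7 := hcd (t + 1) (by omega)
    have c8 := hcu (t + 1) (by omega)
    have h1' : dn (t + 3) = dn (t + 2) + 1 := h1
    have h2' : up (t + 3) = up (t + 2) := h2
    have a1' : cd (t + 3) = k + 2 := a1
    have c1' : cd (t + 3) + dn (t + 3) = n := c1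
    clear hcd hcu hB hB' e0 e1 e2 e3 a1 c1 h1 h2 u1 u2
    exact ⟨t, by omega, Or.inr (Or.inr (Or.inl
      ⟨rfl, by omega, by omega, h1', h2', by omega, by omega⟩))⟩
  · obtain ⟨a1, a2, a3⟩ := h
    obtain ⟨t, rfl⟩ : ∃ t, i = t + 1 := ⟨i - 1, by omega⟩
    have e2 : n - 1 - (k + 2) = t := by omega
    rw [e2] at a2
    have c5 := hcd t (by omega)
    have c6 := hcu t (by omega)
    have h1' : dn (t + 2) = dn (t + 1) + 1 := h1
    have h2' : up (t + 2) = up (t + 1) := h2
    have a1' : cd (t + 2) = k + 3 := a1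
    have c1' : cd (t + 2) + dn (t + 2) = n := c1
    clear hcd hcu hB hB' e0 e1 e2 a1 c1 h1 h2 u1 u2
    exact ⟨t, by omega, Or.inr (Or.inr (Or.inr (Or.inl
      ⟨rfl, by omega, by omega, h1', h2', by omega⟩)))⟩
  · obtain ⟨a1, a2, a3, a4⟩ := h
    obtain ⟨t, rfl⟩ : ∃ t, i = t + 2 := ⟨i - 2, by omega⟩
    have e2 : n - 1 - (k + 2) = t + 1 := by omega
    have e3 : n - 1 - (k + 3) = t := by omega
    rw [e2] at a2 a3 a4
    rw [e3] at a4
    have c5 := hcd t (by omega)
    have c6 := hcu t (by omega)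
    have c7 := hcd (t + 1) (by omega)
    have c8 := hcu (t + 1) (by omega)
    have h1' : dn (t + 3) = dn (t + 2) + 1 := h1
    have h2' : up (t + 3) = up (t + 2) := h2
    have a1' : cd (t + 3) = k + 3 := a1
    have c1' : cd (t + 3) + dn (t + 3) = n := c1
    clear hcd hcu hB hB' e0 e1 e2 e3 a1 c1 h1 h2 u1 u2
    exact ⟨t, by omega, Or.inr (Or.inr (Or.inr (Or.inr
      ⟨rfl, by omega, by omega, h1', h2', by omega, by omega, by omega⟩)))⟩

theorem exists_src_B (n : ℕ) (hn : 4 ≤ n) (up dn : ℕ → ℕ) (D : NumData n up dn)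
    (hB : ARule n (fun i => n - dn (n - 1 - i)) (fun i => n - up (n - 1 - i)))
    (i : ℕ) (hi : i + 1 < n) (h1 : dn (i + 1) = dn i + 1)
    (h2 : up (i + 1) = up i) : ∃ t, t + 1 < n ∧ (SrcL n up dn i t ∨ SrcR n up dn i t) :=
  exists_src_B' n hn up dn D (fun j => n - dn j) (fun j => n - up j)
    (fun j hj => Nat.sub_add_cancel ((D.dn_le j hj).trans hj.le))
    (fun j hj => Nat.sub_add_cancel (D.up_le j hj)) hB i hi h1 h2

/-- the total variation of the pair `(dn, up)` at `i` -/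
def sv (up dn : ℕ → ℕ) (i : ℕ) : ℕ := (dn (i + 1) - dn i) + (up (i + 1) - up i)

theorem srcL_cases {n : ℕ} {up dn : ℕ → ℕ} {i t : ℕ} (h : SrcL n up dn i t) :
    t = i + 1 ∨ t = i + 2 := by
  rcases h with h | h | h | h
  · obtain ⟨h1, h2, _⟩ := h
    clear * - h1 h2
    omega
  · exact Or.inl h.1
  · exact Or.inr h.1
  · exact Or.inl h.1

theorem srcR_cases {n : ℕ} {up dn : ℕ → ℕ} {i t : ℕ} (h : SrcR n up dn i t) :
    i = t + 1 ∨ i = t + 2 := by
  rcases h with h | h | h | h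
  · exact Or.inl h.1
  · exact Or.inr h.1
  · exact Or.inl h.1
  · exact Or.inr h.1

theorem srcL_lt {n : ℕ} {up dn : ℕ → ℕ} {i t : ℕ} (h : SrcL n up dn i t) : i < t := by
  rcases h with h | h | h | h <;> omega

theorem srcR_lt {n : ℕ} {up dn : ℕ → ℕ} {i t : ℕ} (h : SrcR n up dn i t) : t < i := by
  rcases h with h | h | h | h <;> omega

theorem srcL_sv {n : ℕ} (hn : 4 ≤ n) {up dn : ℕ → ℕ} (D : NumData n up dn) {i t : ℕ}
    (h : SrcL n up dn i t) : 3 ≤ sv up dn t := by
  unfold sv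
  rcases h with h | h | h | h
  · obtain ⟨rfl, rfl, h⟩ := h
    have := D.dn_mono 2 3 (by omega) (by omega)
    simp only [Nat.reduceAdd]
    omega
  · obtain ⟨rfl, h⟩ := h
    have h1 := D.dn_mono (i + 1) (i + 2) (by omega) (by omega)
    have h2 := D.up_mono (i + 1) (i + 2) (by omega) (by omega)
    show 3 ≤ (dn (i + 2) - dn (i + 1)) + (up (i + 2) - up (i + 1))
    omega
  · obtain ⟨rfl, h⟩ := h
    have h1 := D.dn_mono (i + 2) (i + 3) (by omega) (by omega)
    have h2 := D.up_mono (i + 2) (i + 3) (by omega) (by omega)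
    show 3 ≤ (dn (i + 3) - dn (i + 2)) + (up (i + 3) - up (i + 2))
    omega
  · obtain ⟨rfl, h⟩ := h
    show 3 ≤ (dn (i + 2) - dn (i + 1)) + (up (i + 2) - up (i + 1))
    omega

theorem srcR_sv {n : ℕ} {up dn : ℕ → ℕ} (D : NumData n up dn) {i t : ℕ}
    (h : SrcR n up dn i t) : 3 ≤ sv up dn t := by
  unfold sv
  have ht : t + 1 < n := by rcases h with h | h | h | h <;> omega
  have h1 := D.dn_mono t (t + 1) (by omega) ht
  have h2 := D.up_mono t (t + 1) (by omega) ht
  rcases h with h | h | h | h <;> omega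

/-- at most one source on the left -/
theorem srcL_unique {n : ℕ} (hn : 4 ≤ n) {up dn : ℕ → ℕ} (D : NumData n up dn) {i j t : ℕ}
    (hi : SrcL n up dn i t) (hj : SrcL n up dn j t) (hij : i < j) (hs : sv up dn j = 1) :
    False := by
  unfold sv at hs
  have hi2 : t = i + 2 ∧ j = i + 1 := by
    have h1 := srcL_cases hi
    have h2 := srcL_cases hj
    clear * - h1 h2 hij
    omega
  obtain ⟨rfl, rfl⟩ := hi2
  change (dn (i + 2) - dn (i + 1)) + (up (i + 2) - up (i + 1)) = 1 at hs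
  rcases hi with h | h | h | h
  · obtain ⟨rfl, _, h3, h4, h5, h6, h7⟩ := h
    have e1 := D.dn_iff 0 2 (by omega) (by omega)
    have e2 := D.nocut 2 (by omega)
    have e3 := D.dn_le 0 (by omega)
    simp only [Nat.reduceAdd, Nat.zero_add] at hs e2
    omega
  · omega
  · omega
  · omega

/-- at most one source on the right -/
theorem srcR_unique {n : ℕ} {up dn : ℕ → ℕ} (D : NumData n up dn) {i j t : ℕ}
    (hi : SrcR n up dn i t) (hj : SrcR n up dn j t) (hij : i < j) (hs : sv up dn i = 1) :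
    False := by
  unfold sv at hs
  have hi2 : i = t + 1 ∧ j = t + 2 := by
    have h1 := srcR_cases hi
    have h2 := srcR_cases hj
    clear * - h1 h2 hij
    omega
  obtain ⟨rfl, rfl⟩ := hi2
  change (dn (t + 2) - dn (t + 1)) + (up (t + 2) - up (t + 1)) = 1 at hs
  rcases hj with h | h | h | h
  · omega
  · obtain ⟨_, h2, h3, h4, h5, h6, h7⟩ := h
    have e1 := D.dn_iff (t + 1) (t + 3) (by omega) (by omega)
    have e2 := D.nocut (t + 2) (by omega)
    have e3 := D.up_le (t + 2) (by omega)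
    have e4 := D.up_mono (t + 1) (t + 2) (by omega) (by omega)
    have e5 := D.dn_iff t (t + 1) (by omega) (by omega)
    have e6 := D.nocut t (by omega)
    omega
  · omega
  · obtain ⟨_, h2, h3, h4, h5, h6, h7, h8⟩ := h
    omega

/-- both sources need a target of weight at least four -/
theorem srcLR {n : ℕ} (hn : 4 ≤ n) {up dn : ℕ → ℕ} (D : NumData n up dn) {i j t : ℕ}
    (hi : SrcL n up dn i t) (hj : SrcR n up dn j t) : 4 ≤ sv up dn t := by
  unfold sv
  have ht : t + 1 < n := by rcases hj with h | h | h | h <;> omega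
  have h1 := D.dn_mono t (t + 1) (by omega) ht
  have h2 := D.up_mono t (t + 1) (by omega) ht
  rcases hj with h' | h' | h' | h'
  · -- right A at t + 1
    obtain ⟨rfl, a1, a2, a3, a4, a5, a6⟩ := h'
    rcases hi with h | h | h | h
    · obtain ⟨rfl, rfl, h⟩ := h
      simp only [Nat.reduceAdd] at *
      omega
    · obtain ⟨rfl, b1, b2, b3, b4, b5, b6⟩ := h
      have e1 := D.dn_iff i (i + 3) (by omega) (by omega)
      have e2 := D.dn_iff i (i + 2) (by omega) (by omega)
      have a5' : dn (i + 3) = dn (i + 2) := a5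
      omega
    · obtain ⟨rfl, b1, b2, b3, b4, b5, b6, b7⟩ := h
      omega
    · obtain ⟨rfl, b1, b2, b3, b4, b5, b6⟩ := h
      have a1' : up (i + 2) = i + 4 := a1
      omega
  · obtain ⟨rfl, a1, a2, a3, a4, a5, a6⟩ := h'
    omega
  · obtain ⟨rfl, a1, a2, a3, a4, a5⟩ := h'
    rcases hi with h | h | h | h
    · obtain ⟨rfl, rfl, h⟩ := h
      simp only [Nat.reduceAdd] at *
      omega
    · obtain ⟨rfl, b1, b2, b3, b4, b5, b6⟩ := h
      exact absurd ⟨a3, a4⟩ b6
    · obtain ⟨rfl, b1, b2, b3, b4, b5, b6, b7⟩ := h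
      have e1 := D.dn_iff (i + 2) (i + 4) (by omega) (by omega)
      have a2' : dn (i + 4) = i + 2 := a2
      omega
    · obtain ⟨rfl, b1, b2, b3, b4, b5, b6⟩ := h
      have e1 := D.dn_iff i (i + 3) (by omega) (by omega)
      have e2 := D.dn_iff (i + 1) (i + 3) (by omega) (by omega)
      have a2' : dn (i + 3) = i + 1 := a2
      omega
  · obtain ⟨rfl, a1, a2, a3, a4, a5, a6, a7⟩ := h'
    rcases hi with h | h | h | h
    · obtain ⟨rfl, rfl, h⟩ := h
      simp only [Nat.reduceAdd] at *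
      omega
    · obtain ⟨rfl, b1, b2, b3, b4, b5, b6⟩ := h
      have e1 := D.dn_iff i (i + 2) (by omega) (by omega)
      have a2' : dn (i + 4) = i + 2 := a2
      have a3' : dn (i + 4) = dn (i + 3) + 1 := a3
      have a6' : dn (i + 2) = dn (i + 3) := a6
      omega
    · obtain ⟨rfl, b1, b2, b3, b4, b5, b6, b7⟩ := h
      have e1 := D.dn_iff (i + 2) (i + 4) (by omega) (by omega)
      have a2' : dn (i + 5) = i + 3 := a2
      have a3' : dn (i + 5) = dn (i + 4) + 1 := a3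
      omega
    · obtain ⟨rfl, b1, b2, b3, b4, b5, b6⟩ := h
      have a2' : dn (i + 4) = i + 2 := a2
      have a3' : dn (i + 4) = dn (i + 3) + 1 := a3
      have a6' : dn (i + 2) = dn (i + 3) := a6
      omega

/-- The rule for `(up, dn)` and for the dual data cannot both hold. -/
theorem arith (n : ℕ) (hn : 4 ≤ n) (up dn : ℕ → ℕ) (D : NumData n up dn)
    (hA : ARule n up dn)
    (hB : ARule n (fun i => n - dn (n - 1 - i)) (fun i => n - up (n - 1 - i))) : False := by
  classical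
  -- the sum
  have hsum : ∀ m, m < n → ∑ i ∈ Finset.range m, sv up dn i + dn 0 + up 0 = dn m + up m := by
    intro m
    induction m with
    | zero => intro _; simp
    | succ m ih =>
      intro hm
      rw [Finset.sum_range_succ]
      have h1 := ih (by omega)
      have h2 := D.dn_mono m (m + 1) (by omega) hm
      have h3 := D.up_mono m (m + 1) (by omega) hm
      unfold sv at h1 ⊢
      omega
  have hsv1 : ∀ i, i + 1 < n → 1 ≤ sv up dn i := by
    intro i hi
    unfold sv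
    have h2 := D.dn_mono i (i + 1) (by omega) hi
    have h3 := D.up_mono i (i + 1) (by omega) hi
    rcases D.notwin i hi with h | h <;> omega
  -- the targets
  have hT : ∀ i, i + 1 < n → sv up dn i = 1 →
      ∃ t, t + 1 < n ∧ (SrcL n up dn i t ∨ SrcR n up dn i t) := by
    intro i hi hs
    unfold sv at hs
    have h2 := D.dn_mono i (i + 1) (by omega) hi
    have h3 := D.up_mono i (i + 1) (by omega) hi
    by_cases h : dn (i + 1) = dn i
    · exact exists_src_A n hn up dn D hA i hi h (by omega)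
    · exact exists_src_B n hn up dn D hB i hi (by omega) (by omega)
  choose! T hTlt hTs using hT
  set R := Finset.range (n - 1) with hR
  set G := R.filter (fun i => sv up dn i = 1) with hG
  set H := R.filter (fun i => ¬ sv up dn i = 1) with hH
  have hmemG : ∀ i ∈ G, i + 1 < n ∧ sv up dn i = 1 := by
    intro i hi
    rw [hG, Finset.mem_filter, hR, Finset.mem_range] at hi
    exact ⟨by omega, hi.2⟩
  have hmaps : ∀ i ∈ G, T i ∈ H := by
    intro i hi
    obtain ⟨h1, h2⟩ := hmemG i hi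
    rw [hH, Finset.mem_filter, hR, Finset.mem_range]
    have h3 := hTlt i h1 h2
    refine ⟨by omega, ?_⟩
    have h4 : 3 ≤ sv up dn (T i) := by
      rcases hTs i h1 h2 with h | h
      · exact srcL_sv hn D h
      · exact srcR_sv D h
    omega
  have hfib : ∀ t ∈ H, (G.filter (fun i => T i = t)).card + 2 ≤ sv up dn t := by
    intro t ht
    rw [hH, Finset.mem_filter, hR, Finset.mem_range] at ht
    have ht2 : 2 ≤ sv up dn t := by
      have := hsv1 t (by omega)
      omega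
    set F := G.filter (fun i => T i = t) with hF
    have hmemF : ∀ i ∈ F, i + 1 < n ∧ sv up dn i = 1 ∧ (SrcL n up dn i t ∨ SrcR n up dn i t) := by
      intro i hi
      rw [hF, Finset.mem_filter] at hi
      obtain ⟨h1, h2⟩ := hmemG i hi.1
      have h3 := hTs i h1 h2
      rw [hi.2] at h3
      exact ⟨h1, h2, h3⟩
    set FL := F.filter (fun i => i < t) with hFL
    set FR := F.filter (fun i => ¬ i < t) with hFR
    have hcard : F.card = FL.card + FR.card := by
      rw [hFL, hFR, Finset.card_filter_add_card_filter_not]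
    have hmL : ∀ i ∈ FL, SrcL n up dn i t ∧ sv up dn i = 1 := by
      intro i hi
      rw [hFL, Finset.mem_filter] at hi
      obtain ⟨h1, h2, h3⟩ := hmemF i hi.1
      rcases h3 with h | h
      · exact ⟨h, h2⟩
      · have := srcR_lt h
        omega
    have hmR : ∀ i ∈ FR, SrcR n up dn i t ∧ sv up dn i = 1 := by
      intro i hi
      rw [hFR, Finset.mem_filter] at hi
      obtain ⟨h1, h2, h3⟩ := hmemF i hi.1
      rcases h3 with h | h
      · have := srcL_lt h
        omega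
      · exact ⟨h, h2⟩
    have hL1 : FL.card ≤ 1 := by
      rw [Finset.card_le_one]
      intro a ha b hb
      obtain ⟨a1, a2⟩ := hmL a ha
      obtain ⟨b1, b2⟩ := hmL b hb
      rcases lt_trichotomy a b with h | h | h
      · exact (srcL_unique hn D a1 b1 h b2).elim
      · exact h
      · exact (srcL_unique hn D b1 a1 h a2).elim
    have hR1 : FR.card ≤ 1 := by
      rw [Finset.card_le_one]
      intro a ha b hb
      obtain ⟨a1, a2⟩ := hmR a ha
      obtain ⟨b1, b2⟩ := hmR b hb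
      rcases lt_trichotomy a b with h | h | h
      · exact (srcR_unique D a1 b1 h a2).elim
      · exact h
      · exact (srcR_unique D b1 a1 h b2).elim
    rcases FL.eq_empty_or_nonempty with hLe | ⟨a, ha⟩
    · rcases FR.eq_empty_or_nonempty with hRe | ⟨b, hb⟩
      · rw [hcard, hLe, hRe]
        simpa using ht2
      · have := srcR_sv D (hmR b hb).1
        rw [hcard, hLe, Finset.card_empty]
        omega
    · rcases FR.eq_empty_or_nonempty with hRe | ⟨b, hb⟩
      · have := srcL_sv hn D (hmL a ha).1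
        rw [hcard, hRe, Finset.card_empty]
        omega
      · have := srcLR hn D (hmL a ha).1 (hmR b hb).1
        omega
  have hcardG : G.card = ∑ t ∈ H, (G.filter (fun i => T i = t)).card :=
    Finset.card_eq_sum_card_fiberwise (fun i hi => hmaps i hi)
  have hsplit : ∑ i ∈ R, sv up dn i = ∑ i ∈ G, sv up dn i + ∑ i ∈ H, sv up dn i := by
    rw [hG, hH, Finset.sum_filter_add_sum_filter_not]
  have hsG : ∑ i ∈ G, sv up dn i = G.card := by
    rw [Finset.card_eq_sum_ones]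
    exact Finset.sum_congr rfl fun i hi => (hmemG i hi).2
  have hsH : G.card + 2 * H.card ≤ ∑ i ∈ H, sv up dn i := by
    calc G.card + 2 * H.card = ∑ t ∈ H, ((G.filter (fun i => T i = t)).card + 2) := by
          rw [Finset.sum_add_distrib, ← hcardG, Finset.sum_const, smul_eq_mul]
          ring
      _ ≤ ∑ i ∈ H, sv up dn i := Finset.sum_le_sum hfib
  have hcardR : G.card + H.card = n - 1 := by
    rw [hG, hH, Finset.card_filter_add_card_filter_not, hR, Finset.card_range]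
  have hfin := hsum (n - 1) (by omega)
  rw [← hR] at hfin
  have f1 := D.nocut 0 (by omega)
  have f2 := D.up_le (n - 1) (by omega)
  have f3 := D.dn_iff (n - 2) (n - 1) (by omega) (by omega)
  have f4 := D.nocut (n - 2) (by omega)
  omega

end Pool.Agent.Semi
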