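import Pool.Agent.Lib_MP_33fb9b_semi.Check

set_option autoImplicit false

/-!
# Linear programming certificates (data), generated automatically
-/

namespace Pool.Agent.Semi

/-! ### Case L1a, tuple in the natural order: u y x v V z -/

/-- relations -/
def relL1a : List (ℕ × ℕ) := [(0, 3), (0, 4), (0, 5), (1, 5)]

/-- exact pairs with their blockers -/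
def exL1a : List (ℕ × ℕ × List ℕ) := [(1, 2, [5])]

/-- weights of pairs -/
def WL1a : List (ℕ × ℕ × ℕ) := [(1, 2, 82), (2, 3, 11), (3, 4, 13), (4, 5, 8)]

/-- swaps -/
def SL1a : List Swp := [
  ⟨[0, 1, 2, 3, 4, 5], [0, 2, 1, 3, 4, 5], 1, 2, 1601⟩,
  ⟨[0, 1, 2, 3, 5, 4], [0, 2, 1, 3, 5, 4], 1, 2, 1914⟩,
  ⟨[0, 1, 2, 4, 3, 5], [0, 2, 1, 4, 3, 5], 1, 2, 2103⟩,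
  ⟨[0, 1, 2, 4, 5, 3], [0, 2, 1, 4, 5, 3], 1, 2, 2103⟩,
  ⟨[0, 1, 2, 5, 3, 4], [0, 2, 1, 5, 3, 4], 1, 2, 1914⟩,
  ⟨[0, 1, 2, 5, 4, 3], [0, 2, 1, 5, 4, 3], 1, 2, 2417⟩,
  ⟨[0, 1, 3, 2, 4, 5], [0, 2, 3, 1, 4, 5], 1, 2, 1601⟩,
  ⟨[0, 1, 3, 2, 5, 4], [0, 2, 3, 1, 5, 4], 1, 2, 1914⟩,
  ⟨[0, 1, 3, 4, 2, 5], [0, 2, 3, 4, 1, 5], 1, 2, 1601⟩,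
  ⟨[0, 1, 4, 2, 3, 5], [0, 2, 4, 1, 3, 5], 1, 2, 2103⟩,
  ⟨[0, 1, 4, 2, 5, 3], [0, 2, 4, 1, 5, 3], 1, 2, 2103⟩,
  ⟨[0, 1, 4, 3, 2, 5], [0, 2, 4, 3, 1, 5], 1, 2, 2103⟩,
  ⟨[0, 3, 1, 2, 4, 5], [0, 3, 2, 1, 4, 5], 1, 2, 2029⟩,
  ⟨[0, 3, 1, 2, 5, 4], [0, 3, 2, 1, 5, 4], 1, 2, 2029⟩,
  ⟨[0, 3, 1, 4, 2, 5], [0, 3, 2, 4, 1, 5], 1, 2, 2029⟩,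
  ⟨[0, 3, 4, 1, 2, 5], [0, 3, 4, 2, 1, 5], 1, 2, 2029⟩,
  ⟨[0, 4, 1, 2, 3, 5], [0, 4, 2, 1, 3, 5], 1, 2, 1768⟩,
  ⟨[0, 4, 1, 2, 5, 3], [0, 4, 2, 1, 5, 3], 1, 2, 1433⟩,
  ⟨[0, 4, 1, 3, 2, 5], [0, 4, 2, 3, 1, 5], 1, 2, 2103⟩,
  ⟨[0, 4, 3, 1, 2, 5], [0, 4, 3, 2, 1, 5], 1, 2, 670⟩,
  ⟨[1, 0, 2, 3, 4, 5], [2, 0, 1, 3, 4, 5], 1, 2, 1601⟩,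
  ⟨[1, 0, 2, 3, 5, 4], [2, 0, 1, 3, 5, 4], 1, 2, 1914⟩,
  ⟨[1, 0, 2, 4, 3, 5], [2, 0, 1, 4, 3, 5], 1, 2, 2103⟩,
  ⟨[1, 0, 2, 4, 5, 3], [2, 0, 1, 4, 5, 3], 1, 2, 2103⟩,
  ⟨[1, 0, 2, 5, 3, 4], [2, 0, 1, 5, 3, 4], 1, 2, 1914⟩,
  ⟨[1, 0, 2, 5, 4, 3], [2, 0, 1, 5, 4, 3], 1, 2, 2417⟩,
  ⟨[1, 0, 3, 2, 4, 5], [2, 0, 3, 1, 4, 5], 1, 2, 1601⟩,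
  ⟨[1, 0, 3, 2, 5, 4], [2, 0, 3, 1, 5, 4], 1, 2, 1914⟩,
  ⟨[1, 0, 3, 4, 2, 5], [2, 0, 3, 4, 1, 5], 1, 2, 1601⟩,
  ⟨[1, 0, 4, 2, 3, 5], [2, 0, 4, 1, 3, 5], 1, 2, 2103⟩,
  ⟨[1, 0, 4, 2, 5, 3], [2, 0, 4, 1, 5, 3], 1, 2, 2103⟩,
  ⟨[1, 0, 4, 3, 2, 5], [2, 0, 4, 3, 1, 5], 1, 2, 2103⟩,
  ⟨[1, 2, 0, 3, 4, 5], [2, 1, 0, 3, 4, 5], 1, 2, 1601⟩,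
  ⟨[1, 2, 0, 3, 5, 4], [2, 1, 0, 3, 5, 4], 1, 2, 1287⟩,
  ⟨[1, 2, 0, 4, 3, 5], [2, 1, 0, 4, 3, 5], 1, 2, 1098⟩,
  ⟨[1, 2, 0, 4, 5, 3], [2, 1, 0, 4, 5, 3], 1, 2, 1098⟩,
  ⟨[1, 2, 0, 5, 3, 4], [2, 1, 0, 5, 3, 4], 1, 2, 1287⟩,
  ⟨[1, 2, 0, 5, 4, 3], [2, 1, 0, 5, 4, 3], 1, 2, 785⟩,
  ⟨[0, 1, 3, 4, 5, 2], [0, 1, 2, 4, 5, 3], 3, 2, 1172⟩,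
  ⟨[0, 1, 3, 5, 4, 2], [0, 1, 2, 5, 4, 3], 3, 2, 534⟩,
  ⟨[0, 1, 4, 3, 5, 2], [0, 1, 4, 2, 5, 3], 3, 2, 324⟩,
  ⟨[0, 4, 1, 3, 5, 2], [0, 4, 1, 2, 5, 3], 3, 2, 335⟩,
  ⟨[0, 4, 3, 1, 5, 2], [0, 4, 2, 1, 5, 3], 3, 2, 670⟩,
  ⟨[1, 0, 3, 4, 2, 5], [1, 0, 2, 4, 3, 5], 3, 2, 649⟩,
  ⟨[1, 0, 3, 4, 5, 2], [1, 0, 2, 4, 5, 3], 3, 2, 439⟩,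
  ⟨[1, 0, 3, 5, 4, 2], [1, 0, 2, 5, 4, 3], 3, 2, 429⟩,
  ⟨[1, 0, 5, 3, 4, 2], [1, 0, 5, 2, 4, 3], 3, 2, 418⟩,
  ⟨[0, 1, 4, 2, 3, 5], [0, 1, 2, 4, 3, 5], 4, 2, 126⟩,
  ⟨[0, 1, 4, 5, 2, 3], [0, 1, 2, 5, 4, 3], 4, 2, 1098⟩,
  ⟨[0, 1, 5, 3, 4, 2], [0, 1, 5, 3, 2, 4], 4, 2, 858⟩,
  ⟨[0, 3, 1, 4, 5, 2], [0, 3, 1, 2, 5, 4], 4, 2, 1172⟩,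
  ⟨[0, 3, 4, 1, 5, 2], [0, 3, 2, 1, 5, 4], 4, 2, 314⟩,
  ⟨[1, 0, 3, 4, 5, 2], [1, 0, 3, 2, 5, 4], 4, 2, 732⟩,
  ⟨[1, 0, 4, 3, 5, 2], [1, 0, 2, 3, 5, 4], 4, 2, 628⟩,
  ⟨[0, 1, 3, 5, 2, 4], [0, 1, 3, 2, 5, 4], 5, 2, 858⟩,
  ⟨[0, 1, 3, 5, 4, 2], [0, 1, 3, 2, 4, 5], 5, 2, 324⟩,
  ⟨[0, 1, 4, 3, 5, 2], [0, 1, 4, 3, 2, 5], 5, 2, 345⟩,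
  ⟨[0, 1, 4, 5, 3, 2], [0, 1, 4, 2, 3, 5], 5, 2, 670⟩,
  ⟨[0, 1, 5, 2, 3, 4], [0, 1, 2, 5, 3, 4], 5, 2, 628⟩,
  ⟨[0, 1, 5, 3, 2, 4], [0, 1, 2, 3, 5, 4], 5, 2, 628⟩,
  ⟨[0, 1, 5, 4, 2, 3], [0, 1, 2, 4, 5, 3], 5, 2, 356⟩,
  ⟨[0, 1, 5, 4, 3, 2], [0, 1, 2, 4, 3, 5], 5, 2, 356⟩,
  ⟨[0, 3, 1, 5, 4, 2], [0, 3, 1, 2, 4, 5], 5, 2, 858⟩,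
  ⟨[0, 3, 4, 1, 5, 2], [0, 3, 4, 1, 2, 5], 5, 2, 858⟩,
  ⟨[0, 4, 1, 3, 5, 2], [0, 4, 1, 3, 2, 5], 5, 2, 335⟩,
  ⟨[0, 4, 1, 5, 3, 2], [0, 4, 1, 2, 3, 5], 5, 2, 670⟩,
  ⟨[1, 0, 3, 5, 4, 2], [1, 0, 3, 2, 4, 5], 5, 2, 429⟩,
  ⟨[1, 0, 4, 3, 5, 2], [1, 0, 4, 3, 2, 5], 5, 2, 481⟩,
  ⟨[1, 0, 4, 5, 2, 3], [1, 0, 4, 2, 5, 3], 5, 2, 1004⟩,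
  ⟨[1, 0, 4, 5, 3, 2], [1, 0, 4, 2, 3, 5], 5, 2, 670⟩,
  ⟨[1, 0, 5, 2, 3, 4], [1, 0, 2, 5, 3, 4], 5, 2, 628⟩,
  ⟨[1, 0, 5, 2, 4, 3], [1, 0, 2, 5, 4, 3], 5, 2, 1203⟩,
  ⟨[1, 0, 5, 4, 2, 3], [1, 0, 2, 4, 5, 3], 5, 2, 565⟩,
  ⟨[1, 0, 5, 4, 3, 2], [1, 0, 2, 4, 3, 5], 5, 2, 356⟩,
  ⟨[0, 1, 2, 4, 5, 3], [0, 1, 2, 4, 3, 5], 5, 3, 523⟩,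
  ⟨[0, 1, 5, 2, 3, 4], [0, 1, 3, 2, 5, 4], 5, 3, 199⟩,
  ⟨[0, 1, 5, 2, 4, 3], [0, 1, 3, 2, 4, 5], 5, 3, 105⟩,
  ⟨[0, 1, 5, 4, 2, 3], [0, 1, 3, 4, 2, 5], 5, 3, 429⟩,
  ⟨[0, 4, 1, 5, 2, 3], [0, 4, 1, 3, 2, 5], 5, 3, 1098⟩,
  ⟨[1, 0, 4, 5, 2, 3], [1, 0, 4, 3, 2, 5], 5, 3, 94⟩,
  ⟨[1, 0, 5, 2, 3, 4], [1, 0, 3, 2, 5, 4], 5, 3, 324⟩,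
  ⟨[1, 0, 5, 4, 2, 3], [1, 0, 3, 4, 2, 5], 5, 3, 220⟩,
  ⟨[0, 1, 5, 2, 3, 4], [0, 1, 4, 2, 3, 5], 5, 4, 460⟩,
  ⟨[0, 1, 5, 2, 4, 3], [0, 1, 4, 2, 5, 3], 5, 4, 680⟩,
  ⟨[0, 1, 5, 3, 2, 4], [0, 1, 4, 3, 2, 5], 5, 4, 1088⟩,
  ⟨[0, 3, 1, 5, 2, 4], [0, 3, 1, 4, 2, 5], 5, 4, 858⟩,
  ⟨[1, 0, 3, 5, 2, 4], [1, 0, 3, 4, 2, 5], 5, 4, 858⟩,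
  ⟨[1, 0, 5, 2, 3, 4], [1, 0, 4, 2, 3, 5], 5, 4, 335⟩,
  ⟨[1, 0, 5, 3, 2, 4], [1, 0, 4, 3, 2, 5], 5, 4, 858⟩,
  ⟨[1, 0, 5, 3, 4, 2], [1, 0, 4, 3, 5, 2], 5, 4, 439⟩]

theorem okL1a : certOK 14 39 6 relL1a exL1a WL1a SL1a = true := by decide +kernel

end Pool.Agent.Semi
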