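import Pool.Agent.Lib_MP_33fb9b_semi.Check

set_option autoImplicit false

/-!
# Linear programming certificates (data), generated automatically
-/

namespace Pool.Agent.Semi

/-! ### Case L1b, tuple in the natural order: y x v V z w -/

/-- relations -/
def relL1b : List (ℕ × ℕ) := [(0, 4), (0, 5), (1, 5)]

/-- exact pairs with their blockers -/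
def exL1b : List (ℕ × ℕ × List ℕ) := [(0, 1, [4])]

/-- weights of pairs -/
def WL1b : List (ℕ × ℕ × ℕ) := [(0, 1, 134), (1, 2, 18), (2, 3, 21), (3, 4, 13)]

/-- swaps -/
def SL1b : List Swp := [
  ⟨[0, 1, 2, 3, 4, 5], [1, 0, 2, 3, 4, 5], 0, 1, 2611⟩,
  ⟨[0, 1, 2, 3, 5, 4], [1, 0, 2, 3, 5, 4], 0, 1, 2611⟩,
  ⟨[0, 1, 2, 4, 3, 5], [1, 0, 2, 4, 3, 5], 0, 1, 3123⟩,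
  ⟨[0, 1, 2, 4, 5, 3], [1, 0, 2, 4, 5, 3], 0, 1, 2594⟩,
  ⟨[0, 1, 2, 5, 3, 4], [1, 0, 2, 5, 3, 4], 0, 1, 2611⟩,
  ⟨[0, 1, 2, 5, 4, 3], [1, 0, 2, 5, 4, 3], 0, 1, 2099⟩,
  ⟨[0, 1, 3, 2, 4, 5], [1, 0, 3, 2, 4, 5], 0, 1, 2850⟩,
  ⟨[0, 1, 3, 2, 5, 4], [1, 0, 3, 2, 5, 4], 0, 1, 1792⟩,
  ⟨[0, 1, 3, 4, 2, 5], [1, 0, 3, 4, 2, 5], 0, 1, 3431⟩,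
  ⟨[0, 1, 3, 4, 5, 2], [1, 0, 3, 4, 5, 2], 0, 1, 3072⟩,
  ⟨[0, 1, 3, 5, 2, 4], [1, 0, 3, 5, 2, 4], 0, 1, 1792⟩,
  ⟨[0, 1, 3, 5, 4, 2], [1, 0, 3, 5, 4, 2], 0, 1, 1792⟩,
  ⟨[0, 1, 4, 2, 3, 5], [1, 0, 4, 2, 3, 5], 0, 1, 3123⟩,
  ⟨[0, 1, 4, 2, 5, 3], [1, 0, 4, 2, 5, 3], 0, 1, 2099⟩,
  ⟨[0, 1, 4, 3, 2, 5], [1, 0, 4, 3, 2, 5], 0, 1, 3943⟩,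
  ⟨[0, 1, 4, 3, 5, 2], [1, 0, 4, 3, 5, 2], 0, 1, 1280⟩,
  ⟨[0, 1, 4, 5, 2, 3], [1, 0, 4, 5, 2, 3], 0, 1, 3123⟩,
  ⟨[0, 1, 4, 5, 3, 2], [1, 0, 4, 5, 3, 2], 0, 1, 2560⟩,
  ⟨[0, 1, 5, 2, 3, 4], [1, 0, 5, 2, 3, 4], 0, 1, 2611⟩,
  ⟨[0, 1, 5, 2, 4, 3], [1, 0, 5, 2, 4, 3], 0, 1, 2099⟩,
  ⟨[0, 1, 5, 3, 2, 4], [1, 0, 5, 3, 2, 4], 0, 1, 1792⟩,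
  ⟨[0, 1, 5, 3, 4, 2], [1, 0, 5, 3, 4, 2], 0, 1, 1792⟩,
  ⟨[0, 1, 5, 4, 2, 3], [1, 0, 5, 4, 2, 3], 0, 1, 2099⟩,
  ⟨[0, 1, 5, 4, 3, 2], [1, 0, 5, 4, 3, 2], 0, 1, 1280⟩,
  ⟨[0, 2, 1, 3, 4, 5], [1, 2, 0, 3, 4, 5], 0, 1, 2611⟩,
  ⟨[0, 2, 1, 3, 5, 4], [1, 2, 0, 3, 5, 4], 0, 1, 1912⟩,
  ⟨[0, 2, 1, 4, 3, 5], [1, 2, 0, 4, 3, 5], 0, 1, 3123⟩,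
  ⟨[0, 2, 1, 4, 5, 3], [1, 2, 0, 4, 5, 3], 0, 1, 2560⟩,
  ⟨[0, 2, 1, 5, 3, 4], [1, 2, 0, 5, 3, 4], 0, 1, 1912⟩,
  ⟨[0, 2, 1, 5, 4, 3], [1, 2, 0, 5, 4, 3], 0, 1, 2475⟩,
  ⟨[0, 2, 3, 1, 4, 5], [1, 2, 3, 0, 4, 5], 0, 1, 3192⟩,
  ⟨[0, 2, 3, 1, 5, 4], [1, 2, 3, 0, 5, 4], 0, 1, 2611⟩,
  ⟨[0, 3, 1, 2, 4, 5], [1, 3, 0, 2, 4, 5], 0, 1, 3431⟩,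
  ⟨[0, 3, 1, 2, 5, 4], [1, 3, 0, 2, 5, 4], 0, 1, 3431⟩,
  ⟨[0, 3, 1, 4, 2, 5], [1, 3, 0, 4, 2, 5], 0, 1, 3431⟩,
  ⟨[0, 3, 1, 4, 5, 2], [1, 3, 0, 4, 5, 2], 0, 1, 3431⟩,
  ⟨[0, 3, 1, 5, 2, 4], [1, 3, 0, 5, 2, 4], 0, 1, 1792⟩,
  ⟨[0, 3, 1, 5, 4, 2], [1, 3, 0, 5, 4, 2], 0, 1, 1792⟩,
  ⟨[0, 3, 2, 1, 4, 5], [1, 3, 2, 0, 4, 5], 0, 1, 3431⟩,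
  ⟨[0, 3, 2, 1, 5, 4], [1, 3, 2, 0, 5, 4], 0, 1, 3431⟩,
  ⟨[2, 0, 1, 3, 4, 5], [2, 1, 0, 3, 4, 5], 0, 1, 3311⟩,
  ⟨[2, 0, 1, 3, 5, 4], [2, 1, 0, 3, 5, 4], 0, 1, 1912⟩,
  ⟨[2, 0, 1, 4, 3, 5], [2, 1, 0, 4, 3, 5], 0, 1, 3311⟩,
  ⟨[2, 0, 1, 4, 5, 3], [2, 1, 0, 4, 5, 3], 0, 1, 1400⟩,
  ⟨[2, 0, 1, 5, 3, 4], [2, 1, 0, 5, 3, 4], 0, 1, 1912⟩,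
  ⟨[2, 0, 1, 5, 4, 3], [2, 1, 0, 5, 4, 3], 0, 1, 1400⟩,
  ⟨[2, 0, 3, 1, 4, 5], [2, 1, 3, 0, 4, 5], 0, 1, 3311⟩,
  ⟨[2, 0, 3, 1, 5, 4], [2, 1, 3, 0, 5, 4], 0, 1, 2287⟩,
  ⟨[2, 3, 0, 1, 4, 5], [2, 3, 1, 0, 4, 5], 0, 1, 3311⟩,
  ⟨[2, 3, 0, 1, 5, 4], [2, 3, 1, 0, 5, 4], 0, 1, 1912⟩,
  ⟨[3, 0, 1, 2, 4, 5], [3, 1, 0, 2, 4, 5], 0, 1, 2885⟩,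
  ⟨[3, 0, 1, 2, 5, 4], [3, 1, 0, 2, 5, 4], 0, 1, 1792⟩,
  ⟨[3, 0, 1, 4, 2, 5], [3, 1, 0, 4, 2, 5], 0, 1, 2338⟩,
  ⟨[3, 0, 1, 4, 5, 2], [3, 1, 0, 4, 5, 2], 0, 1, 1434⟩,
  ⟨[3, 0, 1, 5, 2, 4], [3, 1, 0, 5, 2, 4], 0, 1, 1792⟩,
  ⟨[3, 0, 1, 5, 4, 2], [3, 1, 0, 5, 4, 2], 0, 1, 1792⟩,
  ⟨[3, 0, 2, 1, 4, 5], [3, 1, 2, 0, 4, 5], 0, 1, 3431⟩,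
  ⟨[3, 0, 2, 1, 5, 4], [3, 1, 2, 0, 5, 4], 0, 1, 1092⟩,
  ⟨[3, 2, 0, 1, 4, 5], [3, 2, 1, 0, 4, 5], 0, 1, 546⟩,
  ⟨[3, 2, 0, 1, 5, 4], [3, 2, 1, 0, 5, 4], 0, 1, 393⟩,
  ⟨[1, 2, 3, 0, 4, 5], [1, 0, 3, 2, 4, 5], 2, 0, 580⟩,
  ⟨[0, 2, 3, 4, 1, 5], [0, 1, 3, 4, 2, 5], 2, 1, 1639⟩,
  ⟨[0, 2, 4, 3, 1, 5], [0, 1, 4, 3, 2, 5], 2, 1, 1741⟩,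
  ⟨[0, 4, 2, 3, 1, 5], [0, 4, 1, 3, 2, 5], 2, 1, 358⟩,
  ⟨[2, 0, 4, 1, 5, 3], [1, 0, 4, 2, 5, 3], 2, 1, 1024⟩,
  ⟨[3, 2, 0, 1, 4, 5], [3, 1, 0, 2, 4, 5], 2, 1, 546⟩,
  ⟨[3, 2, 0, 4, 1, 5], [3, 1, 0, 4, 2, 5], 2, 1, 1092⟩,
  ⟨[0, 2, 3, 4, 1, 5], [0, 2, 1, 4, 3, 5], 3, 1, 273⟩,
  ⟨[0, 3, 4, 1, 2, 5], [0, 1, 4, 3, 2, 5], 3, 1, 922⟩,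
  ⟨[2, 0, 3, 4, 1, 5], [2, 0, 1, 4, 3, 5], 3, 1, 1912⟩,
  ⟨[2, 3, 0, 4, 1, 5], [2, 1, 0, 4, 3, 5], 3, 1, 512⟩,
  ⟨[3, 0, 1, 4, 5, 2], [1, 0, 3, 4, 5, 2], 3, 1, 358⟩,
  ⟨[3, 0, 4, 1, 5, 2], [1, 0, 4, 3, 5, 2], 3, 1, 1792⟩,
  ⟨[3, 2, 0, 1, 5, 4], [1, 2, 0, 3, 5, 4], 3, 1, 700⟩,
  ⟨[0, 2, 4, 1, 3, 5], [0, 2, 1, 4, 3, 5], 4, 1, 1400⟩,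
  ⟨[0, 2, 4, 1, 5, 3], [0, 2, 1, 4, 5, 3], 4, 1, 700⟩,
  ⟨[0, 2, 4, 3, 1, 5], [0, 2, 1, 3, 4, 5], 4, 1, 700⟩,
  ⟨[0, 3, 2, 4, 1, 5], [0, 3, 2, 1, 4, 5], 4, 1, 1092⟩,
  ⟨[0, 3, 4, 1, 5, 2], [0, 3, 1, 4, 5, 2], 4, 1, 358⟩,
  ⟨[0, 3, 4, 2, 1, 5], [0, 3, 1, 2, 4, 5], 4, 1, 1092⟩,
  ⟨[0, 4, 1, 2, 3, 5], [0, 1, 4, 2, 3, 5], 4, 1, 1502⟩,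
  ⟨[0, 4, 1, 5, 2, 3], [0, 1, 4, 5, 2, 3], 4, 1, 1024⟩,
  ⟨[0, 4, 1, 5, 3, 2], [0, 1, 4, 5, 3, 2], 4, 1, 1280⟩,
  ⟨[0, 4, 2, 1, 3, 5], [0, 1, 2, 4, 3, 5], 4, 1, 1024⟩,
  ⟨[0, 4, 2, 1, 5, 3], [0, 1, 2, 4, 5, 3], 4, 1, 495⟩,
  ⟨[0, 4, 3, 1, 5, 2], [0, 1, 3, 4, 5, 2], 4, 1, 1280⟩,
  ⟨[0, 4, 3, 2, 1, 5], [0, 1, 3, 2, 4, 5], 4, 1, 580⟩,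
  ⟨[2, 0, 4, 3, 1, 5], [2, 0, 1, 3, 4, 5], 4, 1, 1400⟩,
  ⟨[2, 3, 0, 4, 1, 5], [2, 3, 0, 1, 4, 5], 4, 1, 1400⟩,
  ⟨[3, 0, 2, 4, 1, 5], [3, 0, 2, 1, 4, 5], 4, 1, 1092⟩,
  ⟨[3, 0, 4, 1, 2, 5], [3, 0, 1, 4, 2, 5], 4, 1, 546⟩,
  ⟨[3, 0, 4, 2, 1, 5], [3, 0, 1, 2, 4, 5], 4, 1, 1092⟩,
  ⟨[0, 3, 4, 1, 2, 5], [0, 3, 2, 1, 4, 5], 4, 2, 870⟩,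
  ⟨[0, 3, 4, 1, 5, 2], [0, 3, 2, 1, 5, 4], 4, 2, 1434⟩,
  ⟨[0, 4, 1, 2, 3, 5], [0, 2, 1, 4, 3, 5], 4, 2, 51⟩,
  ⟨[0, 4, 1, 2, 5, 3], [0, 2, 1, 4, 5, 3], 4, 2, 461⟩,
  ⟨[0, 4, 1, 5, 2, 3], [0, 2, 1, 5, 4, 3], 4, 2, 1075⟩,
  ⟨[0, 4, 2, 3, 1, 5], [0, 2, 4, 3, 1, 5], 4, 2, 1041⟩,
  ⟨[0, 4, 3, 1, 2, 5], [0, 2, 3, 1, 4, 5], 4, 2, 1280⟩,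
  ⟨[3, 0, 4, 1, 2, 5], [3, 0, 2, 1, 4, 5], 4, 2, 1246⟩,
  ⟨[0, 1, 4, 2, 3, 5], [0, 1, 3, 2, 4, 5], 4, 3, 478⟩,
  ⟨[0, 2, 4, 1, 5, 3], [0, 2, 3, 1, 5, 4], 4, 3, 700⟩,
  ⟨[0, 4, 1, 2, 3, 5], [0, 3, 1, 2, 4, 5], 4, 3, 546⟩,
  ⟨[0, 4, 1, 2, 5, 3], [0, 3, 1, 2, 5, 4], 4, 3, 1639⟩,
  ⟨[0, 4, 1, 3, 2, 5], [0, 3, 1, 4, 2, 5], 4, 3, 1639⟩,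
  ⟨[0, 4, 1, 3, 5, 2], [0, 3, 1, 4, 5, 2], 4, 3, 1280⟩,
  ⟨[0, 4, 2, 1, 3, 5], [0, 3, 2, 1, 4, 5], 4, 3, 376⟩,
  ⟨[0, 4, 2, 1, 5, 3], [0, 3, 2, 1, 5, 4], 4, 3, 905⟩,
  ⟨[2, 0, 4, 1, 3, 5], [2, 0, 3, 1, 4, 5], 4, 3, 1400⟩,
  ⟨[2, 0, 4, 1, 5, 3], [2, 0, 3, 1, 5, 4], 4, 3, 376⟩]

theorem okL1b : certOK 14 39 6 relL1b exL1b WL1b SL1b = true := by decide +kernel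

end Pool.Agent.Semi
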