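import Pool.Agent.Lib_MP_33fb9b_semi.Check

set_option autoImplicit false

/-!
# Linear programming certificates (data), generated automatically
-/

namespace Pool.Agent.Semi

/-! ### Case L2_20_11, tuple in the natural order: t u y x v z w -/

/-- relations -/
def relL2_20_11 : List (ℕ × ℕ) := [(0, 4), (0, 5), (0, 6), (1, 4), (1, 5), (1, 6), (2, 5), (2, 6), (3, 6), (4, 6)]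

/-- exact pairs with their blockers -/
def exL2_20_11 : List (ℕ × ℕ × List ℕ) := [(2, 3, [5]), (3, 4, [0, 1]), (4, 5, [2, 6])]

/-- weights of pairs -/
def WL2_20_11 : List (ℕ × ℕ × ℕ) := [(0, 1, 1), (2, 3, 50), (3, 4, 23), (4, 5, 13)]

/-- swaps -/
def SL2_20_11 : List Swp := [
  ⟨[2, 1, 0, 4, 5, 3, 6], [2, 0, 1, 4, 5, 3, 6], 1, 0, 194⟩,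
  ⟨[1, 2, 0, 5, 3, 4, 6], [1, 0, 2, 5, 3, 4, 6], 2, 0, 194⟩,
  ⟨[1, 2, 3, 0, 4, 6, 5], [1, 0, 3, 2, 4, 6, 5], 2, 0, 616⟩,
  ⟨[2, 1, 3, 0, 4, 6, 5], [0, 1, 3, 2, 4, 6, 5], 2, 0, 308⟩,
  ⟨[2, 3, 0, 1, 4, 6, 5], [0, 3, 2, 1, 4, 6, 5], 2, 0, 282⟩,
  ⟨[1, 3, 0, 2, 4, 6, 5], [1, 0, 3, 2, 4, 6, 5], 3, 0, 168⟩,
  ⟨[0, 2, 1, 3, 4, 6, 5], [0, 1, 2, 3, 4, 6, 5], 2, 1, 104⟩,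
  ⟨[0, 2, 1, 5, 3, 4, 6], [0, 1, 2, 5, 3, 4, 6], 2, 1, 312⟩,
  ⟨[0, 2, 1, 5, 4, 3, 6], [0, 1, 2, 5, 4, 3, 6], 2, 1, 173⟩,
  ⟨[0, 2, 3, 1, 4, 6, 5], [0, 1, 3, 2, 4, 6, 5], 2, 1, 784⟩,
  ⟨[2, 0, 1, 3, 4, 5, 6], [1, 0, 2, 3, 4, 5, 6], 2, 1, 129⟩,
  ⟨[2, 0, 1, 4, 3, 5, 6], [1, 0, 2, 4, 3, 5, 6], 2, 1, 344⟩,
  ⟨[2, 0, 1, 5, 4, 3, 6], [1, 0, 2, 5, 4, 3, 6], 2, 1, 205⟩,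
  ⟨[2, 0, 3, 1, 4, 6, 5], [1, 0, 3, 2, 4, 6, 5], 2, 1, 502⟩,
  ⟨[2, 3, 0, 1, 4, 6, 5], [1, 3, 0, 2, 4, 6, 5], 2, 1, 194⟩,
  ⟨[2, 3, 1, 0, 4, 6, 5], [1, 3, 2, 0, 4, 6, 5], 2, 1, 308⟩,
  ⟨[3, 2, 0, 1, 4, 6, 5], [3, 1, 0, 2, 4, 6, 5], 2, 1, 26⟩,
  ⟨[3, 0, 1, 2, 4, 6, 5], [1, 0, 3, 2, 4, 6, 5], 3, 1, 104⟩,
  ⟨[0, 1, 2, 3, 4, 5, 6], [0, 1, 3, 2, 4, 5, 6], 2, 3, 1230⟩,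
  ⟨[0, 1, 2, 3, 5, 4, 6], [0, 1, 3, 2, 5, 4, 6], 2, 3, 1057⟩,
  ⟨[0, 1, 2, 4, 3, 5, 6], [0, 1, 3, 4, 2, 5, 6], 2, 3, 1369⟩,
  ⟨[0, 1, 2, 4, 3, 6, 5], [0, 1, 3, 4, 2, 6, 5], 2, 3, 1663⟩,
  ⟨[0, 1, 4, 2, 3, 5, 6], [0, 1, 4, 3, 2, 5, 6], 2, 3, 987⟩,
  ⟨[0, 1, 4, 2, 3, 6, 5], [0, 1, 4, 3, 2, 6, 5], 2, 3, 694⟩,
  ⟨[0, 2, 1, 3, 4, 5, 6], [0, 3, 1, 2, 4, 5, 6], 2, 3, 728⟩,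
  ⟨[0, 2, 1, 3, 4, 6, 5], [0, 3, 1, 2, 4, 6, 5], 2, 3, 728⟩,
  ⟨[0, 2, 1, 3, 5, 4, 6], [0, 3, 1, 2, 5, 4, 6], 2, 3, 1230⟩,
  ⟨[0, 2, 1, 4, 3, 5, 6], [0, 3, 1, 4, 2, 5, 6], 2, 3, 728⟩,
  ⟨[0, 2, 1, 4, 3, 6, 5], [0, 3, 1, 4, 2, 6, 5], 2, 3, 728⟩,
  ⟨[0, 2, 3, 1, 4, 5, 6], [0, 3, 2, 1, 4, 5, 6], 2, 3, 728⟩,
  ⟨[0, 2, 3, 1, 4, 6, 5], [0, 3, 2, 1, 4, 6, 5], 2, 3, 446⟩,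
  ⟨[0, 2, 3, 1, 5, 4, 6], [0, 3, 2, 1, 5, 4, 6], 2, 3, 1230⟩,
  ⟨[1, 0, 2, 3, 4, 5, 6], [1, 0, 3, 2, 4, 5, 6], 2, 3, 1327⟩,
  ⟨[1, 0, 2, 3, 5, 4, 6], [1, 0, 3, 2, 5, 4, 6], 2, 3, 695⟩,
  ⟨[1, 0, 2, 4, 3, 5, 6], [1, 0, 3, 4, 2, 5, 6], 2, 3, 1827⟩,
  ⟨[1, 0, 2, 4, 3, 6, 5], [1, 0, 3, 4, 2, 6, 5], 2, 3, 1494⟩,
  ⟨[1, 0, 4, 2, 3, 5, 6], [1, 0, 4, 3, 2, 5, 6], 2, 3, 594⟩,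
  ⟨[1, 0, 4, 2, 3, 6, 5], [1, 0, 4, 3, 2, 6, 5], 2, 3, 927⟩,
  ⟨[1, 2, 0, 3, 4, 5, 6], [1, 3, 0, 2, 4, 5, 6], 2, 3, 760⟩,
  ⟨[1, 2, 0, 3, 4, 6, 5], [1, 3, 0, 2, 4, 6, 5], 2, 3, 734⟩,
  ⟨[1, 2, 0, 3, 5, 4, 6], [1, 3, 0, 2, 5, 4, 6], 2, 3, 1262⟩,
  ⟨[1, 2, 0, 4, 3, 5, 6], [1, 3, 0, 4, 2, 5, 6], 2, 3, 760⟩,
  ⟨[1, 2, 0, 4, 3, 6, 5], [1, 3, 0, 4, 2, 6, 5], 2, 3, 760⟩,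
  ⟨[1, 2, 3, 0, 4, 5, 6], [1, 3, 2, 0, 4, 5, 6], 2, 3, 760⟩,
  ⟨[1, 2, 3, 0, 4, 6, 5], [1, 3, 2, 0, 4, 6, 5], 2, 3, 452⟩,
  ⟨[1, 2, 3, 0, 5, 4, 6], [1, 3, 2, 0, 5, 4, 6], 2, 3, 1262⟩,
  ⟨[2, 0, 1, 3, 4, 5, 6], [3, 0, 1, 2, 4, 5, 6], 2, 3, 728⟩,
  ⟨[2, 0, 1, 3, 4, 6, 5], [3, 0, 1, 2, 4, 6, 5], 2, 3, 831⟩,
  ⟨[2, 0, 1, 3, 5, 4, 6], [3, 0, 1, 2, 5, 4, 6], 2, 3, 1230⟩,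
  ⟨[2, 0, 1, 4, 3, 5, 6], [3, 0, 1, 4, 2, 5, 6], 2, 3, 728⟩,
  ⟨[2, 0, 1, 4, 3, 6, 5], [3, 0, 1, 4, 2, 6, 5], 2, 3, 728⟩,
  ⟨[2, 0, 3, 1, 4, 5, 6], [3, 0, 2, 1, 4, 5, 6], 2, 3, 1230⟩,
  ⟨[2, 0, 3, 1, 4, 6, 5], [3, 0, 2, 1, 4, 6, 5], 2, 3, 728⟩,
  ⟨[2, 0, 3, 1, 5, 4, 6], [3, 0, 2, 1, 5, 4, 6], 2, 3, 728⟩,
  ⟨[2, 1, 0, 3, 4, 5, 6], [3, 1, 0, 2, 4, 5, 6], 2, 3, 760⟩,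
  ⟨[2, 1, 0, 3, 4, 6, 5], [3, 1, 0, 2, 4, 6, 5], 2, 3, 734⟩,
  ⟨[2, 1, 0, 3, 5, 4, 6], [3, 1, 0, 2, 5, 4, 6], 2, 3, 1262⟩,
  ⟨[2, 1, 0, 4, 3, 5, 6], [3, 1, 0, 4, 2, 5, 6], 2, 3, 760⟩,
  ⟨[2, 1, 0, 4, 3, 6, 5], [3, 1, 0, 4, 2, 6, 5], 2, 3, 760⟩,
  ⟨[2, 1, 3, 0, 4, 5, 6], [3, 1, 2, 0, 4, 5, 6], 2, 3, 1198⟩,
  ⟨[2, 1, 3, 0, 4, 6, 5], [3, 1, 2, 0, 4, 6, 5], 2, 3, 889⟩,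
  ⟨[2, 1, 3, 0, 5, 4, 6], [3, 1, 2, 0, 5, 4, 6], 2, 3, 695⟩,
  ⟨[2, 3, 0, 1, 4, 5, 6], [3, 2, 0, 1, 4, 5, 6], 2, 3, 1230⟩,
  ⟨[2, 3, 0, 1, 4, 6, 5], [3, 2, 0, 1, 4, 6, 5], 2, 3, 754⟩,
  ⟨[2, 3, 0, 1, 5, 4, 6], [3, 2, 0, 1, 5, 4, 6], 2, 3, 728⟩,
  ⟨[2, 3, 1, 0, 4, 5, 6], [3, 2, 1, 0, 4, 5, 6], 2, 3, 1198⟩,
  ⟨[2, 3, 1, 0, 4, 6, 5], [3, 2, 1, 0, 4, 6, 5], 2, 3, 889⟩,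
  ⟨[2, 3, 1, 0, 5, 4, 6], [3, 2, 1, 0, 5, 4, 6], 2, 3, 695⟩,
  ⟨[0, 1, 2, 3, 4, 6, 5], [0, 1, 2, 4, 3, 6, 5], 3, 4, 1333⟩,
  ⟨[0, 1, 2, 4, 5, 3, 6], [0, 1, 2, 3, 5, 4, 6], 4, 3, 329⟩,
  ⟨[0, 1, 3, 2, 4, 5, 6], [0, 1, 4, 2, 3, 5, 6], 3, 4, 502⟩,
  ⟨[0, 1, 3, 2, 4, 6, 5], [0, 1, 4, 2, 3, 6, 5], 3, 4, 365⟩,
  ⟨[0, 1, 3, 4, 2, 5, 6], [0, 1, 4, 3, 2, 5, 6], 3, 4, 641⟩,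
  ⟨[0, 1, 3, 4, 2, 6, 5], [0, 1, 4, 3, 2, 6, 5], 3, 4, 935⟩,
  ⟨[0, 1, 4, 2, 5, 3, 6], [0, 1, 3, 2, 5, 4, 6], 4, 3, 173⟩,
  ⟨[0, 2, 1, 3, 4, 6, 5], [0, 2, 1, 4, 3, 6, 5], 3, 4, 399⟩,
  ⟨[0, 2, 1, 5, 3, 4, 6], [0, 2, 1, 5, 4, 3, 6], 3, 4, 17⟩,
  ⟨[1, 0, 2, 3, 4, 6, 5], [1, 0, 2, 4, 3, 6, 5], 3, 4, 1198⟩,
  ⟨[1, 0, 3, 2, 4, 6, 5], [1, 0, 4, 2, 3, 6, 5], 3, 4, 630⟩,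
  ⟨[1, 0, 3, 4, 2, 5, 6], [1, 0, 4, 3, 2, 5, 6], 3, 4, 1067⟩,
  ⟨[1, 0, 3, 4, 2, 6, 5], [1, 0, 4, 3, 2, 6, 5], 3, 4, 734⟩,
  ⟨[1, 2, 0, 3, 4, 6, 5], [1, 2, 0, 4, 3, 6, 5], 3, 4, 463⟩,
  ⟨[1, 2, 0, 4, 5, 3, 6], [1, 2, 0, 3, 5, 4, 6], 4, 3, 129⟩,
  ⟨[1, 2, 0, 5, 3, 4, 6], [1, 2, 0, 5, 4, 3, 6], 3, 4, 38⟩,
  ⟨[2, 0, 1, 3, 4, 6, 5], [2, 0, 1, 4, 3, 6, 5], 3, 4, 399⟩,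
  ⟨[2, 1, 0, 3, 4, 6, 5], [2, 1, 0, 4, 3, 6, 5], 3, 4, 463⟩,
  ⟨[2, 1, 0, 4, 5, 3, 6], [2, 1, 0, 3, 5, 4, 6], 4, 3, 103⟩,
  ⟨[2, 1, 0, 5, 3, 4, 6], [2, 1, 0, 5, 4, 3, 6], 3, 4, 205⟩,
  ⟨[0, 1, 4, 2, 5, 3, 6], [0, 1, 4, 2, 3, 5, 6], 5, 3, 156⟩,
  ⟨[1, 0, 2, 4, 5, 3, 6], [1, 0, 2, 4, 3, 5, 6], 5, 3, 297⟩,
  ⟨[1, 0, 4, 2, 5, 3, 6], [1, 0, 4, 2, 3, 5, 6], 5, 3, 297⟩,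
  ⟨[2, 0, 1, 4, 5, 3, 6], [2, 0, 1, 4, 3, 5, 6], 5, 3, 145⟩,
  ⟨[2, 0, 1, 5, 3, 4, 6], [2, 0, 1, 3, 5, 4, 6], 5, 3, 129⟩,
  ⟨[2, 1, 0, 5, 3, 4, 6], [2, 1, 0, 3, 5, 4, 6], 5, 3, 27⟩,
  ⟨[0, 1, 2, 5, 3, 4, 6], [0, 1, 2, 4, 3, 5, 6], 5, 4, 1040⟩,
  ⟨[0, 2, 1, 3, 4, 5, 6], [0, 2, 1, 3, 5, 4, 6], 4, 5, 502⟩,
  ⟨[0, 2, 1, 4, 5, 3, 6], [0, 2, 1, 5, 4, 3, 6], 4, 5, 329⟩,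
  ⟨[0, 2, 1, 5, 3, 4, 6], [0, 2, 1, 4, 3, 5, 6], 5, 4, 399⟩,
  ⟨[0, 2, 3, 1, 4, 5, 6], [0, 2, 3, 1, 5, 4, 6], 4, 5, 502⟩,
  ⟨[1, 0, 2, 5, 3, 4, 6], [1, 0, 2, 4, 3, 5, 6], 5, 4, 889⟩,
  ⟨[1, 0, 3, 2, 4, 5, 6], [1, 0, 3, 2, 5, 4, 6], 4, 5, 567⟩,
  ⟨[1, 2, 0, 3, 4, 5, 6], [1, 2, 0, 3, 5, 4, 6], 4, 5, 437⟩,
  ⟨[1, 2, 0, 4, 5, 3, 6], [1, 2, 0, 5, 4, 3, 6], 4, 5, 167⟩,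
  ⟨[1, 2, 0, 5, 3, 4, 6], [1, 2, 0, 4, 3, 5, 6], 5, 4, 463⟩,
  ⟨[1, 2, 3, 0, 4, 5, 6], [1, 2, 3, 0, 5, 4, 6], 4, 5, 567⟩,
  ⟨[2, 0, 1, 3, 4, 5, 6], [2, 0, 1, 3, 5, 4, 6], 4, 5, 373⟩,
  ⟨[2, 0, 1, 4, 5, 3, 6], [2, 0, 1, 5, 4, 3, 6], 4, 5, 378⟩,
  ⟨[2, 0, 1, 5, 3, 4, 6], [2, 0, 1, 4, 3, 5, 6], 5, 4, 598⟩,
  ⟨[2, 1, 0, 3, 4, 5, 6], [2, 1, 0, 3, 5, 4, 6], 4, 5, 437⟩,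
  ⟨[2, 1, 0, 5, 3, 4, 6], [2, 1, 0, 4, 3, 5, 6], 5, 4, 463⟩,
  ⟨[3, 0, 2, 1, 4, 5, 6], [3, 0, 2, 1, 5, 4, 6], 4, 5, 502⟩,
  ⟨[3, 1, 2, 0, 4, 5, 6], [3, 1, 2, 0, 5, 4, 6], 4, 5, 567⟩,
  ⟨[3, 2, 0, 1, 4, 5, 6], [3, 2, 0, 1, 5, 4, 6], 4, 5, 502⟩,
  ⟨[3, 2, 1, 0, 4, 5, 6], [3, 2, 1, 0, 5, 4, 6], 4, 5, 567⟩,
  ⟨[1, 2, 3, 0, 4, 6, 5], [1, 2, 3, 0, 4, 5, 6], 6, 5, 129⟩,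
  ⟨[3, 1, 2, 0, 4, 6, 5], [3, 1, 2, 0, 4, 5, 6], 6, 5, 129⟩,
  ⟨[3, 2, 1, 0, 4, 6, 5], [3, 2, 1, 0, 4, 5, 6], 6, 5, 129⟩]

theorem okL2_20_11 : certOK 14 39 7 relL2_20_11 exL2_20_11 WL2_20_11 SL2_20_11 = true := by decide +kernel

end Pool.Agent.Semi
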