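import Pool.Agent.Lib_MP_33fb9b_semi.Check

set_option autoImplicit false

/-!
# Linear programming certificates (data), generated automatically
-/

namespace Pool.Agent.Semi

/-! ### Case L3, tuple in the natural order: y x v z -/

/-- relations -/
def relL3 : List (ℕ × ℕ) := [(0, 3)]

/-- exact pairs with their blockers -/
def exL3 : List (ℕ × ℕ × List ℕ) := [(0, 1, [3]), (2, 3, [0])]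

/-- weights of pairs -/
def WL3 : List (ℕ × ℕ × ℕ) := [(0, 1, 7), (1, 2, 4), (2, 3, 8)]

/-- swaps -/
def SL3 : List Swp := [
  ⟨[0, 1, 3, 2], [1, 0, 3, 2], 0, 1, 312⟩,
  ⟨[2, 0, 1, 3], [2, 1, 0, 3], 0, 1, 156⟩,
  ⟨[2, 0, 3, 1], [0, 2, 3, 1], 2, 0, 78⟩,
  ⟨[0, 2, 1, 3], [0, 1, 2, 3], 2, 1, 78⟩,
  ⟨[2, 0, 3, 1], [2, 0, 1, 3], 3, 1, 39⟩,
  ⟨[0, 1, 2, 3], [0, 1, 3, 2], 2, 3, 351⟩,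
  ⟨[0, 2, 1, 3], [0, 3, 1, 2], 2, 3, 39⟩,
  ⟨[0, 2, 3, 1], [0, 3, 2, 1], 2, 3, 195⟩]

theorem okL3 : certOK 14 39 4 relL3 exL3 WL3 SL3 = true := by decide +kernel

/-! ### Case L3_20, tuple in the natural order: q y x v z -/

/-- relations -/
def relL3_20 : List (ℕ × ℕ) := [(0, 4), (1, 4)]

/-- exact pairs with their blockers -/
def exL3_20 : List (ℕ × ℕ × List ℕ) := [(1, 2, [4]), (3, 4, [0, 1])]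

/-- weights of pairs -/
def WL3_20 : List (ℕ × ℕ × ℕ) := [(1, 2, 193), (3, 4, 105), (2, 3, 87), (0, 1, 5)]

/-- swaps -/
def SL3_20 : List Swp := [
  ⟨[1, 2, 3, 0, 4], [1, 2, 0, 3, 4], 3, 0, 2184⟩,
  ⟨[0, 1, 3, 2, 4], [0, 2, 3, 1, 4], 1, 2, 2067⟩,
  ⟨[0, 1, 3, 4, 2], [0, 1, 4, 3, 2], 3, 4, 2028⟩,
  ⟨[0, 1, 2, 4, 3], [0, 1, 2, 3, 4], 4, 3, 2769⟩,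
  ⟨[0, 2, 1, 3, 4], [0, 2, 1, 4, 3], 3, 4, 6162⟩,
  ⟨[0, 1, 2, 3, 4], [0, 2, 1, 3, 4], 1, 2, 8229⟩,
  ⟨[0, 3, 1, 2, 4], [0, 3, 2, 1, 4], 1, 2, 5460⟩,
  ⟨[2, 1, 0, 3, 4], [2, 1, 0, 4, 3], 3, 4, 6357⟩,
  ⟨[3, 1, 2, 0, 4], [3, 1, 0, 2, 4], 2, 0, 546⟩,
  ⟨[1, 0, 4, 2, 3], [1, 0, 2, 4, 3], 4, 2, 1794⟩,
  ⟨[1, 0, 2, 3, 4], [2, 0, 1, 3, 4], 1, 2, 8229⟩,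
  ⟨[1, 0, 3, 2, 4], [1, 0, 4, 2, 3], 3, 4, 624⟩,
  ⟨[1, 3, 0, 4, 2], [0, 3, 1, 4, 2], 1, 0, 1326⟩,
  ⟨[3, 1, 0, 2, 4], [3, 2, 0, 1, 4], 1, 2, 4290⟩,
  ⟨[1, 0, 2, 4, 3], [1, 0, 2, 3, 4], 4, 3, 2964⟩,
  ⟨[2, 1, 3, 0, 4], [2, 0, 3, 1, 4], 1, 0, 819⟩,
  ⟨[1, 0, 3, 4, 2], [1, 0, 4, 3, 2], 3, 4, 2223⟩,
  ⟨[1, 3, 0, 2, 4], [2, 3, 0, 1, 4], 1, 2, 2067⟩,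
  ⟨[1, 3, 0, 4, 2], [1, 0, 3, 4, 2], 3, 0, 351⟩,
  ⟨[1, 3, 0, 4, 2], [1, 3, 0, 2, 4], 4, 2, 195⟩,
  ⟨[3, 1, 2, 0, 4], [3, 0, 2, 1, 4], 1, 0, 1326⟩,
  ⟨[2, 0, 1, 3, 4], [2, 0, 1, 4, 3], 3, 4, 6162⟩,
  ⟨[1, 2, 0, 3, 4], [2, 1, 0, 3, 4], 1, 2, 8619⟩,
  ⟨[1, 0, 3, 2, 4], [2, 0, 3, 1, 4], 1, 2, 1248⟩,
  ⟨[0, 1, 4, 2, 3], [0, 1, 2, 4, 3], 4, 2, 1365⟩,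
  ⟨[1, 3, 2, 0, 4], [2, 3, 1, 0, 4], 1, 2, 1872⟩,
  ⟨[1, 2, 3, 0, 4], [2, 1, 3, 0, 4], 1, 2, 3081⟩,
  ⟨[3, 0, 1, 2, 4], [3, 0, 2, 1, 4], 1, 2, 4134⟩,
  ⟨[3, 0, 1, 4, 2], [3, 0, 1, 2, 4], 4, 2, 2067⟩,
  ⟨[1, 2, 0, 4, 3], [1, 2, 0, 3, 4], 4, 3, 1170⟩,
  ⟨[0, 3, 1, 4, 2], [0, 3, 1, 2, 4], 4, 2, 3393⟩,
  ⟨[3, 1, 0, 4, 2], [3, 1, 0, 2, 4], 4, 2, 1872⟩,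
  ⟨[0, 1, 3, 4, 2], [0, 1, 2, 4, 3], 3, 2, 39⟩]

theorem okL3_20 : certOK 14 39 5 relL3_20 exL3_20 WL3_20 SL3_20 = true := by decide +kernel

/-! ### Case L2_10, tuple in the natural order: u y x v z -/

/-- relations -/
def relL2_10 : List (ℕ × ℕ) := [(0, 3), (0, 4), (1, 4)]

/-- exact pairs with their blockers -/
def exL2_10 : List (ℕ × ℕ × List ℕ) := [(1, 2, [4]), (2, 3, [0])]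

/-- weights of pairs -/
def WL2_10 : List (ℕ × ℕ × ℕ) := [(0, 1, 2), (1, 2, 14), (2, 3, 14), (3, 4, 3)]

/-- swaps -/
def SL2_10 : List Swp := [
  ⟨[1, 2, 0, 3, 4], [0, 2, 1, 3, 4], 1, 0, 234⟩,
  ⟨[2, 0, 1, 3, 4], [0, 2, 1, 3, 4], 2, 0, 78⟩,
  ⟨[0, 1, 2, 3, 4], [0, 2, 1, 3, 4], 1, 2, 468⟩,
  ⟨[0, 1, 2, 4, 3], [0, 2, 1, 4, 3], 1, 2, 273⟩,
  ⟨[0, 1, 3, 2, 4], [0, 2, 3, 1, 4], 1, 2, 78⟩,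
  ⟨[0, 3, 1, 2, 4], [0, 3, 2, 1, 4], 1, 2, 624⟩,
  ⟨[1, 0, 2, 3, 4], [2, 0, 1, 3, 4], 1, 2, 156⟩,
  ⟨[1, 0, 2, 4, 3], [2, 0, 1, 4, 3], 1, 2, 195⟩,
  ⟨[1, 0, 3, 2, 4], [2, 0, 3, 1, 4], 1, 2, 78⟩,
  ⟨[1, 2, 0, 3, 4], [2, 1, 0, 3, 4], 1, 2, 156⟩,
  ⟨[1, 2, 0, 4, 3], [2, 1, 0, 4, 3], 1, 2, 273⟩,
  ⟨[0, 1, 2, 4, 3], [0, 1, 3, 4, 2], 2, 3, 78⟩,
  ⟨[0, 1, 4, 2, 3], [0, 1, 4, 3, 2], 2, 3, 195⟩,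
  ⟨[0, 2, 1, 3, 4], [0, 3, 1, 2, 4], 2, 3, 702⟩,
  ⟨[0, 2, 1, 4, 3], [0, 3, 1, 4, 2], 2, 3, 78⟩,
  ⟨[1, 0, 2, 3, 4], [1, 0, 3, 2, 4], 2, 3, 234⟩,
  ⟨[1, 0, 2, 4, 3], [1, 0, 3, 4, 2], 2, 3, 78⟩,
  ⟨[1, 0, 4, 2, 3], [1, 0, 4, 3, 2], 2, 3, 273⟩,
  ⟨[0, 1, 4, 2, 3], [0, 1, 3, 2, 4], 4, 3, 156⟩]

theorem okL2_10 : certOK 14 39 5 relL2_10 exL2_10 WL2_10 SL2_10 = true := by decide +kernel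

/-! ### Case L2_01, tuple in the natural order: y x v z w -/

/-- relations -/
def relL2_01 : List (ℕ × ℕ) := [(0, 3), (0, 4), (1, 4)]

/-- exact pairs with their blockers -/
def exL2_01 : List (ℕ × ℕ × List ℕ) := [(0, 1, [3]), (1, 2, [4])]

/-- weights of pairs -/
def WL2_01 : List (ℕ × ℕ × ℕ) := [(0, 1, 6), (1, 2, 6), (2, 3, 3), (3, 4, 1)]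

/-- swaps -/
def SL2_01 : List Swp := [
  ⟨[0, 1, 2, 3, 4], [1, 0, 2, 3, 4], 0, 1, 232⟩,
  ⟨[0, 1, 2, 4, 3], [1, 0, 2, 4, 3], 0, 1, 334⟩,
  ⟨[0, 1, 3, 2, 4], [1, 0, 3, 2, 4], 0, 1, 116⟩,
  ⟨[0, 1, 3, 4, 2], [1, 0, 3, 4, 2], 0, 1, 116⟩,
  ⟨[0, 1, 4, 2, 3], [1, 0, 4, 2, 3], 0, 1, 44⟩,
  ⟨[0, 1, 4, 3, 2], [1, 0, 4, 3, 2], 0, 1, 73⟩,
  ⟨[0, 2, 1, 4, 3], [1, 2, 0, 4, 3], 0, 1, 73⟩,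
  ⟨[2, 0, 1, 3, 4], [2, 1, 0, 3, 4], 0, 1, 232⟩,
  ⟨[2, 0, 1, 4, 3], [2, 1, 0, 4, 3], 0, 1, 247⟩,
  ⟨[0, 3, 1, 2, 4], [0, 3, 2, 1, 4], 1, 2, 116⟩,
  ⟨[1, 0, 2, 3, 4], [2, 0, 1, 3, 4], 1, 2, 232⟩,
  ⟨[1, 0, 2, 4, 3], [2, 0, 1, 4, 3], 1, 2, 290⟩,
  ⟨[1, 2, 0, 4, 3], [2, 1, 0, 4, 3], 1, 2, 29⟩,
  ⟨[0, 3, 1, 4, 2], [0, 2, 1, 4, 3], 3, 2, 116⟩,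
  ⟨[0, 1, 4, 2, 3], [0, 1, 2, 4, 3], 4, 2, 145⟩]

theorem okL2_01 : certOK 14 39 5 relL2_01 exL2_01 WL2_01 SL2_01 = true := by decide +kernel

/-! ### Case L2_11, tuple in the natural order: u y x v z w -/

/-- relations -/
def relL2_11 : List (ℕ × ℕ) := [(0, 3), (0, 4), (0, 5), (1, 4), (1, 5), (2, 5)]

/-- exact pairs with their blockers -/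
def exL2_11 : List (ℕ × ℕ × List ℕ) := [(1, 2, [4]), (2, 3, [0, 5])]

/-- weights of pairs -/
def WL2_11 : List (ℕ × ℕ × ℕ) := [(0, 1, 9), (1, 2, 95), (2, 3, 44), (3, 4, 9)]

/-- swaps -/
def SL2_11 : List Swp := [
  ⟨[1, 0, 4, 2, 5, 3], [0, 1, 4, 2, 5, 3], 1, 0, 490⟩,
  ⟨[2, 0, 3, 1, 4, 5], [0, 2, 3, 1, 4, 5], 2, 0, 70⟩,
  ⟨[0, 1, 2, 3, 4, 5], [0, 2, 1, 3, 4, 5], 1, 2, 2344⟩,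
  ⟨[0, 1, 2, 3, 5, 4], [0, 2, 1, 3, 5, 4], 1, 2, 2904⟩,
  ⟨[0, 1, 2, 4, 3, 5], [0, 2, 1, 4, 3, 5], 1, 2, 1854⟩,
  ⟨[0, 1, 2, 4, 5, 3], [0, 2, 1, 4, 5, 3], 1, 2, 1854⟩,
  ⟨[0, 1, 2, 5, 3, 4], [0, 2, 1, 5, 3, 4], 1, 2, 1505⟩,
  ⟨[0, 1, 2, 5, 4, 3], [0, 2, 1, 5, 4, 3], 1, 2, 1854⟩,
  ⟨[0, 1, 3, 2, 4, 5], [0, 2, 3, 1, 4, 5], 1, 2, 2834⟩,
  ⟨[0, 1, 3, 2, 5, 4], [0, 2, 3, 1, 5, 4], 1, 2, 2834⟩,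
  ⟨[0, 3, 1, 2, 4, 5], [0, 3, 2, 1, 4, 5], 1, 2, 1819⟩,
  ⟨[0, 3, 1, 2, 5, 4], [0, 3, 2, 1, 5, 4], 1, 2, 1889⟩,
  ⟨[1, 0, 2, 3, 4, 5], [2, 0, 1, 3, 4, 5], 1, 2, 1505⟩,
  ⟨[1, 0, 2, 3, 5, 4], [2, 0, 1, 3, 5, 4], 1, 2, 1505⟩,
  ⟨[1, 0, 2, 4, 3, 5], [2, 0, 1, 4, 3, 5], 1, 2, 1854⟩,
  ⟨[1, 0, 2, 4, 5, 3], [2, 0, 1, 4, 5, 3], 1, 2, 1854⟩,
  ⟨[1, 0, 2, 5, 3, 4], [2, 0, 1, 5, 3, 4], 1, 2, 1505⟩,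
  ⟨[1, 0, 2, 5, 4, 3], [2, 0, 1, 5, 4, 3], 1, 2, 1505⟩,
  ⟨[1, 0, 3, 2, 4, 5], [2, 0, 3, 1, 4, 5], 1, 2, 1574⟩,
  ⟨[1, 0, 3, 2, 5, 4], [2, 0, 3, 1, 5, 4], 1, 2, 1505⟩,
  ⟨[1, 2, 0, 3, 4, 5], [2, 1, 0, 3, 4, 5], 1, 2, 1854⟩,
  ⟨[1, 2, 0, 3, 5, 4], [2, 1, 0, 3, 5, 4], 1, 2, 1854⟩,
  ⟨[1, 2, 0, 4, 3, 5], [2, 1, 0, 4, 3, 5], 1, 2, 1505⟩,
  ⟨[1, 2, 0, 4, 5, 3], [2, 1, 0, 4, 5, 3], 1, 2, 1505⟩,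
  ⟨[1, 2, 0, 5, 3, 4], [2, 1, 0, 5, 3, 4], 1, 2, 1854⟩,
  ⟨[1, 2, 0, 5, 4, 3], [2, 1, 0, 5, 4, 3], 1, 2, 1505⟩,
  ⟨[0, 2, 1, 3, 4, 5], [0, 3, 1, 2, 4, 5], 2, 3, 840⟩,
  ⟨[0, 2, 1, 3, 5, 4], [0, 3, 1, 2, 5, 4], 2, 3, 1400⟩,
  ⟨[0, 2, 3, 1, 4, 5], [0, 3, 2, 1, 4, 5], 2, 3, 1400⟩,
  ⟨[0, 2, 3, 1, 5, 4], [0, 3, 2, 1, 5, 4], 2, 3, 1330⟩,
  ⟨[1, 0, 2, 3, 4, 5], [1, 0, 3, 2, 4, 5], 2, 3, 350⟩,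
  ⟨[1, 0, 2, 3, 5, 4], [1, 0, 3, 2, 5, 4], 2, 3, 700⟩,
  ⟨[1, 0, 4, 2, 3, 5], [1, 0, 4, 3, 2, 5], 2, 3, 210⟩,
  ⟨[0, 1, 3, 4, 2, 5], [0, 1, 3, 2, 4, 5], 4, 2, 490⟩,
  ⟨[0, 1, 4, 3, 2, 5], [0, 1, 2, 3, 4, 5], 4, 2, 140⟩,
  ⟨[0, 3, 1, 4, 2, 5], [0, 3, 1, 2, 4, 5], 4, 2, 490⟩,
  ⟨[1, 0, 3, 4, 2, 5], [1, 0, 3, 2, 4, 5], 4, 2, 140⟩,
  ⟨[1, 0, 4, 2, 3, 5], [1, 0, 2, 4, 3, 5], 4, 2, 350⟩,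
  ⟨[1, 0, 4, 2, 5, 3], [1, 0, 2, 4, 5, 3], 4, 2, 350⟩,
  ⟨[0, 1, 4, 2, 3, 5], [0, 1, 3, 2, 4, 5], 4, 3, 1854⟩,
  ⟨[0, 1, 4, 2, 5, 3], [0, 1, 3, 2, 5, 4], 4, 3, 2344⟩,
  ⟨[1, 0, 4, 2, 3, 5], [1, 0, 3, 2, 4, 5], 4, 3, 945⟩,
  ⟨[1, 0, 4, 2, 5, 3], [1, 0, 3, 2, 5, 4], 4, 3, 665⟩,
  ⟨[0, 1, 2, 5, 3, 4], [0, 1, 2, 3, 5, 4], 5, 3, 700⟩,
  ⟨[1, 0, 2, 5, 3, 4], [1, 0, 2, 3, 5, 4], 5, 3, 350⟩]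

theorem okL2_11 : certOK 14 39 6 relL2_11 exL2_11 WL2_11 SL2_11 = true := by decide +kernel

/-! ### Case L2_02, tuple in the natural order: y x v z w t -/

/-- relations -/
def relL2_02 : List (ℕ × ℕ) := [(0, 3), (0, 4), (0, 5), (1, 4), (1, 5)]

/-- exact pairs with their blockers -/
def exL2_02 : List (ℕ × ℕ × List ℕ) := [(0, 1, [3]), (1, 2, [4, 5])]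

/-- weights of pairs -/
def WL2_02 : List (ℕ × ℕ × ℕ) := [(0, 1, 8), (1, 2, 4), (2, 3, 1)]

/-- swaps -/
def SL2_02 : List Swp := [
  ⟨[0, 1, 2, 3, 4, 5], [1, 0, 2, 3, 4, 5], 0, 1, 194⟩,
  ⟨[0, 1, 2, 3, 5, 4], [1, 0, 2, 3, 5, 4], 0, 1, 129⟩,
  ⟨[0, 1, 2, 4, 3, 5], [1, 0, 2, 4, 3, 5], 0, 1, 129⟩,
  ⟨[0, 1, 2, 4, 5, 3], [1, 0, 2, 4, 5, 3], 0, 1, 65⟩,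
  ⟨[0, 1, 2, 5, 3, 4], [1, 0, 2, 5, 3, 4], 0, 1, 97⟩,
  ⟨[0, 1, 2, 5, 4, 3], [1, 0, 2, 5, 4, 3], 0, 1, 324⟩,
  ⟨[0, 1, 3, 2, 4, 5], [1, 0, 3, 2, 4, 5], 0, 1, 162⟩,
  ⟨[0, 1, 3, 2, 5, 4], [1, 0, 3, 2, 5, 4], 0, 1, 162⟩,
  ⟨[0, 1, 3, 4, 2, 5], [1, 0, 3, 4, 2, 5], 0, 1, 162⟩,
  ⟨[0, 1, 3, 4, 5, 2], [1, 0, 3, 4, 5, 2], 0, 1, 162⟩,
  ⟨[0, 1, 3, 5, 2, 4], [1, 0, 3, 5, 2, 4], 0, 1, 162⟩,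
  ⟨[0, 1, 3, 5, 4, 2], [1, 0, 3, 5, 4, 2], 0, 1, 162⟩,
  ⟨[0, 1, 4, 2, 3, 5], [1, 0, 4, 2, 3, 5], 0, 1, 129⟩,
  ⟨[0, 1, 4, 2, 5, 3], [1, 0, 4, 2, 5, 3], 0, 1, 194⟩,
  ⟨[0, 1, 4, 3, 2, 5], [1, 0, 4, 3, 2, 5], 0, 1, 162⟩,
  ⟨[0, 1, 4, 3, 5, 2], [1, 0, 4, 3, 5, 2], 0, 1, 162⟩,
  ⟨[0, 1, 4, 5, 2, 3], [1, 0, 4, 5, 2, 3], 0, 1, 129⟩,
  ⟨[0, 1, 4, 5, 3, 2], [1, 0, 4, 5, 3, 2], 0, 1, 162⟩,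
  ⟨[0, 1, 5, 2, 3, 4], [1, 0, 5, 2, 3, 4], 0, 1, 129⟩,
  ⟨[0, 1, 5, 2, 4, 3], [1, 0, 5, 2, 4, 3], 0, 1, 129⟩,
  ⟨[0, 1, 5, 3, 2, 4], [1, 0, 5, 3, 2, 4], 0, 1, 162⟩,
  ⟨[0, 1, 5, 3, 4, 2], [1, 0, 5, 3, 4, 2], 0, 1, 162⟩,
  ⟨[0, 1, 5, 4, 2, 3], [1, 0, 5, 4, 2, 3], 0, 1, 129⟩,
  ⟨[0, 1, 5, 4, 3, 2], [1, 0, 5, 4, 3, 2], 0, 1, 162⟩,
  ⟨[0, 2, 1, 3, 4, 5], [1, 2, 0, 3, 4, 5], 0, 1, 259⟩,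
  ⟨[0, 2, 1, 3, 5, 4], [1, 2, 0, 3, 5, 4], 0, 1, 324⟩,
  ⟨[0, 2, 1, 4, 3, 5], [1, 2, 0, 4, 3, 5], 0, 1, 367⟩,
  ⟨[0, 2, 1, 4, 5, 3], [1, 2, 0, 4, 5, 3], 0, 1, 367⟩,
  ⟨[0, 2, 1, 5, 3, 4], [1, 2, 0, 5, 3, 4], 0, 1, 367⟩,
  ⟨[0, 2, 1, 5, 4, 3], [1, 2, 0, 5, 4, 3], 0, 1, 205⟩,
  ⟨[2, 0, 1, 3, 4, 5], [2, 1, 0, 3, 4, 5], 0, 1, 151⟩,
  ⟨[2, 0, 1, 3, 5, 4], [2, 1, 0, 3, 5, 4], 0, 1, 86⟩,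
  ⟨[2, 0, 1, 4, 3, 5], [2, 1, 0, 4, 3, 5], 0, 1, 43⟩,
  ⟨[2, 0, 1, 4, 5, 3], [2, 1, 0, 4, 5, 3], 0, 1, 43⟩,
  ⟨[2, 0, 1, 5, 3, 4], [2, 1, 0, 5, 3, 4], 0, 1, 43⟩,
  ⟨[2, 0, 1, 5, 4, 3], [2, 1, 0, 5, 4, 3], 0, 1, 205⟩,
  ⟨[0, 1, 2, 3, 5, 4], [0, 2, 1, 3, 5, 4], 1, 2, 65⟩,
  ⟨[0, 1, 2, 4, 3, 5], [0, 2, 1, 4, 3, 5], 1, 2, 162⟩,
  ⟨[0, 1, 2, 4, 5, 3], [0, 2, 1, 4, 5, 3], 1, 2, 162⟩,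
  ⟨[0, 1, 2, 5, 3, 4], [0, 2, 1, 5, 3, 4], 1, 2, 162⟩,
  ⟨[0, 3, 2, 1, 5, 4], [0, 3, 1, 2, 5, 4], 2, 1, 11⟩,
  ⟨[1, 0, 2, 3, 4, 5], [2, 0, 1, 3, 4, 5], 1, 2, 65⟩,
  ⟨[1, 0, 2, 5, 4, 3], [2, 0, 1, 5, 4, 3], 1, 2, 162⟩,
  ⟨[1, 2, 0, 3, 4, 5], [2, 1, 0, 3, 4, 5], 1, 2, 129⟩,
  ⟨[1, 2, 0, 3, 5, 4], [2, 1, 0, 3, 5, 4], 1, 2, 194⟩,
  ⟨[1, 2, 0, 4, 3, 5], [2, 1, 0, 4, 3, 5], 1, 2, 237⟩,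
  ⟨[1, 2, 0, 4, 5, 3], [2, 1, 0, 4, 5, 3], 1, 2, 237⟩,
  ⟨[1, 2, 0, 5, 3, 4], [2, 1, 0, 5, 3, 4], 1, 2, 237⟩,
  ⟨[1, 2, 0, 5, 4, 3], [2, 1, 0, 5, 4, 3], 1, 2, 76⟩,
  ⟨[0, 2, 3, 1, 4, 5], [0, 2, 1, 3, 4, 5], 3, 1, 54⟩,
  ⟨[0, 2, 3, 1, 5, 4], [0, 2, 1, 3, 5, 4], 3, 1, 43⟩,
  ⟨[2, 0, 3, 1, 4, 5], [2, 0, 1, 3, 4, 5], 3, 1, 43⟩,
  ⟨[2, 0, 3, 1, 5, 4], [2, 0, 1, 3, 5, 4], 3, 1, 43⟩,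
  ⟨[0, 1, 3, 4, 2, 5], [0, 1, 2, 4, 3, 5], 3, 2, 32⟩,
  ⟨[0, 3, 1, 2, 4, 5], [0, 2, 1, 3, 4, 5], 3, 2, 162⟩,
  ⟨[0, 3, 1, 2, 5, 4], [0, 2, 1, 3, 5, 4], 3, 2, 173⟩,
  ⟨[0, 3, 1, 4, 2, 5], [0, 2, 1, 4, 3, 5], 3, 2, 162⟩,
  ⟨[0, 3, 1, 4, 5, 2], [0, 2, 1, 4, 5, 3], 3, 2, 162⟩,
  ⟨[0, 3, 1, 5, 2, 4], [0, 2, 1, 5, 3, 4], 3, 2, 162⟩,
  ⟨[0, 3, 1, 5, 4, 2], [0, 2, 1, 5, 4, 3], 3, 2, 162⟩,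
  ⟨[0, 3, 2, 1, 4, 5], [0, 2, 3, 1, 4, 5], 3, 2, 11⟩,
  ⟨[0, 1, 4, 2, 3, 5], [0, 1, 2, 4, 3, 5], 4, 2, 65⟩,
  ⟨[0, 1, 4, 5, 2, 3], [0, 1, 2, 5, 4, 3], 4, 2, 65⟩,
  ⟨[1, 0, 4, 2, 5, 3], [1, 0, 2, 4, 5, 3], 4, 2, 65⟩,
  ⟨[0, 1, 5, 2, 3, 4], [0, 1, 2, 5, 3, 4], 5, 2, 65⟩,
  ⟨[0, 1, 5, 2, 4, 3], [0, 1, 2, 5, 4, 3], 5, 2, 65⟩,
  ⟨[0, 1, 5, 4, 2, 3], [0, 1, 2, 4, 5, 3], 5, 2, 32⟩,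
  ⟨[1, 0, 2, 5, 4, 3], [1, 0, 2, 5, 3, 4], 4, 3, 32⟩,
  ⟨[0, 1, 5, 4, 2, 3], [0, 1, 3, 4, 2, 5], 5, 3, 32⟩]

theorem okL2_02 : certOK 14 39 6 relL2_02 exL2_02 WL2_02 SL2_02 = true := by decide +kernel

/-! ### Case L4_1, tuple in the natural order: g u y x z -/

/-- relations -/
def relL4_1 : List (ℕ × ℕ) := [(0, 2), (0, 3), (0, 4), (1, 4), (2, 4)]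

/-- exact pairs with their blockers -/
def exL4_1 : List (ℕ × ℕ × List ℕ) := [(1, 2, [0]), (2, 3, [4])]

/-- weights of pairs -/
def WL4_1 : List (ℕ × ℕ × ℕ) := [(1, 2, 7), (2, 3, 4)]

/-- swaps -/
def SL4_1 : List Swp := [
  ⟨[1, 0, 2, 3, 4], [0, 1, 2, 3, 4], 1, 0, 156⟩,
  ⟨[1, 0, 2, 4, 3], [0, 1, 2, 4, 3], 1, 0, 156⟩,
  ⟨[0, 1, 2, 3, 4], [0, 2, 1, 3, 4], 1, 2, 117⟩,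
  ⟨[0, 1, 2, 4, 3], [0, 2, 1, 4, 3], 1, 2, 117⟩,
  ⟨[0, 1, 3, 2, 4], [0, 2, 3, 1, 4], 1, 2, 390⟩,
  ⟨[0, 1, 2, 3, 4], [0, 1, 3, 2, 4], 2, 3, 390⟩,
  ⟨[0, 2, 3, 1, 4], [0, 3, 2, 1, 4], 2, 3, 273⟩,
  ⟨[0, 1, 2, 4, 3], [0, 1, 2, 3, 4], 4, 3, 195⟩]

theorem okL4_1 : certOK 14 39 5 relL4_1 exL4_1 WL4_1 SL4_1 = true := by decide +kernel

/-! ### Case L4_2, tuple in the natural order: g h u y x z -/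

/-- relations -/
def relL4_2 : List (ℕ × ℕ) := [(0, 3), (0, 4), (0, 5), (1, 3), (1, 4), (1, 5), (2, 5), (3, 5)]

/-- exact pairs with their blockers -/
def exL4_2 : List (ℕ × ℕ × List ℕ) := [(2, 3, [0, 1]), (3, 4, [5])]

/-- weights of pairs -/
def WL4_2 : List (ℕ × ℕ × ℕ) := [(0, 1, 1), (3, 4, 77)]

/-- swaps -/
def SL4_2 : List Swp := [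
  ⟨[1, 2, 0, 3, 5, 4], [1, 0, 2, 3, 5, 4], 2, 0, 312⟩,
  ⟨[0, 2, 1, 3, 5, 4], [0, 1, 2, 3, 5, 4], 2, 1, 273⟩,
  ⟨[2, 0, 1, 3, 5, 4], [1, 0, 2, 3, 5, 4], 2, 1, 273⟩,
  ⟨[2, 1, 0, 4, 3, 5], [1, 2, 0, 4, 3, 5], 2, 1, 156⟩,
  ⟨[0, 1, 2, 4, 3, 5], [0, 1, 3, 4, 2, 5], 2, 3, 2730⟩,
  ⟨[0, 1, 3, 2, 4, 5], [0, 1, 2, 3, 4, 5], 3, 2, 1092⟩,
  ⟨[0, 1, 3, 2, 5, 4], [0, 1, 2, 3, 5, 4], 3, 2, 1092⟩,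
  ⟨[0, 1, 4, 3, 2, 5], [0, 1, 4, 2, 3, 5], 3, 2, 1911⟩,
  ⟨[1, 0, 2, 3, 4, 5], [1, 0, 3, 2, 4, 5], 2, 3, 3744⟩,
  ⟨[1, 0, 2, 4, 3, 5], [1, 0, 3, 4, 2, 5], 2, 3, 897⟩,
  ⟨[1, 0, 3, 2, 5, 4], [1, 0, 2, 3, 5, 4], 3, 2, 1053⟩,
  ⟨[1, 0, 4, 2, 3, 5], [1, 0, 2, 4, 3, 5], 4, 2, 2847⟩,
  ⟨[0, 1, 2, 3, 4, 5], [0, 1, 2, 4, 3, 5], 3, 4, 4641⟩,
  ⟨[0, 1, 3, 4, 2, 5], [0, 1, 4, 3, 2, 5], 3, 4, 3822⟩,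
  ⟨[0, 2, 1, 3, 4, 5], [0, 2, 1, 4, 3, 5], 3, 4, 1911⟩,
  ⟨[1, 0, 3, 2, 4, 5], [1, 0, 4, 2, 3, 5], 3, 4, 4797⟩,
  ⟨[1, 0, 3, 4, 2, 5], [1, 0, 4, 3, 2, 5], 3, 4, 1950⟩,
  ⟨[1, 2, 0, 3, 4, 5], [1, 2, 0, 4, 3, 5], 3, 4, 1794⟩,
  ⟨[2, 0, 1, 3, 4, 5], [2, 0, 1, 4, 3, 5], 3, 4, 1911⟩,
  ⟨[2, 1, 0, 3, 4, 5], [2, 1, 0, 4, 3, 5], 3, 4, 2106⟩,
  ⟨[0, 1, 2, 3, 5, 4], [0, 1, 2, 3, 4, 5], 5, 4, 2457⟩,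
  ⟨[0, 2, 1, 3, 5, 4], [0, 2, 1, 3, 4, 5], 5, 4, 819⟩,
  ⟨[1, 0, 2, 3, 5, 4], [1, 0, 2, 3, 4, 5], 5, 4, 2691⟩,
  ⟨[1, 2, 0, 3, 5, 4], [1, 2, 0, 3, 4, 5], 5, 4, 741⟩,
  ⟨[2, 0, 1, 3, 5, 4], [2, 0, 1, 3, 4, 5], 5, 4, 819⟩,
  ⟨[2, 1, 0, 3, 5, 4], [2, 1, 0, 3, 4, 5], 5, 4, 1053⟩]

theorem okL4_2 : certOK 14 39 6 relL4_2 exL4_2 WL4_2 SL4_2 = true := by decide +kernel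

/-! ### Case L5_0, tuple in the natural order: y x z w -/

/-- relations -/
def relL5_0 : List (ℕ × ℕ) := [(0, 2), (0, 3), (1, 3)]

/-- exact pairs with their blockers -/
def exL5_0 : List (ℕ × ℕ × List ℕ) := [(0, 1, [2]), (2, 3, [1])]

/-- weights of pairs -/
def WL5_0 : List (ℕ × ℕ × ℕ) := [(0, 1, 3), (2, 3, 2)]

/-- swaps -/
def SL5_0 : List Swp := [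
  ⟨[0, 1, 2, 3], [1, 0, 2, 3], 0, 1, 156⟩,
  ⟨[0, 2, 1, 3], [0, 1, 2, 3], 2, 1, 78⟩,
  ⟨[1, 0, 2, 3], [1, 0, 3, 2], 2, 3, 117⟩]

theorem okL5_0 : certOK 14 39 4 relL5_0 exL5_0 WL5_0 SL5_0 = true := by decide +kernel

/-! ### Case L5_1, tuple in the natural order: y x z w f -/

/-- relations -/
def relL5_1 : List (ℕ × ℕ) := [(0, 2), (0, 3), (0, 4), (1, 3), (1, 4), (2, 4)]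

/-- exact pairs with their blockers -/
def exL5_1 : List (ℕ × ℕ × List ℕ) := [(0, 1, [2]), (2, 3, [1, 4])]

/-- weights of pairs -/
def WL5_1 : List (ℕ × ℕ × ℕ) := [(0, 1, 12), (3, 4, 1)]

/-- swaps -/
def SL5_1 : List Swp := [
  ⟨[0, 1, 2, 3, 4], [1, 0, 2, 3, 4], 0, 1, 285⟩,
  ⟨[0, 1, 2, 4, 3], [1, 0, 2, 4, 3], 0, 1, 317⟩,
  ⟨[0, 1, 3, 2, 4], [1, 0, 3, 2, 4], 0, 1, 285⟩,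
  ⟨[0, 2, 1, 3, 4], [0, 1, 2, 3, 4], 2, 1, 190⟩,
  ⟨[0, 2, 1, 4, 3], [0, 1, 2, 4, 3], 2, 1, 158⟩,
  ⟨[0, 1, 2, 3, 4], [0, 1, 3, 2, 4], 2, 3, 95⟩]

theorem okL5_1 : certOK 14 39 5 relL5_1 exL5_1 WL5_1 SL5_1 = true := by decide +kernel

/-! ### Case L5_2, tuple in the natural order: y x z w f g -/

/-- relations -/
def relL5_2 : List (ℕ × ℕ) := [(0, 2), (0, 3), (0, 4), (0, 5), (1, 3), (1, 4), (1, 5), (2, 4), (2, 5)]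

/-- exact pairs with their blockers -/
def exL5_2 : List (ℕ × ℕ × List ℕ) := [(0, 1, [2]), (2, 3, [1, 4, 5])]

/-- weights of pairs -/
def WL5_2 : List (ℕ × ℕ × ℕ) := [(0, 1, 30), (3, 4, 2), (4, 5, 1)]

/-- swaps -/
def SL5_2 : List Swp := [
  ⟨[0, 1, 2, 3, 4, 5], [1, 0, 2, 3, 4, 5], 0, 1, 707⟩,
  ⟨[0, 1, 2, 3, 5, 4], [1, 0, 2, 3, 5, 4], 0, 1, 1032⟩,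
  ⟨[0, 1, 2, 4, 3, 5], [1, 0, 2, 4, 3, 5], 0, 1, 786⟩,
  ⟨[0, 1, 2, 4, 5, 3], [1, 0, 2, 4, 5, 3], 0, 1, 786⟩,
  ⟨[0, 1, 2, 5, 3, 4], [1, 0, 2, 5, 3, 4], 0, 1, 737⟩,
  ⟨[0, 1, 2, 5, 4, 3], [1, 0, 2, 5, 4, 3], 0, 1, 727⟩,
  ⟨[0, 1, 3, 2, 4, 5], [1, 0, 3, 2, 4, 5], 0, 1, 707⟩,
  ⟨[0, 1, 3, 2, 5, 4], [1, 0, 3, 2, 5, 4], 0, 1, 442⟩,
  ⟨[0, 2, 1, 3, 4, 5], [0, 1, 2, 3, 4, 5], 2, 1, 472⟩,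
  ⟨[0, 2, 1, 3, 5, 4], [0, 1, 2, 3, 5, 4], 2, 1, 589⟩,
  ⟨[0, 2, 1, 4, 3, 5], [0, 1, 2, 4, 3, 5], 2, 1, 393⟩,
  ⟨[0, 2, 1, 4, 5, 3], [0, 1, 2, 4, 5, 3], 2, 1, 393⟩,
  ⟨[0, 2, 1, 5, 3, 4], [0, 1, 2, 5, 3, 4], 2, 1, 295⟩,
  ⟨[0, 2, 1, 5, 4, 3], [0, 1, 2, 5, 4, 3], 2, 1, 364⟩,
  ⟨[0, 1, 2, 3, 4, 5], [0, 1, 3, 2, 4, 5], 2, 3, 236⟩,
  ⟨[1, 0, 2, 3, 5, 4], [1, 0, 3, 2, 5, 4], 2, 3, 295⟩,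
  ⟨[0, 2, 1, 5, 3, 4], [0, 2, 1, 3, 5, 4], 5, 3, 147⟩]

theorem okL5_2 : certOK 14 39 6 relL5_2 exL5_2 WL5_2 SL5_2 = true := by decide +kernel

end Pool.Agent.Semi
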