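import Pool.Agent.Lib_MP_33fb9b_semi.EnumCert
import Pool.Agent.Lib_MP_33fb9b_semi.DataA
import Pool.Agent.Lib_MP_33fb9b_semi.DataB
import Pool.Agent.Lib_MP_33fb9b_semi.DataC
import Pool.Agent.Lib_MP_33fb9b_semi.DataD

set_option autoImplicit false

/-!
# The linear programming facts

In each of the cases the pair `x i, x (i + 1)` has the same elements below, and `x i` has exactly
one element more above it.
-/

namespace Pool.Agent.Semi

open Pool.Agent.Gap

variable {P : Type} [Fintype P] [PartialOrder P] {n : ℕ}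

/-- tuples from lists of indices -/
def ofL (l : List ℕ) (i : ℕ) : ℕ := l.getD i 0

theorem case_L3 (E : Enum P n) (i : ℕ) (h1 : i + 1 < n) (hd : E.dn (i + 1) = E.dn i)
    (hu : E.up (i + 1) = E.up i + 1)
    (hj : E.up i = i + 3)
    (h2 : E.dn (i + 3) = E.dn (i + 2) + 1)
    (h3 : E.up (i + 3) = E.up (i + 2))
    : (14 : ℝ) / 39 ≤ balance P := by
  have a1 := E.up_le (i + 1) h1
  have a0 := E.dn_le (i + 1) h1
  have b0 := E.dn_iff i (i + 3) (by omega) (by omega)
  have b1 := E.dn_iff i (i + 2) (by omega) (by omega)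
  apply E.cert 4 relL3 exL3 WL3 SL3 okL3 (ofL [i, i + 1, i + 2, i + 3])
  · intro k hk
    have hk1 : k < 3 := by omega
    interval_cases k <;> simp [ofL] <;> omega
  · intro k hk
    interval_cases k <;> simp [ofL] <;> omega
  · intro r hr
    simp only [relL3, List.mem_cons, List.not_mem_nil, or_false] at hr
    rcases hr with rfl <;> simp [ofL] <;> omega
  · intro t ht
    simp only [exL3, List.mem_cons, List.not_mem_nil, or_false] at ht
    rcases ht with rfl | rfl <;> simp [ofL] <;> refine ⟨?_, ?_⟩ <;> intro p hp hp2 <;> omega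

theorem case_L1a (E : Enum P n) (i : ℕ) (h1 : i + 1 < n) (hd : E.dn (i + 1) = E.dn i)
    (hu : E.up (i + 1) = E.up i + 1)
    (hj : i + 4 ≤ E.up i)
    (h2 : E.dn (i + 1) < E.dn (i + 2))
    : (14 : ℝ) / 39 ≤ balance P := by
  have a1 := E.up_le (i + 1) h1
  have a0 := E.dn_le (i + 1) h1
  have b0 := E.dn_iff i (i + 2) (by omega) (by omega)
  have b1 := E.dn_iff (E.dn (i + 2) - 1) (i + 2) (by omega) (by omega)
  apply E.cert 6 relL1a exL1a WL1a SL1a okL1a (ofL [E.dn (i + 2) - 1, i, i + 1, i + 2, i + 3, E.up i])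
  · intro k hk
    have hk1 : k < 5 := by omega
    interval_cases k <;> simp [ofL] <;> omega
  · intro k hk
    interval_cases k <;> simp [ofL] <;> omega
  · intro r hr
    simp only [relL1a, List.mem_cons, List.not_mem_nil, or_false] at hr
    rcases hr with rfl | rfl | rfl | rfl <;> simp [ofL] <;> omega
  · intro t ht
    simp only [exL1a, List.mem_cons, List.not_mem_nil, or_false] at ht
    rcases ht with rfl <;> simp [ofL] <;> refine ⟨?_, ?_⟩ <;> intro p hp hp2 <;> omega

theorem case_L1b (E : Enum P n) (i : ℕ) (h1 : i + 1 < n) (hd : E.dn (i + 1) = E.dn i)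
    (hu : E.up (i + 1) = E.up i + 1)
    (hj : i + 4 ≤ E.up i)
    (h2 : E.up (i + 1) < E.up (i + 2))
    : (14 : ℝ) / 39 ≤ balance P := by
  have a1 := E.up_le (i + 1) h1
  have a0 := E.dn_le (i + 1) h1
  have b0 := E.up_le (i + 2) (by omega)
  apply E.cert 6 relL1b exL1b WL1b SL1b okL1b (ofL [i, i + 1, i + 2, i + 3, E.up i, E.up i + 1])
  · intro k hk
    have hk1 : k < 5 := by omega
    interval_cases k <;> simp [ofL] <;> omega
  · intro k hk
    interval_cases k <;> simp [ofL] <;> omega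
  · intro r hr
    simp only [relL1b, List.mem_cons, List.not_mem_nil, or_false] at hr
    rcases hr with rfl | rfl | rfl <;> simp [ofL] <;> omega
  · intro t ht
    simp only [exL1b, List.mem_cons, List.not_mem_nil, or_false] at ht
    rcases ht with rfl <;> simp [ofL] <;> refine ⟨?_, ?_⟩ <;> intro p hp hp2 <;> omega

theorem case_L3_20 (E : Enum P n) (i : ℕ) (h1 : i + 1 < n) (hd : E.dn (i + 1) = E.dn i)
    (hu : E.up (i + 1) = E.up i + 1)
    (hj : E.up i = i + 3)
    (h2 : E.dn (i + 3) = E.dn (i + 2) + 2)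
    (h3 : E.up (i + 3) = E.up (i + 2))
    : (14 : ℝ) / 39 ≤ balance P := by
  have a1 := E.up_le (i + 1) h1
  have a0 := E.dn_le (i + 1) h1
  have b0 := E.dn_iff i (i + 3) (by omega) (by omega)
  have b1 := E.dn_iff i (i + 2) (by omega) (by omega)
  have b2 := E.dn_iff (i + 1) (i + 3) (by omega) (by omega)
  have b3 := E.dn_iff (i - 1) (i + 3) (by omega) (by omega)
  apply E.cert 5 relL3_20 exL3_20 WL3_20 SL3_20 okL3_20 (ofL [i - 1, i, i + 1, i + 2, i + 3])
  · intro k hk
    have hk1 : k < 4 := by omega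
    interval_cases k <;> simp [ofL] <;> omega
  · intro k hk
    interval_cases k <;> simp [ofL] <;> omega
  · intro r hr
    simp only [relL3_20, List.mem_cons, List.not_mem_nil, or_false] at hr
    rcases hr with rfl | rfl <;> simp [ofL] <;> omega
  · intro t ht
    simp only [exL3_20, List.mem_cons, List.not_mem_nil, or_false] at ht
    rcases ht with rfl | rfl <;> simp [ofL] <;> refine ⟨?_, ?_⟩ <;> intro p hp hp2 <;> omega

theorem case_L2_10 (E : Enum P n) (i : ℕ) (h1 : i + 1 < n) (hd : E.dn (i + 1) = E.dn i)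
    (hu : E.up (i + 1) = E.up i + 1)
    (hj : E.up i = i + 3)
    (h2 : E.dn (i + 2) = E.dn (i + 1) + 1)
    (h3 : E.up (i + 2) = E.up (i + 1))
    : (14 : ℝ) / 39 ≤ balance P := by
  have a1 := E.up_le (i + 1) h1
  have a0 := E.dn_le (i + 1) h1
  have b0 := E.dn_iff i (i + 2) (by omega) (by omega)
  have b1 := E.dn_iff (E.dn (i + 1)) (i + 2) (by omega) (by omega)
  apply E.cert 5 relL2_10 exL2_10 WL2_10 SL2_10 okL2_10 (ofL [E.dn (i + 1), i, i + 1, i + 2, i + 3])
  · intro k hk
    have hk1 : k < 4 := by omega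
    interval_cases k <;> simp [ofL] <;> omega
  · intro k hk
    interval_cases k <;> simp [ofL] <;> omega
  · intro r hr
    simp only [relL2_10, List.mem_cons, List.not_mem_nil, or_false] at hr
    rcases hr with rfl | rfl | rfl <;> simp [ofL] <;> omega
  · intro t ht
    simp only [exL2_10, List.mem_cons, List.not_mem_nil, or_false] at ht
    rcases ht with rfl | rfl <;> simp [ofL] <;> refine ⟨?_, ?_⟩ <;> intro p hp hp2 <;> omega

theorem case_L2_01 (E : Enum P n) (i : ℕ) (h1 : i + 1 < n) (hd : E.dn (i + 1) = E.dn i)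
    (hu : E.up (i + 1) = E.up i + 1)
    (hj : E.up i = i + 3)
    (h2 : E.dn (i + 2) = E.dn (i + 1))
    (h3 : E.up (i + 2) = E.up (i + 1) + 1)
    : (14 : ℝ) / 39 ≤ balance P := by
  have a1 := E.up_le (i + 1) h1
  have a0 := E.dn_le (i + 1) h1
  have b0 := E.up_le (i + 2) (by omega)
  apply E.cert 5 relL2_01 exL2_01 WL2_01 SL2_01 okL2_01 (ofL [i, i + 1, i + 2, i + 3, i + 4])
  · intro k hk
    have hk1 : k < 4 := by omega
    interval_cases k <;> simp [ofL] <;> omega
  · intro k hk
    interval_cases k <;> simp [ofL] <;> omega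
  · intro r hr
    simp only [relL2_01, List.mem_cons, List.not_mem_nil, or_false] at hr
    rcases hr with rfl | rfl | rfl <;> simp [ofL] <;> omega
  · intro t ht
    simp only [exL2_01, List.mem_cons, List.not_mem_nil, or_false] at ht
    rcases ht with rfl | rfl <;> simp [ofL] <;> refine ⟨?_, ?_⟩ <;> intro p hp hp2 <;> omega

theorem case_L2_11 (E : Enum P n) (i : ℕ) (h1 : i + 1 < n) (hd : E.dn (i + 1) = E.dn i)
    (hu : E.up (i + 1) = E.up i + 1)
    (hj : E.up i = i + 3)
    (h2 : E.dn (i + 2) = E.dn (i + 1) + 1)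
    (h3 : E.up (i + 2) = E.up (i + 1) + 1)
    : (14 : ℝ) / 39 ≤ balance P := by
  have a1 := E.up_le (i + 1) h1
  have a0 := E.dn_le (i + 1) h1
  have b0 := E.up_le (i + 2) (by omega)
  have b1 := E.dn_iff i (i + 2) (by omega) (by omega)
  have b2 := E.dn_iff (E.dn (i + 1)) (i + 2) (by omega) (by omega)
  apply E.cert 6 relL2_11 exL2_11 WL2_11 SL2_11 okL2_11 (ofL [E.dn (i + 1), i, i + 1, i + 2, i + 3, i + 4])
  · intro k hk
    have hk1 : k < 5 := by omega
    interval_cases k <;> simp [ofL] <;> omega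
  · intro k hk
    interval_cases k <;> simp [ofL] <;> omega
  · intro r hr
    simp only [relL2_11, List.mem_cons, List.not_mem_nil, or_false] at hr
    rcases hr with rfl | rfl | rfl | rfl | rfl | rfl <;> simp [ofL] <;> omega
  · intro t ht
    simp only [exL2_11, List.mem_cons, List.not_mem_nil, or_false] at ht
    rcases ht with rfl | rfl <;> simp [ofL] <;> refine ⟨?_, ?_⟩ <;> intro p hp hp2 <;> omega

theorem case_L2_02 (E : Enum P n) (i : ℕ) (h1 : i + 1 < n) (hd : E.dn (i + 1) = E.dn i)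
    (hu : E.up (i + 1) = E.up i + 1)
    (hj : E.up i = i + 3)
    (h2 : E.dn (i + 2) = E.dn (i + 1))
    (h3 : E.up (i + 2) = E.up (i + 1) + 2)
    : (14 : ℝ) / 39 ≤ balance P := by
  have a1 := E.up_le (i + 1) h1
  have a0 := E.dn_le (i + 1) h1
  have b0 := E.up_le (i + 2) (by omega)
  apply E.cert 6 relL2_02 exL2_02 WL2_02 SL2_02 okL2_02 (ofL [i, i + 1, i + 2, i + 3, i + 4, i + 5])
  · intro k hk
    have hk1 : k < 5 := by omega
    interval_cases k <;> simp [ofL] <;> omega
  · intro k hk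
    interval_cases k <;> simp [ofL] <;> omega
  · intro r hr
    simp only [relL2_02, List.mem_cons, List.not_mem_nil, or_false] at hr
    rcases hr with rfl | rfl | rfl | rfl | rfl <;> simp [ofL] <;> omega
  · intro t ht
    simp only [exL2_02, List.mem_cons, List.not_mem_nil, or_false] at ht
    rcases ht with rfl | rfl <;> simp [ofL] <;> refine ⟨?_, ?_⟩ <;> intro p hp hp2 <;> omega

theorem case_L2_20_11 (E : Enum P n) (i : ℕ) (h1 : i + 1 < n) (hd : E.dn (i + 1) = E.dn i)
    (hu : E.up (i + 1) = E.up i + 1)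
    (hj : E.up i = i + 3)
    (h2 : E.dn (i + 2) = E.dn (i + 1) + 2)
    (h3 : E.up (i + 2) = E.up (i + 1))
    (h4 : E.dn (i + 3) = E.dn (i + 2) + 1)
    (h5 : E.up (i + 3) = E.up (i + 2) + 1)
    : (14 : ℝ) / 39 ≤ balance P := by
  have a1 := E.up_le (i + 1) h1
  have a0 := E.dn_le (i + 1) h1
  have b0 := E.up_le (i + 3) (by omega)
  have b1 := E.dn_iff i (i + 2) (by omega) (by omega)
  have b2 := E.dn_iff i (i + 3) (by omega) (by omega)
  have b3 := E.dn_iff (E.dn (i + 1)) (i + 2) (by omega) (by omega)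
  have b4 := E.dn_iff (E.dn (i + 1) + 1) (i + 2) (by omega) (by omega)
  apply E.cert 7 relL2_20_11 exL2_20_11 WL2_20_11 SL2_20_11 okL2_20_11 (ofL [E.dn (i + 1), E.dn (i + 1) + 1, i, i + 1, i + 2, i + 3, i + 4])
  · intro k hk
    have hk1 : k < 6 := by omega
    interval_cases k <;> simp [ofL] <;> omega
  · intro k hk
    interval_cases k <;> simp [ofL] <;> omega
  · intro r hr
    simp only [relL2_20_11, List.mem_cons, List.not_mem_nil, or_false] at hr
    rcases hr with rfl | rfl | rfl | rfl | rfl | rfl | rfl | rfl | rfl | rfl <;> simp [ofL] <;> omega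
  · intro t ht
    simp only [exL2_20_11, List.mem_cons, List.not_mem_nil, or_false] at ht
    rcases ht with rfl | rfl | rfl <;> simp [ofL] <;> refine ⟨?_, ?_⟩ <;> intro p hp hp2 <;> omega

theorem case_L4_1 (E : Enum P n) (i : ℕ) (h1 : i + 1 < n) (hd : E.dn (i + 1) = E.dn i)
    (hu : E.up (i + 1) = E.up i + 1)
    (hi : 1 ≤ i)
    (hj : E.up i = i + 2)
    (h2 : E.up (i - 1) = E.up i)
    (h3 : E.dn i = E.dn (i - 1) + 1)
    : (14 : ℝ) / 39 ≤ balance P := by
  have a1 := E.up_le (i + 1) h1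
  have a0 := E.dn_le (i + 1) h1
  have b0 := E.dn_iff (i - 1) i (by omega) (by omega)
  have b1 := E.dn_iff (E.dn (i - 1)) i (by omega) (by omega)
  apply E.cert 5 relL4_1 exL4_1 WL4_1 SL4_1 okL4_1 (ofL [E.dn (i - 1), i - 1, i, i + 1, i + 2])
  · intro k hk
    have hk1 : k < 4 := by omega
    interval_cases k <;> simp [ofL] <;> omega
  · intro k hk
    interval_cases k <;> simp [ofL] <;> omega
  · intro r hr
    simp only [relL4_1, List.mem_cons, List.not_mem_nil, or_false] at hr
    rcases hr with rfl | rfl | rfl | rfl | rfl <;> simp [ofL] <;> omega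
  · intro t ht
    simp only [exL4_1, List.mem_cons, List.not_mem_nil, or_false] at ht
    rcases ht with rfl | rfl <;> simp [ofL] <;> refine ⟨?_, ?_⟩ <;> intro p hp hp2 <;> omega

theorem case_L4_2 (E : Enum P n) (i : ℕ) (h1 : i + 1 < n) (hd : E.dn (i + 1) = E.dn i)
    (hu : E.up (i + 1) = E.up i + 1)
    (hi : 1 ≤ i)
    (hj : E.up i = i + 2)
    (h2 : E.up (i - 1) = E.up i)
    (h3 : E.dn i = E.dn (i - 1) + 2)
    : (14 : ℝ) / 39 ≤ balance P := by
  have a1 := E.up_le (i + 1) h1
  have a0 := E.dn_le (i + 1) h1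
  have b0 := E.dn_iff (i - 1) i (by omega) (by omega)
  have b1 := E.dn_iff (E.dn (i - 1)) i (by omega) (by omega)
  have b2 := E.dn_iff (E.dn (i - 1) + 1) i (by omega) (by omega)
  apply E.cert 6 relL4_2 exL4_2 WL4_2 SL4_2 okL4_2 (ofL [E.dn (i - 1), E.dn (i - 1) + 1, i - 1, i, i + 1, i + 2])
  · intro k hk
    have hk1 : k < 5 := by omega
    interval_cases k <;> simp [ofL] <;> omega
  · intro k hk
    interval_cases k <;> simp [ofL] <;> omega
  · intro r hr
    simp only [relL4_2, List.mem_cons, List.not_mem_nil, or_false] at hr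
    rcases hr with rfl | rfl | rfl | rfl | rfl | rfl | rfl | rfl <;> simp [ofL] <;> omega
  · intro t ht
    simp only [exL4_2, List.mem_cons, List.not_mem_nil, or_false] at ht
    rcases ht with rfl | rfl <;> simp [ofL] <;> refine ⟨?_, ?_⟩ <;> intro p hp hp2 <;> omega

theorem case_L5_0 (E : Enum P n) (i : ℕ) (h1 : i + 1 < n) (hd : E.dn (i + 1) = E.dn i)
    (hu : E.up (i + 1) = E.up i + 1)
    (hi : i = 0)
    (hj : E.up i = 2)
    (hn : 4 ≤ n)
    (h2 : E.dn 3 = E.dn 2 + 1)
    (h3 : E.up 3 = E.up 2)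
    : (14 : ℝ) / 39 ≤ balance P := by
  subst hi
  simp only [Nat.zero_add] at *
  have a1 := E.up_le (1) h1
  have a0 := E.dn_le (1) h1
  have b0 := E.dn_iff 1 3 (by omega) (by omega)
  have b1 := E.dn_iff 1 2 (by omega) (by omega)
  apply E.cert 4 relL5_0 exL5_0 WL5_0 SL5_0 okL5_0 (ofL [0, 1, 2, 3])
  · intro k hk
    have hk1 : k < 3 := by omega
    interval_cases k <;> simp [ofL] <;> omega
  · intro k hk
    interval_cases k <;> simp [ofL] <;> omega
  · intro r hr
    simp only [relL5_0, List.mem_cons, List.not_mem_nil, or_false] at hr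
    rcases hr with rfl | rfl | rfl <;> simp [ofL] <;> omega
  · intro t ht
    simp only [exL5_0, List.mem_cons, List.not_mem_nil, or_false] at ht
    rcases ht with rfl | rfl <;> simp [ofL] <;> refine ⟨?_, ?_⟩ <;> intro p hp hp2 <;> omega

theorem case_L5_1 (E : Enum P n) (i : ℕ) (h1 : i + 1 < n) (hd : E.dn (i + 1) = E.dn i)
    (hu : E.up (i + 1) = E.up i + 1)
    (hi : i = 0)
    (hj : E.up i = 2)
    (hn : 4 ≤ n)
    (h2 : E.dn 3 = E.dn 2 + 1)
    (h3 : E.up 3 = E.up 2 + 1)
    (hc : 3 < E.up 2)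
    : (14 : ℝ) / 39 ≤ balance P := by
  subst hi
  simp only [Nat.zero_add] at *
  have a1 := E.up_le (1) h1
  have a0 := E.dn_le (1) h1
  have b0 := E.dn_iff 1 3 (by omega) (by omega)
  have b1 := E.dn_iff 1 2 (by omega) (by omega)
  have b2 := E.up_le 3 (by omega)
  apply E.cert 5 relL5_1 exL5_1 WL5_1 SL5_1 okL5_1 (ofL [0, 1, 2, 3, E.up 2])
  · intro k hk
    have hk1 : k < 4 := by omega
    interval_cases k <;> simp [ofL] <;> omega
  · intro k hk
    interval_cases k <;> simp [ofL] <;> omega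
  · intro r hr
    simp only [relL5_1, List.mem_cons, List.not_mem_nil, or_false] at hr
    rcases hr with rfl | rfl | rfl | rfl | rfl | rfl <;> simp [ofL] <;> omega
  · intro t ht
    simp only [exL5_1, List.mem_cons, List.not_mem_nil, or_false] at ht
    rcases ht with rfl | rfl <;> simp [ofL] <;> refine ⟨?_, ?_⟩ <;> intro p hp hp2 <;> omega

theorem case_L5_2 (E : Enum P n) (i : ℕ) (h1 : i + 1 < n) (hd : E.dn (i + 1) = E.dn i)
    (hu : E.up (i + 1) = E.up i + 1)
    (hi : i = 0)
    (hj : E.up i = 2)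
    (hn : 4 ≤ n)
    (h2 : E.dn 3 = E.dn 2 + 1)
    (h3 : E.up 3 = E.up 2 + 2)
    (hc : 3 < E.up 2)
    : (14 : ℝ) / 39 ≤ balance P := by
  subst hi
  simp only [Nat.zero_add] at *
  have a1 := E.up_le (1) h1
  have a0 := E.dn_le (1) h1
  have b0 := E.dn_iff 1 3 (by omega) (by omega)
  have b1 := E.dn_iff 1 2 (by omega) (by omega)
  have b2 := E.up_le 3 (by omega)
  apply E.cert 6 relL5_2 exL5_2 WL5_2 SL5_2 okL5_2 (ofL [0, 1, 2, 3, E.up 2, E.up 2 + 1])
  · intro k hk
    have hk1 : k < 5 := by omega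
    interval_cases k <;> simp [ofL] <;> omega
  · intro k hk
    interval_cases k <;> simp [ofL] <;> omega
  · intro r hr
    simp only [relL5_2, List.mem_cons, List.not_mem_nil, or_false] at hr
    rcases hr with rfl | rfl | rfl | rfl | rfl | rfl | rfl | rfl | rfl <;> simp [ofL] <;> omega
  · intro t ht
    simp only [exL5_2, List.mem_cons, List.not_mem_nil, or_false] at ht
    rcases ht with rfl | rfl <;> simp [ofL] <;> refine ⟨?_, ?_⟩ <;> intro p hp hp2 <;> omega

end Pool.Agent.Semi
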