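import Pool.Agent.Lib_MP_33fb9b_semi.Check
import Pool.Agent.Lib_MP_33fb9b_gap.Mod

set_option autoImplicit false

/-!
# Soundness of the certificates
-/

namespace Pool.Agent.Semi

open Pool.Agent.Gap
open Classical

variable {P : Type} [Fintype P] [PartialOrder P]

/-- linear extensions -/
abbrev LExt (P : Type) [Fintype P] [PartialOrder P] : Type :=
  {e : P ≃ Fin (Fintype.card P) // Monotone e}

/-- the number of linear extensions with the property `Q` -/
noncomputable def num' (Q : LExt P → Prop) : ℕ := (Finset.univ.filter Q).card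

theorem lt_of_mono {e : P ≃ Fin (Fintype.card P)} (he : Monotone e) {x y : P} (h : x < y) :
    e x < e y :=
  lt_of_le_of_ne (he h.le) (fun hc => h.ne (e.injective hc))

/-- exchanging two elements of a linear extension -/
theorem swap_mono {e : P ≃ Fin (Fintype.card P)} (he : Monotone e) {x y : P} (hxy : e x < e y)
    (h1 : ∀ s, s < y → e s < e x) (h2 : ∀ s, x < s → e y < e s) :
    Monotone ((Equiv.swap x y).trans e) := by
  have hne : x ≠ y := fun h => by rw [h] at hxy; exact lt_irrefl _ hxy
  intro a b hab
  rcases hab.eq_or_lt with rfl | hlt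
  · exact le_refl _
  show e (Equiv.swap x y a) ≤ e (Equiv.swap x y b)
  by_cases hax : a = x
  · subst hax
    rw [Equiv.swap_apply_left]
    by_cases hby : b = y
    · subst hby
      exact absurd (h1 a hlt) (lt_irrefl _)
    · have hba : b ≠ a := hlt.ne'
      rw [Equiv.swap_apply_of_ne_of_ne hba hby]
      exact (h2 b hlt).le
  · by_cases hay : a = y
    · subst hay
      rw [Equiv.swap_apply_right]
      by_cases hbx : b = x
      · subst hbx
        rw [Equiv.swap_apply_left]
        exact hxy.le
      · rw [Equiv.swap_apply_of_ne_of_ne hbx hlt.ne']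
        exact (hxy.trans (lt_of_mono he hlt)).le
    · rw [Equiv.swap_apply_of_ne_of_ne hax hay]
      by_cases hbx : b = x
      · subst hbx
        rw [Equiv.swap_apply_left]
        exact ((lt_of_mono he hlt).trans hxy).le
      · by_cases hby : b = y
        · subst hby
          rw [Equiv.swap_apply_right]
          exact (h1 a hlt).le
        · rw [Equiv.swap_apply_of_ne_of_ne hbx hby]
          exact he hab

/-- counting with a swap -/
theorem num_swap_le (x y : P) (Q R : LExt P → Prop)
    (hQ : ∀ e : LExt P, Q e → e.1 x < e.1 y ∧ (∀ s, s < y → e.1 s < e.1 x) ∧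
      (∀ s, x < s → e.1 y < e.1 s))
    (hR : ∀ e e' : LExt P, e'.1 = (Equiv.swap x y).trans e.1 → Q e → R e') :
    num' Q ≤ num' R := by
  unfold num'
  apply Finset.card_le_card_of_injOn (fun e => if h : Q e then
    ⟨(Equiv.swap x y).trans e.1, swap_mono e.2 (hQ e h).1 (hQ e h).2.1 (hQ e h).2.2⟩ else e)
  · intro e he
    have he' : Q e := by simpa using he
    simp only [he', dif_pos, Finset.coe_filter, Finset.mem_univ, true_and, Set.mem_ofPred_eq]
    exact hR e _ rfl he'
  · intro e he f hf hef
    have he' : Q e := by simpa using he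
    have hf' : Q f := by simpa using hf
    simp only [he', hf', dif_pos, Subtype.mk.injEq] at hef
    apply Subtype.ext
    apply Equiv.ext
    intro s
    have := congrArg (fun g : P ≃ Fin (Fintype.card P) => g (Equiv.swap x y s)) hef
    simpa using this

theorem prob_eq_num (x y : P) :
    prob P x y = (num' (fun e : LExt P => e.1 x < e.1 y) : ℝ) / (Fintype.card (LExt P) : ℝ) := by
  have h1 : Nat.card {e : P ≃ Fin (Fintype.card P) // Monotone e ∧ e x < e y} =
      num' (fun e : LExt P => e.1 x < e.1 y) := by
    have h2 : num' (fun e : LExt P => e.1 x < e.1 y) =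
        Nat.card {e : LExt P // e.1 x < e.1 y} := by
      rw [Nat.card_eq_fintype_card, Fintype.card_subtype]
      unfold num'
      congr 1
      ext e
      simp only [Finset.mem_filter]
    rw [h2]
    apply Nat.card_congr
    exact (Equiv.subtypeSubtypeEquivSubtypeInter (fun e : P ≃ Fin (Fintype.card P) => Monotone e)
      (fun e => e x < e y)).symm
  have h3 : Nat.card {e : P ≃ Fin (Fintype.card P) // Monotone e} = Fintype.card (LExt P) :=
    Nat.card_eq_fintype_card
  unfold prob
  rw [h1, h3]

/-- the pattern of `e` on the tuple `a` is `l` -/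
def Srt (a : ℕ → P) (e : P ≃ Fin (Fintype.card P)) (l : List ℕ) : Prop :=
  l.Pairwise fun i j => e (a i) < e (a j)

omit [PartialOrder P] in
theorem exists_srt (a : ℕ → P) (m : ℕ) (ha : ∀ i j, i < m → j < m → a i = a j → i = j)
    (e : P ≃ Fin (Fintype.card P)) : ∃ l, l.Perm (List.range m) ∧ Srt a e l := by
  have h1 := List.pairwise_insertionSort (fun i j => e (a i) ≤ e (a j)) (List.range m)
  have hp := List.perm_insertionSort (fun i j => e (a i) ≤ e (a j)) (List.range m)
  refine ⟨_, hp, ?_⟩
  have hn : (List.insertionSort (fun i j => e (a i) ≤ e (a j)) (List.range m)).Nodup :=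
    hp.nodup_iff.mpr List.nodup_range
  have h2 := h1.and hn
  apply h2.imp_of_mem
  intro i j hi hj hij
  have hi' : i < m := List.mem_range.mp (hp.mem_iff.mp hi)
  have hj' : j < m := List.mem_range.mp (hp.mem_iff.mp hj)
  exact lt_of_le_of_ne hij.1 (fun hc => hij.2 (ha i j hi' hj' (e.injective hc)))

omit [PartialOrder P] in
theorem srt_unique (a : ℕ → P) (e : P ≃ Fin (Fintype.card P)) (l l' : List ℕ)
    (h : l.Perm l') (h1 : Srt a e l) (h2 : Srt a e l') : l = l' := by
  apply h.eq_of_pairwise (le := fun i j => e (a i) < e (a j)) _ h1 h2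
  intro i j _ _ h3 h4
  exact absurd h3 (lt_asymm h4)

omit [PartialOrder P] in
theorem bef_srt (a : ℕ → P) (e : P ≃ Fin (Fintype.card P)) (i j : ℕ) (hij : i ≠ j) :
    ∀ l : List ℕ, bef l j i = true → Srt a e l → i ∈ l → e (a j) < e (a i) := by
  intro l
  induction l with
  | nil => intro h; simp [bef] at h
  | cons c t ih =>
    intro h hs hi
    unfold Srt at hs
    rw [List.pairwise_cons] at hs
    simp only [bef] at h
    by_cases h1 : c = j
    · subst h1
      rcases List.mem_cons.mp hi with h2 | h2
      · exact absurd h2 hij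
      · exact hs.1 i h2
    · have h1' : Nat.beq c j = false := by
        rw [← Bool.not_eq_true, Nat.beq_eq]
        exact h1
      rw [h1', cond_false] at h
      by_cases h2 : c = i
      · have h2' : Nat.beq c i = true := by rw [Nat.beq_eq]; exact h2
        rw [h2', cond_true] at h
        exact absurd h (by simp)
      · have h2' : Nat.beq c i = false := by
          rw [← Bool.not_eq_true, Nat.beq_eq]
          exact h2
        rw [h2', cond_false] at h
        apply ih h hs.2
        rcases List.mem_cons.mp hi with h3 | h3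
        · exact absurd h3.symm h2
        · exact h3

theorem eqb_eq : ∀ l l' : List ℕ, eqb l l' = true ↔ l = l' := by
  intro l
  induction l with
  | nil => intro l'; cases l' <;> simp [eqb]
  | cons a l ih =>
    intro l'
    cases l' with
    | nil => simp [eqb]
    | cons b l' =>
      simp only [eqb, Bool.and_eq_true, ih, Nat.beq_eq, List.cons.injEq]

theorem runAll_sound (rel : List (ℕ × ℕ)) (chk : List ℕ → Bool) (hirr : ∀ r ∈ rel, r.1 ≠ r.2) :
    ∀ (f : ℕ) (rem pre l0 : List ℕ), rem.length = f → runAll rel chk f rem pre = true →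
      l0.Perm rem → l0.Pairwise (fun i j => (j, i) ∉ rel) → chk (l0 ++ pre) = true := by
  intro f
  induction f with
  | zero =>
    intro rem pre l0 hf h hp _
    have : rem = [] := List.length_eq_zero_iff.mp hf
    subst this
    have : l0 = [] := hp.eq_nil
    subst this
    simpa [runAll] using h
  | succ f ih =>
    intro rem pre l0 hf h hp hl
    rcases List.eq_nil_or_concat' l0 with h0 | ⟨l1, c, rfl⟩
    · subst h0
      have := hp.length_eq
      simp only [List.length_nil] at this
      omega
    · simp only [runAll, List.all_eq_true] at h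
      have hc : c ∈ rem := hp.mem_iff.mp (by simp)
      have h1 := h c hc
      rw [Bool.or_eq_true] at h1
      have hl' := List.pairwise_append.mp hl
      rcases h1 with h1 | h1
      · exfalso
        rw [List.any_eq_true] at h1
        obtain ⟨r, hr, hr2⟩ := h1
        rw [Bool.and_eq_true, decide_eq_true_eq, decide_eq_true_eq] at hr2
        have h2 : r.2 ∈ l1 ++ [c] := hp.mem_iff.mpr hr2.2
        rcases List.mem_append.mp h2 with h3 | h3
        · have := hl'.2.2 r.2 h3 c (by simp)
          apply this
          rw [← hr2.1]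
          exact hr
        · have h4 : r.2 = c := by simpa using h3
          exact hirr r hr (by rw [hr2.1, h4])
      · have hp2 : l1.Perm (rem.erase c) := by
          have h3 : (c :: l1).Perm rem := (List.perm_append_singleton c l1).symm.trans hp
          exact (h3.erase c |>.symm.trans (by simp)).symm
        have := ih (rem.erase c) (c :: pre) l1 (by
          rw [List.length_erase_of_mem hc]; omega) h1 hp2 hl'.1
        simpa using this

/-- the data of the tuple `a` which make the certificate meaningful -/
structure TupleOK (m : ℕ) (rel : List (ℕ × ℕ)) (ex : List (ℕ × ℕ × List ℕ)) (a : ℕ → P) : Prop where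
  nat : ∀ i j, i < j → j < m → (∀ s, s < a i → s < a j) ∧ (∀ s, a j < s → a i < s) ∧ a i ≠ a j
  rel : ∀ r ∈ rel, a r.1 < a r.2
  ex : ∀ t ∈ ex, (∀ s, s < a t.2.1 → s < a t.1 ∨ ∃ b ∈ t.2.2, s = a b) ∧
    (∀ s, a t.1 < s → a t.2.1 < s ∨ ∃ b ∈ t.2.2, s = a b)

omit [Fintype P] in
theorem TupleOK.inj {m : ℕ} {rel : List (ℕ × ℕ)} {ex : List (ℕ × ℕ × List ℕ)} {a : ℕ → P}
    (T : TupleOK m rel ex a) : ∀ i j, i < m → j < m → a i = a j → i = j := by
  intro i j hi hj h
  rcases lt_trichotomy i j with h1 | h1 | h1
  · exact absurd h (T.nat i j h1 hj).2.2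
  · exact h1
  · exact absurd h.symm (T.nat j i h1 hi).2.2

/-- sorting a pair into the natural order increases the count -/
theorem pair_le {m : ℕ} {rel : List (ℕ × ℕ)} {ex : List (ℕ × ℕ × List ℕ)} {a : ℕ → P}
    (T : TupleOK m rel ex a) (i j : ℕ) (hij : i < j) (hj : j < m) :
    prob P (a j) (a i) ≤ balance P := by
  have h1 : num' (fun e : LExt P => e.1 (a j) < e.1 (a i)) ≤
      num' (fun e : LExt P => e.1 (a i) < e.1 (a j)) := by
    obtain ⟨h2, h3, h4⟩ := T.nat i j hij hj
    apply num_swap_le (a j) (a i)
    · intro e he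
      exact ⟨he, fun s hs => lt_of_mono e.2 (h2 s hs), fun s hs => lt_of_mono e.2 (h3 s hs)⟩
    · intro e e' he' he
      rw [he']
      show e.1 (Equiv.swap (a j) (a i) (a i)) < e.1 (Equiv.swap (a j) (a i) (a j))
      rw [Equiv.swap_apply_left, Equiv.swap_apply_right]
      exact he
  have h5 : prob P (a j) (a i) ≤ prob P (a i) (a j) := by
    rw [prob_eq_num, prob_eq_num]
    apply div_le_div_of_nonneg_right
    · exact_mod_cast h1
    · exact Nat.cast_nonneg _
  have h6 := le_balance P (a i) (a j)
  rw [min_eq_right h5] at h6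
  exact h6

/-- a valid swap -/
theorem swp_le {m : ℕ} {rel : List (ℕ × ℕ)} {ex : List (ℕ × ℕ × List ℕ)} {a : ℕ → P}
    (T : TupleOK m rel ex a)
    (hex : ∀ t ∈ ex, ∀ b ∈ t.2.2, b < m ∧ b ≠ t.1 ∧ b ≠ t.2.1) (s : Swp)
    (hs : okSwap m ex s = true) :
    num' (fun e : LExt P => Srt a e.1 s.src) ≤ num' (fun e : LExt P => Srt a e.1 s.dst) := by
  unfold okSwap at hs
  simp only [Bool.and_eq_true, decide_eq_true_eq, List.all_eq_true, List.mem_range] at hs
  obtain ⟨⟨⟨⟨⟨⟨⟨⟨h1, h2⟩, _⟩, _⟩, h3⟩, h4⟩, h5⟩, h6⟩, h7⟩ := hs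
  -- every index below `m` is in the list, and the list is a permutation of the range
  have hperm : (List.range m).Perm s.src := by
    apply List.Subperm.perm_of_length_le
    · exact List.subperm_of_subset List.nodup_range (fun i hi => h2 i (List.mem_range.mp hi))
    · rw [h1, List.length_range]
  have hmem : ∀ i, i ∈ s.src ↔ i < m := fun i => by
    rw [← hperm.mem_iff, List.mem_range]
  have hinj := T.inj
  apply num_swap_le (a s.p) (a s.q)
  · intro e he
    by_cases hqp : s.q < s.p
    · rw [if_pos hqp] at h7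
      have h8 := bef_srt a e.1 s.q s.p h6.symm s.src h7 he ((hmem _).mpr h5)
      obtain ⟨h9, h10, _⟩ := T.nat s.q s.p hqp h4
      exact ⟨h8, fun t ht => lt_of_mono e.2 (h9 t ht), fun t ht => lt_of_mono e.2 (h10 t ht)⟩
    · rw [if_neg hqp, List.any_eq_true] at h7
      obtain ⟨t, ht, h8⟩ := h7
      unfold freeBetween at h8
      simp only [Bool.and_eq_true, decide_eq_true_eq, List.all_eq_true, Bool.or_eq_true] at h8
      obtain ⟨⟨h9, h10⟩, h11, h12⟩ := h8
      have h13 := bef_srt a e.1 s.q s.p h6.symm s.src h11 he ((hmem _).mpr h5)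
      obtain ⟨h14, h15⟩ := T.ex t ht
      have hb := hex t ht
      rw [h9, h10] at hb
      rw [h9, h10] at h14 h15
      have hblk : ∀ b ∈ t.2.2, e.1 (a b) < e.1 (a s.p) ∨ e.1 (a s.q) < e.1 (a b) := by
        intro b hbt
        obtain ⟨hb1, hb2, hb3⟩ := hb b hbt
        rcases h12 b hbt with h16 | h16
        · left
          exact bef_srt a e.1 s.p b hb2.symm s.src h16 he ((hmem _).mpr h4)
        · right
          exact bef_srt a e.1 b s.q hb3 s.src h16 he ((hmem _).mpr hb1)
      refine ⟨h13, ?_, ?_⟩
      · intro u hu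
        rcases h14 u hu with h16 | ⟨b, hbt, rfl⟩
        · exact lt_of_mono e.2 h16
        · rcases hblk b hbt with h17 | h17
          · exact h17
          · exact absurd (lt_of_mono e.2 hu) (lt_asymm h17)
      · intro u hu
        rcases h15 u hu with h16 | ⟨b, hbt, rfl⟩
        · exact lt_of_mono e.2 h16
        · rcases hblk b hbt with h17 | h17
          · exact absurd (lt_of_mono e.2 hu) (lt_asymm h17)
          · exact h17
  · intro e e' he' he
    rw [h3]
    unfold Srt
    rw [List.pairwise_map]
    have key : ∀ i, i ∈ s.src → e'.1 (a (sw s.p s.q i)) = e.1 (a i) := by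
      intro i hi
      have hi' := (hmem i).mp hi
      rw [he']
      show e.1 (Equiv.swap (a s.p) (a s.q) (a (sw s.p s.q i))) = e.1 (a i)
      unfold sw
      by_cases hip : i = s.p
      · rw [if_pos hip, Equiv.swap_apply_right, hip]
      · rw [if_neg hip]
        by_cases hiq : i = s.q
        · rw [if_pos hiq, Equiv.swap_apply_left, hiq]
        · rw [if_neg hiq, Equiv.swap_apply_of_ne_of_ne]
          · intro hc
            exact hip (hinj _ _ hi' h4 hc)
          · intro hc
            exact hiq (hinj _ _ hi' h5 hc)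
    apply List.Pairwise.imp_of_mem _ he
    intro i j hi hj hij
    rw [key i hi, key j hj]
    exact hij

theorem perm_of_check {m : ℕ} {l : List ℕ} (h1 : l.length = m) (h2 : ∀ i, i < m → i ∈ l) :
    (List.range m).Perm l := by
  apply List.Subperm.perm_of_length_le
  · exact List.subperm_of_subset List.nodup_range (fun i hi => h2 i (List.mem_range.mp hi))
  · rw [h1, List.length_range]

theorem sum_map {α : Type} (f : α → ℕ) (Q : α → LExt P → Prop)
    [inst : ∀ s e, Decidable (Q s e)] (L : List α) :
    ∑ e : LExt P, (L.map fun s => f s * (if Q s e then 1 else 0)).sum =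
      (L.map fun s => f s * num' (Q s)).sum := by
  induction L with
  | nil => simp
  | cons c L ih =>
    simp only [List.map_cons, List.sum_cons]
    rw [Finset.sum_add_distrib, ih, ← Finset.mul_sum]
    congr 2
    unfold num'
    rw [Finset.card_filter]
    apply Finset.sum_congr rfl
    intro e _
    by_cases h : Q c e
    · rw [if_pos h, if_pos h]
    · rw [if_neg h, if_neg h]

omit [PartialOrder P] in
theorem wsum_le {m : ℕ} (a : ℕ → P) (e : P ≃ Fin (Fintype.card P)) (l : List ℕ)
    (hl : l.Perm (List.range m)) (hs : Srt a e l) (W : List (ℕ × ℕ × ℕ))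
    (hW : ∀ t ∈ W, t.1 < t.2.1 ∧ t.2.1 < m) :
    wsum W l ≤ (W.map fun t => t.2.2 * (if e (a t.2.1) < e (a t.1) then 1 else 0)).sum := by
  induction W with
  | nil => simp [wsum]
  | cons t W ih =>
    have h1 := ih (fun t ht => hW t (List.mem_cons_of_mem _ ht))
    obtain ⟨h2, h3⟩ := hW t (by simp)
    simp only [List.map_cons, List.sum_cons]
    unfold wsum at h1 ⊢
    rw [List.foldr_cons]
    cases h4 : bef l t.2.1 t.1 with
    | true =>
      have h5 := bef_srt a e t.1 t.2.1 h2.ne l h4 hs
        (hl.mem_iff.mpr (List.mem_range.mpr (by omega)))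
      rw [cond_true, if_pos h5]
      omega
    | false =>
      rw [cond_false]
      omega

omit [PartialOrder P] in
theorem srcsum_le (a : ℕ → P) (e : P ≃ Fin (Fintype.card P)) (l : List ℕ)
    (hs : Srt a e l) (S : List Swp) :
    srcsum S l ≤ (S.map fun s => s.v * (if Srt a e s.src then 1 else 0)).sum := by
  induction S with
  | nil => simp [srcsum]
  | cons t S ih =>
    simp only [List.map_cons, List.sum_cons]
    unfold srcsum at ih ⊢
    rw [List.foldr_cons]
    cases h4 : eqb t.src l with
    | true =>
      have h5 : t.src = l := (eqb_eq _ _).mp h4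
      rw [cond_true, if_pos (by rw [h5]; exact hs)]
      omega
    | false =>
      rw [cond_false]
      omega

omit [PartialOrder P] in
theorem le_dstsum {m : ℕ} (a : ℕ → P) (e : P ≃ Fin (Fintype.card P)) (l : List ℕ)
    (hl : l.Perm (List.range m)) (hs : Srt a e l) (S : List Swp)
    (hS : ∀ s ∈ S, (List.range m).Perm s.dst) :
    (S.map fun s => s.v * (if Srt a e s.dst then 1 else 0)).sum ≤ dstsum S l := by
  induction S with
  | nil => simp
  | cons t S ih =>
    have h1 := ih (fun t ht => hS t (List.mem_cons_of_mem _ ht))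
    simp only [List.map_cons, List.sum_cons]
    unfold dstsum at h1 ⊢
    rw [List.foldr_cons]
    by_cases h2 : Srt a e t.dst
    · have h3 : t.dst = l := srt_unique a e _ _ ((hS t (by simp)).symm.trans hl.symm) h2 hs
      rw [if_pos h2, (eqb_eq _ _).mpr h3, cond_true]
      omega
    · rw [if_neg h2]
      cases eqb t.dst l with
      | true => rw [cond_true]; omega
      | false => rw [cond_false]; omega

theorem cert_sound (nu den m : ℕ) (hden : 0 < den) (rel : List (ℕ × ℕ))
    (ex : List (ℕ × ℕ × List ℕ)) (W : List (ℕ × ℕ × ℕ)) (S : List Swp)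
    (h : certOK nu den m rel ex W S = true) (a : ℕ → P) (T : TupleOK m rel ex a) :
    (nu : ℝ) / den ≤ balance P := by
  unfold certOK at h
  simp only [Bool.and_eq_true, decide_eq_true_eq, List.all_eq_true] at h
  obtain ⟨⟨⟨⟨h0, hW⟩, hex⟩, hS⟩, hrun⟩ := h
  have hirr : ∀ r ∈ rel, r.1 ≠ r.2 := fun r hr hc => by
    have := T.rel r hr
    rw [hc] at this
    exact lt_irrefl _ this
  have hex' : ∀ t ∈ ex, ∀ b ∈ t.2.2, b < m ∧ b ≠ t.1 ∧ b ≠ t.2.1 := fun t ht b hb => by
    obtain ⟨⟨h1, h2⟩, h3⟩ := hex t ht b hb
    exact ⟨h1, h2, h3⟩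
  have hdst : ∀ s ∈ S, (List.range m).Perm s.dst := by
    intro s hs
    have h1 := hS s hs
    unfold okSwap at h1
    simp only [Bool.and_eq_true, decide_eq_true_eq, List.all_eq_true, List.mem_range] at h1
    obtain ⟨⟨⟨⟨⟨⟨⟨⟨_, _⟩, h2⟩, h3⟩, _⟩, _⟩, _⟩, _⟩, _⟩ := h1
    exact perm_of_check h2 h3
  -- the inequality for each linear extension
  have hleaf : ∀ e : LExt P, nu * wtot W +
      (S.map fun s => s.v * (if Srt a e.1 s.dst then 1 else 0)).sum ≤
      den * (W.map fun t => t.2.2 * (if e.1 (a t.2.1) < e.1 (a t.1) then 1 else 0)).sum +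
      (S.map fun s => s.v * (if Srt a e.1 s.src then 1 else 0)).sum := by
    intro e
    obtain ⟨l, hl, hs⟩ := exists_srt a m T.inj e.1
    have h1 : leafOK nu den W S (l ++ []) = true := by
      apply runAll_sound rel _ hirr m (List.range m) [] l List.length_range hrun hl
      apply List.Pairwise.imp_of_mem _ hs
      intro i j hi hj hij hc
      have := T.rel _ hc
      exact absurd (lt_of_mono e.2 this) (lt_asymm hij)
    rw [List.append_nil] at h1
    unfold leafOK at h1
    rw [decide_eq_true_eq] at h1
    have h2 := wsum_le a e.1 l hl hs W hW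
    have h3 := srcsum_le a e.1 l hs S
    have h4 := le_dstsum a e.1 l hl hs S hdst
    have h5 := Nat.mul_le_mul_left den h2
    omega
  have hsum := Finset.sum_le_sum (fun e (_ : e ∈ (Finset.univ : Finset (LExt P))) => hleaf e)
  rw [Finset.sum_add_distrib, Finset.sum_add_distrib, Finset.sum_const, smul_eq_mul,
    Finset.card_univ, ← Finset.mul_sum,
    sum_map (fun s : Swp => s.v) (fun s e => Srt a e.1 s.dst) S,
    sum_map (fun s : Swp => s.v) (fun s e => Srt a e.1 s.src) S,
    sum_map (fun t : ℕ × ℕ × ℕ => t.2.2) (fun t e => e.1 (a t.2.1) < e.1 (a t.1)) W] at hsum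
  have hsw : (S.map fun s => s.v * num' (fun e : LExt P => Srt a e.1 s.src)).sum ≤
      (S.map fun s => s.v * num' (fun e : LExt P => Srt a e.1 s.dst)).sum := by
    clear hsum hleaf hrun
    induction S with
    | nil => simp
    | cons s S ih =>
      simp only [List.map_cons, List.sum_cons]
      have h1 := ih (fun t ht => hS t (List.mem_cons_of_mem _ ht))
        (fun t ht => hdst t (List.mem_cons_of_mem _ ht))
      have h2 := swp_le T hex' s (hS s (by simp))
      have h3 := Nat.mul_le_mul_left s.v h2
      omega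
  have hmain : Fintype.card (LExt P) * (nu * wtot W) ≤ den *
      (W.map fun t => t.2.2 * num' (fun e : LExt P => e.1 (a t.2.1) < e.1 (a t.1))).sum := by
    omega
  have hL : (0 : ℝ) < Fintype.card (LExt P) := by
    have h1 := card_linext_pos P
    have h2 : Nat.card {e : P ≃ Fin (Fintype.card P) // Monotone e} = Fintype.card (LExt P) :=
      Nat.card_eq_fintype_card
    rw [h2] at h1
    exact_mod_cast h1
  have hWr : (((W.map fun t => t.2.2 *
      num' (fun e : LExt P => e.1 (a t.2.1) < e.1 (a t.1))).sum : ℕ) : ℝ) ≤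
      wtot W * (balance P * Fintype.card (LExt P)) := by
    clear hmain hsum hleaf hrun h0
    induction W with
    | nil => simp [wtot]
    | cons t W ih =>
      simp only [List.map_cons, List.sum_cons]
      have h1 := ih (fun t ht => hW t (List.mem_cons_of_mem _ ht))
      obtain ⟨h2, h3⟩ := hW t (by simp)
      have h4 := pair_le T t.1 t.2.1 h2 h3
      rw [prob_eq_num, div_le_iff₀ hL] at h4
      have h5 : wtot (t :: W) = t.2.2 + wtot W := rfl
      rw [h5]
      push_cast
      push_cast at h1
      have h6 : (0 : ℝ) ≤ (t.2.2 : ℝ) := Nat.cast_nonneg _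
      have h7 := mul_le_mul_of_nonneg_left h4 h6
      rw [add_mul]
      exact add_le_add h7 h1
  have hm : ((Fintype.card (LExt P) * (nu * wtot W) : ℕ) : ℝ) ≤ ((den *
      (W.map fun t => t.2.2 * num' (fun e : LExt P => e.1 (a t.2.1) < e.1 (a t.1))).sum : ℕ) : ℝ) :=
    Nat.cast_le.mpr hmain
  rw [Nat.cast_mul, Nat.cast_mul, Nat.cast_mul] at hm
  have hd : (0 : ℝ) < den := by exact_mod_cast hden
  have hw : (0 : ℝ) < wtot W := by exact_mod_cast h0
  rw [div_le_iff₀ hd]
  have h8 := mul_le_mul_of_nonneg_left hWr hd.le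
  have h9 := hm.trans h8
  have h10 : (nu : ℝ) * ((wtot W : ℝ) * Fintype.card (LExt P)) ≤
      (balance P * den) * ((wtot W : ℝ) * Fintype.card (LExt P)) := by
    calc (nu : ℝ) * ((wtot W : ℝ) * Fintype.card (LExt P)) =
        Fintype.card (LExt P) * (nu * wtot W) := by ring
      _ ≤ _ := h9
      _ = (balance P * den) * ((wtot W : ℝ) * Fintype.card (LExt P)) := by ring
  exact le_of_mul_le_mul_right h10 (mul_pos hw hL)

end Pool.Agent.Semi
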