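import Mathlib

set_option autoImplicit false

/-!
# The certificate checker (pure list computations)

A pattern is a list of the indices `0, …, m-1`, in the order in which a linear extension lists the
elements of an `m`-tuple. A certificate consists of weights on pairs and on swaps of patterns.
-/

namespace Pool.Agent.Semi

/-- `bef l j i`: in the list `l` the index `j` occurs before the index `i` -/
def bef : List ℕ → ℕ → ℕ → Bool
  | [], _, _ => false
  | (c :: t), j, i => cond (Nat.beq c j) true (cond (Nat.beq c i) false (bef t j i))

/-- boolean equality of lists of natural numbers -/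
def eqb : List ℕ → List ℕ → Bool
  | [], [] => true
  | (a :: l), (b :: l') => Nat.beq a b && eqb l l'
  | _, _ => false

/-- transposition of `p` and `q` -/
def sw (p q i : ℕ) : ℕ := if i = p then q else if i = q then p else i

/-- One swap of a certificate: in the pattern `src` the indices `p` (first) and `q` (later) are
exchanged, which gives the pattern `dst`; the swap has weight `v`. -/
structure Swp where
  src : List ℕ
  dst : List ℕ
  p : ℕ
  q : ℕ
  v : ℕ

/-- no index of `B` lies between `p` and `q` in `l`, where `p` comes before `q` -/
def freeBetween (l : List ℕ) (p q : ℕ) (B : List ℕ) : Bool :=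
  bef l p q && B.all fun b => bef l b p || bef l q b

/-- Is the swap valid: either `q < p` (the swap sorts the pair into the natural order) or `(p, q)`
is one of the exact pairs of the list `ex` and none of its blockers lies between `p` and `q`. -/
def okSwap (m : ℕ) (ex : List (ℕ × ℕ × List ℕ)) (s : Swp) : Bool :=
  decide (s.src.length = m) && (List.range m).all (fun i => decide (i ∈ s.src)) &&
  decide (s.dst.length = m) && (List.range m).all (fun i => decide (i ∈ s.dst)) &&
  decide (s.dst = s.src.map (sw s.p s.q)) && decide (s.p < m) && decide (s.q < m) &&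
  decide (s.p ≠ s.q) &&
  (if s.q < s.p then bef s.src s.p s.q else
    ex.any fun t => decide (t.1 = s.p) && decide (t.2.1 = s.q) && freeBetween s.src s.p s.q t.2.2)

/-- sum of the weights of the pairs `(i, j)` for which `j` comes before `i` -/
def wsum (W : List (ℕ × ℕ × ℕ)) (l : List ℕ) : ℕ :=
  W.foldr (fun t acc => cond (bef l t.2.1 t.1) (t.2.2 + acc) acc) 0

/-- total weight -/
def wtot (W : List (ℕ × ℕ × ℕ)) : ℕ := W.foldr (fun t acc => t.2.2 + acc) 0

/-- sum of the weights of the swaps with source `l` -/
def srcsum (S : List Swp) (l : List ℕ) : ℕ :=
  S.foldr (fun s acc => cond (eqb s.src l) (s.v + acc) acc) 0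

/-- sum of the weights of the swaps with target `l` -/
def dstsum (S : List Swp) (l : List ℕ) : ℕ :=
  S.foldr (fun s acc => cond (eqb s.dst l) (s.v + acc) acc) 0

/-- the inequality for one pattern -/
def leafOK (num den : ℕ) (W : List (ℕ × ℕ × ℕ)) (S : List Swp) (l : List ℕ) : Bool :=
  decide (num * wtot W + dstsum S l ≤ den * wsum W l + srcsum S l)

/-- run through all patterns compatible with the relations `rel`: the list `rem` of the remaining
indices is exhausted from the end -/
def runAll (rel : List (ℕ × ℕ)) (chk : List ℕ → Bool) : ℕ → List ℕ → List ℕ → Bool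
  | 0, _, pre => chk pre
  | (f + 1), rem, pre => rem.all fun c =>
      (rel.any fun r => decide (r.1 = c) && decide (r.2 ∈ rem)) ||
        runAll rel chk f (rem.erase c) (c :: pre)

/-- the complete check of a certificate -/
def certOK (num den m : ℕ) (rel : List (ℕ × ℕ)) (ex : List (ℕ × ℕ × List ℕ))
    (W : List (ℕ × ℕ × ℕ)) (S : List Swp) : Bool :=
  decide (0 < wtot W) && W.all (fun t => decide (t.1 < t.2.1) && decide (t.2.1 < m)) &&
  ex.all (fun t => t.2.2.all fun b => decide (b < m) && decide (b ≠ t.1) && decide (b ≠ t.2.1)) &&
  S.all (okSwap m ex) && runAll rel (leafOK num den W S) m (List.range m) []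

end Pool.Agent.Semi
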