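import Pool.Agent.Lib_MP_33fb9b_semi.Defs

set_option autoImplicit false

/-!
# The dual order
-/

namespace Pool.Agent.Semi

open Pool.Agent.Gap

/-- A linear extension of the dual order, read backwards. -/
def revExt (P : Type) [Fintype P] :
    (Pᵒᵈ ≃ Fin (Fintype.card Pᵒᵈ)) ≃ (P ≃ Fin (Fintype.card P)) where
  toFun e := (OrderDual.toDual.trans e).trans
    ((finCongr (Fintype.card_orderDual P)).trans Fin.revPerm)
  invFun e := (OrderDual.ofDual.trans e).trans
    (Fin.revPerm.trans (finCongr (Fintype.card_orderDual P)).symm)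
  left_inv e := by
    apply Equiv.ext
    intro p
    apply Fin.ext
    have h := (e p).isLt
    have hc := Fintype.card_orderDual P
    show Fintype.card P - (Fintype.card P - ((e p).val + 1) + 1) = (e p).val
    omega
  right_inv e := by
    apply Equiv.ext
    intro p
    apply Fin.ext
    have h := (e p).isLt
    show Fintype.card P - (Fintype.card P - ((e p).val + 1) + 1) = (e p).val
    omega

theorem revExt_val {P : Type} [Fintype P] (e : Pᵒᵈ ≃ Fin (Fintype.card Pᵒᵈ)) (p : P) :
    (revExt P e p).val = Fintype.card P - ((e (OrderDual.toDual p)).val + 1) := rfl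

theorem revExt_le_iff {P : Type} [Fintype P] (e : Pᵒᵈ ≃ Fin (Fintype.card Pᵒᵈ))
    (p q : P) : revExt P e p ≤ revExt P e q ↔ e (OrderDual.toDual q) ≤ e (OrderDual.toDual p) := by
  have h1 := (e (OrderDual.toDual p)).isLt
  have h2 := (e (OrderDual.toDual q)).isLt
  have hc := Fintype.card_orderDual P
  rw [Fin.le_def, Fin.le_def, revExt_val, revExt_val]
  omega

theorem revExt_lt_iff {P : Type} [Fintype P] (e : Pᵒᵈ ≃ Fin (Fintype.card Pᵒᵈ))
    (p q : P) : revExt P e p < revExt P e q ↔ e (OrderDual.toDual q) < e (OrderDual.toDual p) := by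
  have h1 := (e (OrderDual.toDual p)).isLt
  have h2 := (e (OrderDual.toDual q)).isLt
  have hc := Fintype.card_orderDual P
  rw [Fin.lt_def, Fin.lt_def, revExt_val, revExt_val]
  omega

theorem revExt_monotone {P : Type} [Fintype P] [PartialOrder P]
    (e : Pᵒᵈ ≃ Fin (Fintype.card Pᵒᵈ)) : Monotone e ↔ Monotone (revExt P e) := by
  constructor
  · intro h p q hpq
    rw [revExt_le_iff]
    exact h (OrderDual.toDual_le_toDual.mpr hpq)
  · intro h p q hpq
    have h1 := h (a := OrderDual.ofDual q) (b := OrderDual.ofDual p) hpq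
    rw [revExt_le_iff] at h1
    exact h1

theorem prob_dual (P : Type) [Fintype P] [PartialOrder P] (x y : P) :
    prob Pᵒᵈ (OrderDual.toDual x) (OrderDual.toDual y) = prob P y x := by
  unfold prob
  have h1 : Nat.card {e : Pᵒᵈ ≃ Fin (Fintype.card Pᵒᵈ) //
      Monotone e ∧ e (OrderDual.toDual x) < e (OrderDual.toDual y)} =
      Nat.card {e : P ≃ Fin (Fintype.card P) // Monotone e ∧ e y < e x} :=
    Nat.card_congr ((revExt P).subtypeEquiv fun e => by
      rw [revExt_monotone, revExt_lt_iff])
  have h2 : Nat.card {e : Pᵒᵈ ≃ Fin (Fintype.card Pᵒᵈ) // Monotone e} =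
      Nat.card {e : P ≃ Fin (Fintype.card P) // Monotone e} :=
    Nat.card_congr ((revExt P).subtypeEquiv fun e => revExt_monotone e)
  rw [h1, h2]

theorem balance_dual (P : Type) [Fintype P] [PartialOrder P] : balance Pᵒᵈ = balance P := by
  unfold balance
  apply Equiv.iSup_congr (Equiv.prodCongr OrderDual.ofDual OrderDual.ofDual)
  rintro ⟨x, y⟩
  have h1 := prob_dual P (OrderDual.ofDual x) (OrderDual.ofDual y)
  have h2 := prob_dual P (OrderDual.ofDual y) (OrderDual.ofDual x)
  rw [OrderDual.toDual_ofDual, OrderDual.toDual_ofDual] at h1 h2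
  simp only [Equiv.prodCongr_apply, Prod.map_apply]
  rw [h1, h2, min_comm]

/-- the dual enumeration -/
theorem Enum.exists_dual {P : Type} [PartialOrder P] {n : ℕ} (E : Enum P n) :
    ∃ E' : Enum Pᵒᵈ n, E'.up = (fun i => n - E.dn (n - 1 - i)) ∧
      E'.dn = (fun i => n - E.up (n - 1 - i)) := by
  refine ⟨{ x := fun i => OrderDual.toDual (E.x (n - 1 - i))
            up := fun i => n - E.dn (n - 1 - i)
            dn := fun i => n - E.up (n - 1 - i)
            inj := ?_
            surj := ?_
            lt_iff := ?_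
            up_mono := ?_
            lt_up := ?_
            up_le := ?_
            dn_iff := ?_
            dn_le := ?_ }, rfl, rfl⟩
  · intro i j hi hj h
    have := E.inj (n - 1 - i) (n - 1 - j) (by omega) (by omega) (OrderDual.toDual.injective h)
    omega
  · intro p
    obtain ⟨i, hi, hp⟩ := E.surj (OrderDual.ofDual p)
    refine ⟨n - 1 - i, by omega, ?_⟩
    have : n - 1 - (n - 1 - i) = i := by omega
    rw [this, hp, OrderDual.toDual_ofDual]
  · intro i j hi hj
    rw [OrderDual.toDual_lt_toDual, E.lt_iff _ _ (by omega) (by omega),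
      E.dn_iff _ _ (by omega) (by omega)]
    have := E.dn_le (n - 1 - i) (by omega)
    omega
  · intro i j hij hj
    have := E.dn_mono (n - 1 - j) (n - 1 - i) (by omega) (by omega)
    show n - E.dn (n - 1 - i) ≤ n - E.dn (n - 1 - j)
    omega
  · intro i hi
    have := E.dn_le (n - 1 - i) (by omega)
    show i < n - E.dn (n - 1 - i)
    omega
  · intro i hi
    exact Nat.sub_le _ _
  · intro i j hi hj
    have h1 := E.dn_iff (n - 1 - j) (n - 1 - i) (by omega) (by omega)
    have h2 := E.dn_le (n - 1 - i) (by omega)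
    have h3 := E.up_le (n - 1 - j) (by omega)
    constructor
    · intro h
      have := h1.mpr (by omega)
      omega
    · intro h
      have := h1.mp (by omega)
      omega
  · intro j hj
    have := E.lt_up (n - 1 - j) (by omega)
    show n - E.up (n - 1 - j) ≤ j
    omega

end Pool.Agent.Semi
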