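import Pool.Agent.Lib_MP_33fb9b_semi.Cases
import Pool.Agent.Lib_MP_33fb9b_semi.Dual
import Pool.Agent.Lib_MP_33fb9b_semi.Arith

set_option autoImplicit false

/-!
# The core theorem: semiorders without twins which are not a direct sum
-/

namespace Pool.Agent.Semi

open Pool.Agent.Gap

theorem Enum.notwin {P : Type} [PartialOrder P] {n : ℕ} (E : Enum P n) (ht : NoTwins P) :
    ∀ i, i + 1 < n → E.up i < E.up (i + 1) ∨ E.dn i < E.dn (i + 1) := by
  intro i hi
  by_contra hcon
  push Not at hcon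
  obtain ⟨h1, h2⟩ := hcon
  have h3 := E.up_mono i (i + 1) (by omega) hi
  have h4 := E.dn_mono i (i + 1) (by omega) hi
  have h5 : E.x i = E.x (i + 1) := by
    apply ht
    · intro s
      obtain ⟨p, hp, rfl⟩ := E.surj s
      rw [E.lt_iff _ _ hp (by omega), E.lt_iff _ _ hp hi, E.dn_iff _ _ hp (by omega),
        E.dn_iff _ _ hp hi]
      omega
    · intro s
      obtain ⟨p, hp, rfl⟩ := E.surj s
      rw [E.lt_iff _ _ (by omega) hp, E.lt_iff _ _ hi hp]
      omega
  have := E.inj _ _ (by omega) hi h5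
  omega

theorem Enum.numData {P : Type} [PartialOrder P] {n : ℕ} (E : Enum P n)
    (hc : ∀ i, i + 1 < n → i + 1 < E.up i) (ht : NoTwins P) : NumData n E.up E.dn where
  up_mono := E.up_mono
  dn_mono := E.dn_mono
  up_le := E.up_le
  dn_le := E.dn_le
  lt_up := E.lt_up
  dn_iff := E.dn_iff
  nocut := hc
  notwin := E.notwin ht

theorem Enum.aRule {P : Type} [Fintype P] [PartialOrder P] {n : ℕ} (E : Enum P n) (hn : 4 ≤ n)
    (hc : ∀ i, i + 1 < n → i + 1 < E.up i) (ht : NoTwins P) (hb : balance P < 14 / 39) :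
    ARule n E.up E.dn := by
  intro i hi hd hu
  have hF : ¬ (14 : ℝ) / 39 ≤ balance P := not_le.mpr hb
  have hnt := E.notwin ht
  have c1 := hc i hi
  have c2 := E.up_le (i + 1) hi
  by_cases h4 : i + 4 ≤ E.up i
  · exfalso
    rcases hnt (i + 1) (by omega) with h | h
    · exact hF (case_L1b E i hi hd hu h4 h)
    · exact hF (case_L1a E i hi hd hu h4 h)
  by_cases h3 : E.up i = i + 3
  · have m1 := E.up_mono (i + 1) (i + 2) (by omega) (by omega)
    have m2 := E.dn_mono (i + 1) (i + 2) (by omega) (by omega)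
    have m3 := E.up_mono (i + 2) (i + 3) (by omega) (by omega)
    have m4 := E.dn_mono (i + 2) (i + 3) (by omega) (by omega)
    have m5 := (E.dn_iff i (i + 3) (by omega) (by omega)).mp (by omega)
    have m6 := E.dn_iff i (i + 2) (by omega) (by omega)
    have hL3 : ¬ (E.dn (i + 3) = E.dn (i + 2) + 1 ∧ E.up (i + 3) = E.up (i + 2)) :=
      fun h => hF (case_L3 E i hi hd hu h3 h.1 h.2)
    have h10 : ¬ (E.dn (i + 2) = E.dn (i + 1) + 1 ∧ E.up (i + 2) = E.up (i + 1)) :=
      fun h => hF (case_L2_10 E i hi hd hu h3 h.1 h.2)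
    have h01 : ¬ (E.dn (i + 2) = E.dn (i + 1) ∧ E.up (i + 2) = E.up (i + 1) + 1) :=
      fun h => hF (case_L2_01 E i hi hd hu h3 h.1 h.2)
    have h11 : ¬ (E.dn (i + 2) = E.dn (i + 1) + 1 ∧ E.up (i + 2) = E.up (i + 1) + 1) :=
      fun h => hF (case_L2_11 E i hi hd hu h3 h.1 h.2)
    have h02 : ¬ (E.dn (i + 2) = E.dn (i + 1) ∧ E.up (i + 2) = E.up (i + 1) + 2) :=
      fun h => hF (case_L2_02 E i hi hd hu h3 h.1 h.2)
    have h20 : ¬ (E.dn (i + 3) = E.dn (i + 2) + 2 ∧ E.up (i + 3) = E.up (i + 2)) :=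
      fun h => hF (case_L3_20 E i hi hd hu h3 h.1 h.2)
    have n1 : E.up (i + 1) < E.up (i + 2) ∨ E.dn (i + 1) < E.dn (i + 2) := hnt (i + 1) (by omega)
    have n2 : E.up (i + 2) < E.up (i + 3) ∨ E.dn (i + 2) < E.dn (i + 3) := hnt (i + 2) (by omega)
    by_cases hs : E.dn (i + 1) + E.up (i + 1) + 3 ≤ E.dn (i + 2) + E.up (i + 2)
    · right; right; left
      exact ⟨h3, hs, hL3⟩
    · right; right; right
      have q1 : E.dn (i + 2) = E.dn (i + 1) + 2 := by omega
      have q2 : E.up (i + 2) = E.up (i + 1) := by omega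
      have h2011 : ¬ (E.dn (i + 3) = E.dn (i + 2) + 1 ∧ E.up (i + 3) = E.up (i + 2) + 1) :=
        fun h => hF (case_L2_20_11 E i hi hd hu h3 q1 q2 h.1 h.2)
      refine ⟨h3, q1, q2, ?_⟩
      omega
  · have h2 : E.up i = i + 2 := by omega
    by_cases hi0 : i = 0
    · right; left
      subst hi0
      have hu1 : E.up 1 = E.up 0 + 1 := hu
      have hd1 : E.dn 1 = E.dn 0 := hd
      have r0 := E.dn_le 0 (by omega)
      have r1 := (E.dn_iff 1 3 (by omega) (by omega)).mp (by omega)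
      have r2 := E.dn_iff 2 3 (by omega) (by omega)
      have r3 := (E.dn_iff 0 2 (by omega) (by omega)).mp (by omega)
      have r4 := E.dn_iff 1 2 (by omega) (by omega)
      have r5 := hc 2 (by omega)
      have r6 := E.up_mono 2 3 (by omega) (by omega)
      have r7 : E.dn 3 = E.dn 2 + 1 := by omega
      refine ⟨h2, rfl, r7, ?_⟩
      have g0 : ¬ E.up 3 = E.up 2 := fun h => hF (case_L5_0 E 0 hi hd hu rfl (by omega) hn r7 h)
      have g1 : ¬ E.up 3 = E.up 2 + 1 :=
        fun h => hF (case_L5_1 E 0 hi hd hu rfl (by omega) hn r7 h (by omega))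
      have g2 : ¬ E.up 3 = E.up 2 + 2 :=
        fun h => hF (case_L5_2 E 0 hi hd hu rfl (by omega) hn r7 h (by omega))
      omega
    · left
      have s1 := hc (i - 1) (by omega)
      have s2 := E.up_mono (i - 1) i (by omega) (by omega)
      have s3 := E.dn_iff (i - 1) (i + 1) (by omega) (by omega)
      have s4 := E.dn_iff (i - 1) i (by omega) (by omega)
      have s5 : E.up (i - 1) = E.up i := by omega
      have s6 := hnt (i - 1) (by omega)
      rw [Nat.sub_add_cancel (by omega : 1 ≤ i)] at s6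
      have g1 : ¬ E.dn i = E.dn (i - 1) + 1 :=
        fun h => hF (case_L4_1 E i hi hd hu (by omega) h2 s5 h)
      have g2 : ¬ E.dn i = E.dn (i - 1) + 2 :=
        fun h => hF (case_L4_2 E i hi hd hu (by omega) h2 s5 h)
      exact ⟨h2, by omega, s5, by omega⟩

theorem core {P : Type} [Fintype P] [PartialOrder P] {n : ℕ} (E : Enum P n) (hn : 4 ≤ n)
    (hc : ∀ i, i + 1 < n → i + 1 < E.up i) (ht : NoTwins P) :
    (14 : ℝ) / 39 ≤ balance P := by
  by_contra hcon
  push Not at hcon
  obtain ⟨E', hu, hd⟩ := E.exists_dual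
  have ht' : NoTwins Pᵒᵈ := by
    intro x y h1 h2
    exact ht x y (fun s => h2 s) (fun s => h1 s)
  have hc' : ∀ i, i + 1 < n → i + 1 < E'.up i := by
    intro i hi
    rw [hu]
    show i + 1 < n - E.dn (n - 1 - i)
    have h1 := E.dn_le (n - 1 - i) (by omega)
    have h2 := E.dn_iff (n - 1 - i - 1) (n - 1 - i) (by omega) (by omega)
    have h3 := hc (n - 1 - i - 1) (by omega)
    omega
  have hA := E.aRule hn hc ht hcon
  have hB := E'.aRule hn hc' ht' (by rw [balance_dual]; exact hcon)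
  rw [hu, hd] at hB
  exact arith n hn E.up E.dn (E.numData hc ht) hA hB

end Pool.Agent.Semi
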