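import Mathlib
import Pool.Agent.Lib_MP_33fb9b_gap.Mod
import Pool.Agent.Lib_MP_33fb9b_gap.DClass

set_option autoImplicit false

/-!
# Semiorders: definitions

`prob`, `balance`, `InD`, `Autonomous` are in `Pool.Agent.Lib_MP_33fb9b_gap.Defs`.
-/

namespace Pool.Agent.Semi

/-- A semiorder: a partial order without an induced `2 + 2` and without an induced `3 + 1`. -/
def IsSemiorder (P : Type) [PartialOrder P] : Prop :=
  (∀ a b c d : P, a < b → c < d → a < d ∨ c < b) ∧
    (∀ a b c d : P, a < b → b < c → a < d ∨ d < c)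

/-- no two different elements with the same elements below and the same elements above -/
def NoTwins (P : Type) [PartialOrder P] : Prop :=
  ∀ x y : P, (∀ s, s < x ↔ s < y) → (∀ s, x < s ↔ y < s) → x = y

/-- An enumeration `x 0, …, x (n - 1)` of a semiorder in its natural order: `x i < x j` iff
`up i ≤ j` iff `i < dn j`, where `up` and `dn` are monotone. -/
structure Enum (P : Type) [PartialOrder P] (n : ℕ) where
  x : ℕ → P
  up : ℕ → ℕ
  dn : ℕ → ℕ
  inj : ∀ i j, i < n → j < n → x i = x j → i = j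
  surj : ∀ p : P, ∃ i, i < n ∧ x i = p
  lt_iff : ∀ i j, i < n → j < n → (x i < x j ↔ up i ≤ j)
  up_mono : ∀ i j, i ≤ j → j < n → up i ≤ up j
  lt_up : ∀ i, i < n → i < up i
  up_le : ∀ i, i < n → up i ≤ n
  dn_iff : ∀ i j, i < n → j < n → (up i ≤ j ↔ i < dn j)
  dn_le : ∀ j, j < n → dn j ≤ j

variable {P : Type} [PartialOrder P] {n : ℕ}

theorem Enum.dn_mono (E : Enum P n) (i j : ℕ) (hij : i ≤ j) (hj : j < n) : E.dn i ≤ E.dn j := by
  by_contra hc
  push Not at hc
  have h1 := E.dn_le i (by omega)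
  have h2 := (E.dn_iff (E.dn j) i (by omega) (by omega)).mpr hc
  have h3 := (E.dn_iff (E.dn j) j (by omega) hj).mp (by omega)
  omega

theorem Enum.card [Fintype P] (E : Enum P n) : Fintype.card P = n := by
  have f : Fin n ≃ P := Equiv.ofBijective (fun i : Fin n => E.x i.val)
    ⟨fun i j h => Fin.ext (E.inj i j i.2 j.2 h), fun p => by
      obtain ⟨i, hi, hp⟩ := E.surj p
      exact ⟨⟨i, hi⟩, hp⟩⟩
  rw [← Fintype.card_congr f, Fintype.card_fin]

/-- elements below are nested along the natural order -/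
theorem Enum.below (E : Enum P n) (i j : ℕ) (hij : i ≤ j) (hj : j < n) (s : P) (hs : s < E.x i) :
    s < E.x j := by
  obtain ⟨p, hp, rfl⟩ := E.surj s
  rw [E.lt_iff _ _ hp (by omega)] at hs
  rw [E.lt_iff _ _ hp hj]
  omega

/-- elements above are nested along the natural order -/
theorem Enum.above (E : Enum P n) (i j : ℕ) (hij : i ≤ j) (hj : j < n) (s : P) (hs : E.x j < s) :
    E.x i < s := by
  obtain ⟨p, hp, rfl⟩ := E.surj s
  rw [E.lt_iff _ _ hj hp] at hs
  rw [E.lt_iff _ _ (by omega) hp]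
  have := E.up_mono i j hij hj
  omega

end Pool.Agent.Semi
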