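import Pool.Agent.Lib_MP_33fb9b_semi.Defs
import Pool.Agent.Lib_MP_33fb9b_semi.Cert

set_option autoImplicit false

/-!
# Certificates applied to enumerated semiorders
-/

namespace Pool.Agent.Semi

open Pool.Agent.Gap

theorem Enum.cert {P : Type} [Fintype P] [PartialOrder P] {n : ℕ} (E : Enum P n) (m : ℕ)
    (rel : List (ℕ × ℕ)) (ex : List (ℕ × ℕ × List ℕ)) (W : List (ℕ × ℕ × ℕ)) (S : List Swp)
    (h : certOK 14 39 m rel ex W S = true)
    (f : ℕ → ℕ) (hf : ∀ i, i + 1 < m → f i < f (i + 1)) (hn : ∀ i, i < m → f i < n)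
    (hrel : ∀ r ∈ rel, r.1 < m ∧ r.2 < m ∧ E.up (f r.1) ≤ f r.2)
    (hex : ∀ t ∈ ex, (t.1 < m ∧ t.2.1 < m) ∧
      (∀ p, p < n → p < E.dn (f t.2.1) → p < E.dn (f t.1) ∨ ∃ b ∈ t.2.2, p = f b) ∧
      (∀ p, p < n → E.up (f t.1) ≤ p → E.up (f t.2.1) ≤ p ∨ ∃ b ∈ t.2.2, p = f b)) :
    (14 : ℝ) / 39 ≤ balance P := by
  have hmono : ∀ i j, i < j → j < m → f i < f j := by
    intro i j hij
    induction j with
    | zero => omega
    | succ j ih =>
      intro hj
      have h1 := hf j hj
      rcases Nat.lt_succ_iff_lt_or_eq.mp hij with h2 | h2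
      · exact (ih h2 (by omega)).trans h1
      · rw [h2]; exact h1
  have key := cert_sound (P := P) 14 39 m (by norm_num) rel ex W S h (fun i => E.x (f i))
    { nat := by
        intro i j hij hj
        have h1 := hmono i j hij hj
        have h2 := hn j hj
        refine ⟨fun s hs => E.below _ _ h1.le h2 s hs, fun s hs => E.above _ _ h1.le h2 s hs, ?_⟩
        intro hc
        have := E.inj _ _ (by omega) h2 hc
        omega
      rel := by
        intro r hr
        obtain ⟨h1, h2, h3⟩ := hrel r hr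
        exact (E.lt_iff _ _ (hn _ h1) (hn _ h2)).mpr h3
      ex := by
        intro t ht
        obtain ⟨⟨h1, h2⟩, h3, h4⟩ := hex t ht
        constructor
        · intro s hs
          obtain ⟨p, hp, rfl⟩ := E.surj s
          rw [E.lt_iff _ _ hp (hn _ h2), E.dn_iff _ _ hp (hn _ h2)] at hs
          rcases h3 p hp hs with h5 | ⟨b, hb, h5⟩
          · left
            rw [E.lt_iff _ _ hp (hn _ h1), E.dn_iff _ _ hp (hn _ h1)]
            exact h5
          · right
            exact ⟨b, hb, by rw [h5]⟩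
        · intro s hs
          obtain ⟨p, hp, rfl⟩ := E.surj s
          rw [E.lt_iff _ _ (hn _ h1) hp] at hs
          rcases h4 p hp hs with h5 | ⟨b, hb, h5⟩
          · left
            rw [E.lt_iff _ _ (hn _ h2) hp]
            exact h5
          · right
            exact ⟨b, hb, by rw [h5]⟩ }
  norm_num at key
  exact key

end Pool.Agent.Semi
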