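import Pool.Agent.Lib_MP_33fb9b_semi.Defs

set_option autoImplicit false

/-!
# Existence of the natural enumeration of a semiorder without twins
-/

namespace Pool.Agent.Semi

/-- In a semiorder the pairs (elements below, elements above) are nested. -/
theorem nested {P : Type} [PartialOrder P] (h : IsSemiorder P) (x y : P) :
    ((∀ s, s < x → s < y) ∧ (∀ s, y < s → x < s)) ∨
      ((∀ s, s < y → s < x) ∧ (∀ s, x < s → y < s)) := by
  by_contra hc
  rw [not_or, not_and_or, not_and_or] at hc
  obtain ⟨h1, h2⟩ := hc
  push Not at h1 h2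
  rcases h1 with ⟨s, hs, hs'⟩ | ⟨s, hs, hs'⟩ <;> rcases h2 with ⟨t, ht, ht'⟩ | ⟨t, ht, ht'⟩
  · rcases h.1 s x t y hs ht with h3 | h3
    · exact hs' h3
    · exact ht' h3
  · rcases h.2 s x t y hs ht with h3 | h3
    · exact hs' h3
    · exact ht' h3
  · rcases h.2 t y s x ht hs with h3 | h3
    · exact ht' h3
    · exact hs' h3
  · rcases h.1 y s x t hs ht with h3 | h3
    · exact ht' h3
    · exact hs' h3

/-- For nonempty `P` (an `Enum` contains a function `ℕ → P`). -/
theorem enum_exists {P : Type} [Fintype P] [PartialOrder P] [Nonempty P] (h : IsSemiorder P)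
    (ht : NoTwins P) : Nonempty (Enum P (Fintype.card P)) := by
  classical
  set n := Fintype.card P with hn
  have hnpos : 0 < n := Fintype.card_pos
  -- lower and upper sets
  let lo : P → Finset P := fun x => Finset.univ.filter (· < x)
  let hi : P → Finset P := fun x => Finset.univ.filter (x < ·)
  have hlo : ∀ x s, s ∈ lo x ↔ s < x := fun x s => by simp [lo]
  have hhi : ∀ x s, s ∈ hi x ↔ x < s := fun x s => by simp [hi]
  have hhin : ∀ x, (hi x).card ≤ n := fun x => Finset.card_le_univ _
  let r : P → ℕ := fun x => (lo x).card + (n - (hi x).card)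
  -- nestedness in terms of r
  have key : ∀ x y, r x < r y → (lo x ⊆ lo y) ∧ (hi y ⊆ hi x) := by
    intro x y hxy
    rcases nested h x y with h1 | h1
    · exact ⟨fun s hs => (hlo y s).mpr (h1.1 s ((hlo x s).mp hs)),
        fun s hs => (hhi x s).mpr (h1.2 s ((hhi y s).mp hs))⟩
    · exfalso
      have a1 : (lo y).card ≤ (lo x).card :=
        Finset.card_le_card fun s hs => (hlo x s).mpr (h1.1 s ((hlo y s).mp hs))
      have a2 : (hi x).card ≤ (hi y).card :=
        Finset.card_le_card fun s hs => (hhi y s).mpr (h1.2 s ((hhi x s).mp hs))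
      simp only [r] at hxy
      omega
  have rinj : Function.Injective r := by
    intro x y hxy
    have aux : ∀ x y, r x = r y → ((∀ s, s < x → s < y) ∧ (∀ s, y < s → x < s)) → x = y := by
      intro x y hxy h1
      have b1 : lo x ⊆ lo y := fun s hs => (hlo y s).mpr (h1.1 s ((hlo x s).mp hs))
      have b2 : hi y ⊆ hi x := fun s hs => (hhi x s).mpr (h1.2 s ((hhi y s).mp hs))
      have a1 := Finset.card_le_card b1
      have a2 := Finset.card_le_card b2
      have a3 := hhin x
      have a4 := hhin y
      simp only [r] at hxy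
      have c1 : lo x = lo y := Finset.eq_of_subset_of_card_le b1 (by omega)
      have c2 : hi y = hi x := Finset.eq_of_subset_of_card_le b2 (by omega)
      refine ht x y (fun s => ?_) (fun s => ?_)
      · rw [← hlo, ← hlo, c1]
      · rw [← hhi, ← hhi, c2]
    rcases nested h x y with h1 | h1
    · exact aux x y hxy h1
    · exact (aux y x hxy.symm h1).symm
  -- the image of r and its sorted enumeration
  let R : Finset ℕ := Finset.univ.image r
  have hR : R.card = n := by
    simp only [R]
    rw [Finset.card_image_of_injective _ rinj, Finset.card_univ]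
  let e : Fin n ↪o ℕ := R.orderEmbOfFin hR
  have hex : ∀ i : Fin n, ∃ p : P, r p = e i := by
    intro i
    have h1 : e i ∈ R := Finset.orderEmbOfFin_mem R hR i
    simp only [R, Finset.mem_image, Finset.mem_univ, true_and] at h1
    exact h1
  choose q hq using hex
  have hqlt : ∀ i j : Fin n, i < j → r (q i) < r (q j) := by
    intro i j hij
    rw [hq, hq]
    exact e.strictMono hij
  have hqinj : Function.Injective q := by
    intro i j hij
    have h1 : e i = e j := by rw [← hq, ← hq, hij]
    exact e.injective h1
  have hqsurj : Function.Surjective q := by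
    have h1 : Function.Bijective q :=
      (Fintype.bijective_iff_injective_and_card q).mpr ⟨hqinj, by rw [Fintype.card_fin]⟩
    exact h1.2
  -- for j ≤ k
  have hle : ∀ i j : Fin n, i ≤ j → (lo (q i) ⊆ lo (q j)) ∧ (hi (q j) ⊆ hi (q i)) := by
    intro i j hij
    rcases lt_or_eq_of_le hij with h1 | h1
    · exact key _ _ (hqlt i j h1)
    · rw [h1]; exact ⟨subset_rfl, subset_rfl⟩
  let p₀ : P := Classical.arbitrary P
  let x : ℕ → P := fun i => if hi : i < n then q ⟨i, hi⟩ else p₀
  have hx : ∀ i (hi : i < n), x i = q ⟨i, hi⟩ := fun i hi => by simp only [x]; rw [dif_pos hi]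
  have hxle : ∀ i j, i ≤ j → j < n → (lo (x i) ⊆ lo (x j)) ∧ (hi (x j) ⊆ hi (x i)) := by
    intro i j hij hj
    rw [hx i (by omega), hx j hj]
    exact hle _ _ (by exact hij)
  have hxsurj : ∀ p : P, ∃ i, i < n ∧ x i = p := by
    intro p
    obtain ⟨i, hi⟩ := hqsurj p
    exact ⟨i.1, i.2, by rw [hx i.1 i.2]; exact hi⟩
  have hxinj : ∀ i j, i < n → j < n → x i = x j → i = j := by
    intro i j hi hj hij
    rw [hx i hi, hx j hj] at hij
    have := hqinj hij
    exact congrArg Fin.val this
  -- elements above x i form a final segment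
  have up_seg : ∀ i j k, i < n → j ≤ k → k < n → x i < x j → x i < x k := by
    intro i j k hi hjk hk hij
    have h1 := (hxle j k hjk hk).1 ((hlo (x j) (x i)).mpr hij)
    exact (hlo _ _).mp h1
  have dn_seg : ∀ i j k, j < n → k ≤ i → i < n → x i < x j → x k < x j := by
    intro i j k hj hki hi hij
    have h1 := (hxle k i hki hi).2 ((hhi (x i) (x j)).mpr hij)
    exact (hhi _ _).mp h1
  have not_lt_of_le : ∀ i j, j ≤ i → i < n → ¬ x i < x j := by
    intro i j hji hi hij
    have h1 := up_seg i j i hi hji hi hij
    exact lt_irrefl _ h1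
  -- thresholds
  let up : ℕ → ℕ := fun i => if ∃ j, j < n ∧ x i < x j then sInf {j | j < n ∧ x i < x j} else n
  have up_spec : ∀ i j, i < n → j < n → (x i < x j ↔ up i ≤ j) := by
    intro i j hi hj
    by_cases hE : ∃ j, j < n ∧ x i < x j
    · have hu : up i = sInf {j | j < n ∧ x i < x j} := by simp only [up]; rw [if_pos hE]
      have hmem : up i ∈ {j | j < n ∧ x i < x j} := by rw [hu]; exact Nat.sInf_mem hE
      constructor
      · intro h1
        rw [hu]
        exact Nat.sInf_le ⟨hj, h1⟩
      · intro h1
        exact up_seg i (up i) j hi h1 hj hmem.2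
    · have hu : up i = n := by simp only [up]; rw [if_neg hE]
      constructor
      · intro h1; exact absurd ⟨j, hj, h1⟩ hE
      · intro h1; omega
  have up_le : ∀ i, i < n → up i ≤ n := by
    intro i hi
    by_cases hE : ∃ j, j < n ∧ x i < x j
    · have hu : up i = sInf {j | j < n ∧ x i < x j} := by simp only [up]; rw [if_pos hE]
      have hmem : up i ∈ {j | j < n ∧ x i < x j} := by rw [hu]; exact Nat.sInf_mem hE
      exact le_of_lt hmem.1
    · have hu : up i = n := by simp only [up]; rw [if_neg hE]
      omega
  let dn : ℕ → ℕ := fun j => ((Finset.range n).filter fun i => x i < x j).card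
  have dn_spec : ∀ i j, i < n → j < n → (x i < x j ↔ i < dn j) := by
    intro i j hi hj
    constructor
    · intro h1
      have h2 : Finset.range (i + 1) ⊆ (Finset.range n).filter fun i => x i < x j := by
        intro k hk
        rw [Finset.mem_range] at hk
        rw [Finset.mem_filter, Finset.mem_range]
        exact ⟨by omega, dn_seg i j k hj (by omega) hi h1⟩
      have h3 := Finset.card_le_card h2
      rw [Finset.card_range] at h3
      exact h3
    · intro h1
      by_contra h2
      have h3 : ((Finset.range n).filter fun i => x i < x j) ⊆ Finset.range i := by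
        intro k hk
        rw [Finset.mem_filter, Finset.mem_range] at hk
        rw [Finset.mem_range]
        by_contra h4
        push Not at h4
        exact h2 (dn_seg k j i hj h4 hk.1 hk.2)
      have h4 := Finset.card_le_card h3
      rw [Finset.card_range] at h4
      exact absurd h1 (not_lt.mpr h4)
  refine ⟨⟨x, up, dn, hxinj, hxsurj, up_spec, ?_, ?_, up_le, ?_, ?_⟩⟩
  · intro i j hij hj
    by_contra hc
    push Not at hc
    have h1 := up_le i (by omega)
    have h2 : x j < x (up j) := (up_spec j (up j) hj (by omega)).mpr le_rfl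
    have h3 : x i < x (up j) := dn_seg j (up j) i (by omega) hij hj h2
    have h4 := (up_spec i (up j) (by omega) (by omega)).mp h3
    omega
  · intro i hi
    by_contra hc
    push Not at hc
    have h1 := (up_spec i i hi hi).mpr hc
    exact lt_irrefl _ h1
  · intro i j hi hj
    rw [← up_spec i j hi hj, dn_spec i j hi hj]
  · intro j hj
    by_contra hc
    push Not at hc
    have h1 := (dn_spec j j hj hj).mpr hc
    exact lt_irrefl _ h1

end Pool.Agent.Semi
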