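import Pool.Agent.Lib_MP_33fb9b_semi.Defs

set_option autoImplicit false

/-!
# Twins give a perfectly balanced pair
-/

namespace Pool.Agent.Semi

open Pool.Agent.Gap

open Classical in
theorem swap_lt {P : Type} [PartialOrder P] (x y : P) (h1 : ∀ s, s < x ↔ s < y)
    (h2 : ∀ s, x < s ↔ y < s) (a b : P) (hab : a < b) :
    Equiv.swap x y a < Equiv.swap x y b := by
  have hxy : ¬ x < y := fun hc => lt_irrefl x ((h1 x).mpr hc)
  have hyx : ¬ y < x := fun hc => lt_irrefl y ((h1 y).mp hc)
  by_cases ha : a = x
  · subst ha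
    have hb1 : b ≠ a := fun hc => lt_irrefl a (hc ▸ hab)
    have hb2 : b ≠ y := fun hc => hxy (hc ▸ hab)
    rw [Equiv.swap_apply_left, Equiv.swap_apply_of_ne_of_ne hb1 hb2]
    exact (h2 b).mp hab
  by_cases ha' : a = y
  · subst ha'
    have hb1 : b ≠ a := fun hc => lt_irrefl a (hc ▸ hab)
    have hb2 : b ≠ x := fun hc => hyx (hc ▸ hab)
    rw [Equiv.swap_apply_right, Equiv.swap_apply_of_ne_of_ne hb2 hb1]
    exact (h2 b).mpr hab
  rw [Equiv.swap_apply_of_ne_of_ne ha ha']
  by_cases hb : b = x
  · subst hb
    rw [Equiv.swap_apply_left]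
    exact (h1 a).mp hab
  by_cases hb' : b = y
  · subst hb'
    rw [Equiv.swap_apply_right]
    exact (h1 a).mpr hab
  rw [Equiv.swap_apply_of_ne_of_ne hb hb']
  exact hab

theorem twin_prob_le {P : Type} [Fintype P] [PartialOrder P] (x y : P)
    (h1 : ∀ s, s < x ↔ s < y) (h2 : ∀ s, x < s ↔ y < s) : prob P x y = prob P y x := by
  classical
  unfold prob
  congr 2
  apply Nat.card_congr
  have hmono : ∀ e : P ≃ Fin (Fintype.card P), Monotone e →
      Monotone ((Equiv.swap x y).trans e) := by
    intro e he a b hab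
    rcases hab.eq_or_lt with rfl | hlt
    · exact le_refl _
    · exact he (by convert (swap_lt x y h1 h2 a b hlt).le)
  exact
    { toFun := fun p => ⟨(Equiv.swap x y).trans p.1, hmono _ p.2.1, by
        simp only [Equiv.trans_apply, Equiv.swap_apply_left, Equiv.swap_apply_right]
        exact p.2.2⟩
      invFun := fun p => ⟨(Equiv.swap x y).trans p.1, hmono _ p.2.1, by
        simp only [Equiv.trans_apply, Equiv.swap_apply_left, Equiv.swap_apply_right]
        exact p.2.2⟩
      left_inv := by
        rintro ⟨e, h3, h4⟩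
        apply Subtype.ext
        apply Equiv.ext
        intro a
        simp
      right_inv := by
        rintro ⟨e, h3, h4⟩
        apply Subtype.ext
        apply Equiv.ext
        intro a
        simp }

theorem twin_balance {P : Type} [Fintype P] [PartialOrder P] (h : ¬ NoTwins P) :
    (1 : ℝ) / 2 ≤ balance P := by
  unfold NoTwins at h
  push Not at h
  obtain ⟨x, y, h1, h2, hxy⟩ := h
  have h3 := twin_prob_le x y h1 h2
  have h4 := prob_add P x y hxy
  have h5 := le_balance P x y
  rw [h3, min_self] at h5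
  linarith

end Pool.Agent.Semi
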