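import Pool.Agent.Lib_MP_33fb9b_semi.Core
import Pool.Agent.Lib_MP_33fb9b_semi.EnumEx
import Pool.Agent.Lib_MP_33fb9b_semi.Twin

set_option autoImplicit false

/-!
# Peeling off the direct-sum components
-/

namespace Pool.Agent.Semi

open Pool.Agent.Gap

/-- small components: at most three elements, no cut, no twins -/
theorem small_fib {P : Type} [PartialOrder P] {n : ℕ} (E : Enum P n) (h1 : 1 ≤ n) (h3 : n ≤ 3)
    (hc : ∀ i, i + 1 < n → i + 1 < E.up i) (ht : NoTwins P) : FibOK (Set.univ : Set P) := by
  -- an enumeration with no relation has only one element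
  have hno : (∀ i, i < n → E.up i = n) → n = 1 := by
    intro hall
    by_contra hn
    have h2 : 2 ≤ n := by omega
    have hlt : ∀ p q : P, ¬ p < q := by
      intro p q hpq
      obtain ⟨i, hi, rfl⟩ := E.surj p
      obtain ⟨j, hj, rfl⟩ := E.surj q
      rw [E.lt_iff i j hi hj, hall i hi] at hpq
      omega
    have h01 : E.x 0 = E.x 1 :=
      ht _ _ (fun s => ⟨fun h => absurd h (hlt _ _), fun h => absurd h (hlt _ _)⟩)
        (fun s => ⟨fun h => absurd h (hlt _ _), fun h => absurd h (hlt _ _)⟩)
    have := E.inj 0 1 (by omega) (by omega) h01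
    omega
  by_cases hn1 : n = 1
  · left
    refine ⟨E.x 0, ?_⟩
    ext p
    obtain ⟨i, hi, rfl⟩ := E.surj p
    have : i = 0 := by omega
    subst this
    simp
  by_cases hn2 : n = 2
  · exfalso
    apply hn1
    apply hno
    intro i hi
    have h4 := E.up_le i hi
    have h5 := E.lt_up i hi
    by_cases hi1 : i + 1 < n
    · have := hc i hi1
      omega
    · omega
  have hn3 : n = 3 := by omega
  have u0 := hc 0 (by omega)
  have u1 := hc 1 (by omega)
  have v0 := E.up_le 0 (by omega)
  have v1 := E.up_le 1 (by omega)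
  have v2 := E.up_le 2 (by omega)
  have w2 := E.lt_up 2 (by omega)
  have hup0 : E.up 0 = 2 := by
    by_contra h0
    apply hn1
    apply hno
    intro i hi
    have : i = 0 ∨ i = 1 ∨ i = 2 := by omega
    rcases this with rfl | rfl | rfl <;> omega
  have hle : ∀ i j, i < n → j < n → i ≠ j → ¬ E.up i ≤ j → ¬ E.x i ≤ E.x j := by
    intro i j hi hj hij hu hcon
    apply hu
    rw [← E.lt_iff i j hi hj]
    exact lt_of_le_of_ne hcon (fun h => hij (E.inj i j hi hj h))
  right
  refine ⟨E.x 0, E.x 2, E.x 1, ?_, ?_, ?_, ?_, ?_, ?_⟩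
  · ext p
    obtain ⟨i, hi, rfl⟩ := E.surj p
    have : i = 0 ∨ i = 1 ∨ i = 2 := by omega
    rcases this with rfl | rfl | rfl <;> simp
  · rw [E.lt_iff 0 2 (by omega) (by omega)]
    omega
  · exact hle 0 1 (by omega) (by omega) (by omega) (by omega)
  · exact hle 1 0 (by omega) (by omega) (by omega) (by omega)
  · exact hle 2 1 (by omega) (by omega) (by omega) (by omega)
  · exact hle 1 2 (by omega) (by omega) (by omega) (by omega)

/-- a subset of a semiorder is a semiorder -/
theorem IsSemiorder.sub {P : Type} [PartialOrder P] (h : IsSemiorder P) (M : Set P) :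
    IsSemiorder M :=
  ⟨fun a b c d hab hcd => h.1 a.1 b.1 c.1 d.1 hab hcd,
    fun a b c d hab hbc => h.2 a.1 b.1 c.1 d.1 hab hbc⟩

open Classical in
/-- the initial part of an enumeration below a cut -/
theorem enum_initial {P : Type} [PartialOrder P] {n : ℕ} (E : Enum P n) (c : ℕ) (hc0 : 0 < c)
    (hcn : c < n) :
    ∃ F : Enum ({p : P | ∃ i, i < c ∧ E.x i = p} : Set P) c, ∀ i, F.up i = min (E.up i) c := by
  set M : Set P := {p : P | ∃ i, i < c ∧ E.x i = p} with hM
  let m0 : M := ⟨E.x 0, 0, hc0, rfl⟩
  have hx : ∀ i, ∀ hi : i < c, ((if hi : i < c then ⟨E.x i, i, hi, rfl⟩ else m0 : M)) =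
      ⟨E.x i, i, hi, rfl⟩ := fun i hi => dif_pos hi
  refine ⟨{ x := fun i => if hi : i < c then ⟨E.x i, i, hi, rfl⟩ else m0
            up := fun i => min (E.up i) c
            dn := E.dn
            inj := ?_
            surj := ?_
            lt_iff := ?_
            up_mono := ?_
            lt_up := ?_
            up_le := ?_
            dn_iff := ?_
            dn_le := ?_ }, fun i => rfl⟩
  · intro i j hi hj hij
    rw [hx i hi, hx j hj] at hij
    exact E.inj i j (by omega) (by omega) (congrArg Subtype.val hij)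
  · rintro ⟨p, i, hi, hp⟩
    refine ⟨i, hi, ?_⟩
    rw [hx i hi]
    exact Subtype.ext hp
  · intro i j hi hj
    rw [hx i hi, hx j hj]
    have h1 := E.lt_iff i j (by omega) (by omega)
    constructor
    · intro h2
      have h3 : E.x i < E.x j := h2
      rw [h1] at h3
      omega
    · intro h2
      show E.x i < E.x j
      rw [h1]
      omega
  · intro i j hij hj
    have := E.up_mono i j hij (by omega)
    omega
  · intro i hi
    have := E.lt_up i (by omega)
    omega
  · intro i hi
    omega
  · intro i j hi hj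
    have := E.dn_iff i j (by omega) (by omega)
    omega
  · intro j hj
    exact E.dn_le j (by omega)

theorem semi_DSall : ∀ (N : ℕ) (P : Type) [Fintype P] [PartialOrder P], Fintype.card P = N →
    IsSemiorder P → balance P < 14 / 39 → DSall P := by
  classical
  intro N
  induction N using Nat.strong_induction_on with
  | _ N ih =>
  intro P _ _ hcard hsemi hbal
  by_cases hN0 : N = 0
  · haveI : IsEmpty P := Fintype.card_eq_zero_iff.mp (hcard.trans hN0)
    exact ⟨0, fun _ => 0, fun x => isEmptyElim x, fun x => isEmptyElim x, fun i hi => by omega⟩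
  have ht : NoTwins P := by
    by_contra hcon
    have := twin_balance hcon
    linarith
  haveI : Nonempty P := Fintype.card_pos_iff.mp (by omega)
  obtain ⟨E⟩ := enum_exists hsemi ht
  rw [hcard] at E
  by_cases hcut : ∃ c, 0 < c ∧ c < N ∧ E.up (c - 1) ≤ c
  · obtain ⟨c, ⟨hc0, hcN, hup⟩, hmin⟩ : ∃ c, (0 < c ∧ c < N ∧ E.up (c - 1) ≤ c) ∧
        ∀ m, m < c → ¬ (0 < m ∧ m < N ∧ E.up (m - 1) ≤ m) :=
      ⟨Nat.find hcut, Nat.find_spec hcut, fun m hm => Nat.find_min hcut hm⟩
    set M : Set P := {p : P | ∃ i, i < c ∧ E.x i = p} with hM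
    have hMU : ∀ x ∈ M, ∀ y, y ∉ M → x < y := by
      rintro x ⟨i, hi, rfl⟩ y hy
      obtain ⟨j, hj, rfl⟩ := E.surj y
      have hjc : c ≤ j := by
        by_contra hcon
        exact hy ⟨j, by omega, rfl⟩
      rw [E.lt_iff i j (by omega) hj]
      have := E.up_mono i (c - 1) (by omega) (by omega)
      omega
    have hautM : Autonomous P M := fun x hx => Or.inr (Or.inl (fun y hy => hMU y hy x hx))
    have hautU : Autonomous P (Mᶜ) := fun x hx =>
      Or.inl (fun y hy => hMU x (not_not.mp hx) y hy)
    haveI hneM : Nonempty M := ⟨⟨E.x 0, 0, hc0, rfl⟩⟩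
    have hcU : E.x c ∈ Mᶜ := by
      rintro ⟨i, hi, h⟩
      have := E.inj i c (by omega) hcN h
      omega
    haveI hneU : Nonempty (Mᶜ : Set P) := ⟨⟨E.x c, hcU⟩⟩
    have hbM : balance M < 14 / 39 := lt_of_le_of_lt (balance_autonomous M hautM) hbal
    have hbU : balance (Mᶜ : Set P) < 14 / 39 :=
      lt_of_le_of_lt (balance_autonomous (Mᶜ : Set P) hautU) hbal
    have htM : NoTwins M := by
      by_contra hcon
      have := twin_balance hcon
      linarith
    obtain ⟨F, hF⟩ := enum_initial E c hc0 hcN
    have hnc : ∀ i, i + 1 < c → i + 1 < F.up i := by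
      intro i hi
      rw [hF i]
      have h1 := hmin (i + 1) hi
      have h2 : ¬ E.up i ≤ i + 1 := by
        intro h3
        apply h1
        refine ⟨by omega, by omega, ?_⟩
        simpa using h3
      omega
    have hc3 : c ≤ 3 := by
      by_contra hcon
      have := core F (by omega) hnc htM
      linarith
    have hfib := (small_fib F (by omega) hc3 hnc htM).image
    have himg : (Subtype.val '' (Set.univ : Set M)) = M := by
      rw [Set.image_univ, Subtype.range_val]
    apply DSall.cons (Mᶜ)
    · intro x hx y hy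
      exact hMU x (not_not.mp hx) y hy
    · rw [compl_compl]
      have h5 : FibOK (Subtype.val '' (Set.univ : Set M)) := hfib
      rw [himg] at h5
      exact h5
    · refine ih (Fintype.card (Mᶜ : Set P)) ?_ (Mᶜ : Set P) rfl (hsemi.sub _) hbU
      have h0 : E.x 0 ∉ (Mᶜ : Set P) := by
        intro hcon
        exact hcon ⟨0, hc0, rfl⟩
      exact lt_of_lt_of_eq (Fintype.card_subtype_lt h0) hcard
  · have hnc : ∀ i, i + 1 < N → i + 1 < E.up i := by
      intro i hi
      by_contra hcon
      exact hcut ⟨i + 1, by omega, hi, by simpa using not_lt.mp hcon⟩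
    have hN3 : N ≤ 3 := by
      by_contra hcon
      have := core E (by omega) hnc ht
      linarith
    exact DSall.of_fib (small_fib E (by omega) hN3 hnc ht)

end Pool.Agent.Semi
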