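import Pool.Agent.Lib_MP_33fb9b_semi.Defs
import Pool.Agent.Lib_MP_33fb9b_co.Bridge

set_option autoImplicit false

/-!
# The seven-element semiorder with balance constant `14 / 39`
-/

namespace Pool.Agent.Semi

open Pool.Agent.Gap

/-! ### Counting linear extensions -/

section Count

variable {P : Type} [DecidableEq P] (r : P → P → Prop) [DecidableRel r]

/-- The lists of the elements of `S` (with `k` elements) which respect `r`. -/
def lst : ℕ → Finset P → Finset (List P)
  | 0, S => if S = ∅ then {[]} else ∅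
  | k + 1, S => (S.filter fun x => ∀ y ∈ S.erase x, ¬ r y x).biUnion fun x =>
      (lst k (S.erase x)).image (List.cons x)

/-- The number of these lists. -/
def cnt : ℕ → Finset P → ℕ
  | 0, S => if S = ∅ then 1 else 0
  | k + 1, S => ∑ x ∈ S.filter (fun x => ∀ y ∈ S.erase x, ¬ r y x), cnt k (S.erase x)

theorem card_lst (k : ℕ) (S : Finset P) : (lst r k S).card = cnt r k S := by
  induction k generalizing S with
  | zero =>
    unfold lst cnt
    split_ifs <;> rfl
  | succ k ih =>
    unfold lst cnt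
    rw [Finset.card_biUnion]
    · apply Finset.sum_congr rfl
      intro x _
      rw [Finset.card_image_of_injective _ (List.cons_injective), ih]
    · intro x _ y _ hxy
      rw [Function.onFun, Finset.disjoint_left]
      intro l hl hl'
      rw [Finset.mem_image] at hl hl'
      obtain ⟨a, _, rfl⟩ := hl
      obtain ⟨b, _, hb⟩ := hl'
      exact hxy (List.cons.inj hb).1.symm

theorem mem_lst (k : ℕ) (S : Finset P) (hS : S.card = k) (l : List P) :
    l ∈ lst r k S ↔ l.Nodup ∧ (∀ x, x ∈ l ↔ x ∈ S) ∧ l.Pairwise (fun x y => ¬ r y x) := by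
  induction k generalizing S l with
  | zero =>
    have h0 : S = ∅ := Finset.card_eq_zero.mp hS
    subst h0
    unfold lst
    rw [if_pos rfl, Finset.mem_singleton]
    constructor
    · rintro rfl
      simp
    · rintro ⟨_, h2, _⟩
      rw [List.eq_nil_iff_forall_not_mem]
      intro x hx
      exact absurd ((h2 x).mp hx) (Finset.notMem_empty x)
  | succ k ih =>
    unfold lst
    rw [Finset.mem_biUnion]
    constructor
    · rintro ⟨x, hx, hl⟩
      rw [Finset.mem_filter] at hx
      rw [Finset.mem_image] at hl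
      obtain ⟨l', hl', rfl⟩ := hl
      have hc : (S.erase x).card = k := by rw [Finset.card_erase_of_mem hx.1, hS]; rfl
      obtain ⟨h1, h2, h3⟩ := (ih _ hc l').mp hl'
      refine ⟨?_, ?_, ?_⟩
      · rw [List.nodup_cons]
        refine ⟨fun hm => ?_, h1⟩
        exact absurd ((h2 x).mp hm) (Finset.notMem_erase x S)
      · intro y
        rw [List.mem_cons, h2, Finset.mem_erase]
        constructor
        · rintro (rfl | h)
          · exact hx.1
          · exact h.2
        · intro h
          by_cases hyx : y = x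
          · exact Or.inl hyx
          · exact Or.inr ⟨hyx, h⟩
      · rw [List.pairwise_cons]
        exact ⟨fun y hy => hx.2 y ((h2 y).mp hy), h3⟩
    · rintro ⟨h1, h2, h3⟩
      cases l with
      | nil =>
        exfalso
        have hne : S.Nonempty := by
          rw [← Finset.card_pos, hS]
          exact Nat.succ_pos k
        obtain ⟨x, hx⟩ := hne
        exact absurd ((h2 x).mpr hx) (List.not_mem_nil)
      | cons x l' =>
        rw [List.nodup_cons] at h1
        rw [List.pairwise_cons] at h3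
        have hxS : x ∈ S := (h2 x).mp List.mem_cons_self
        have hmem : ∀ y, y ∈ l' ↔ y ∈ S.erase x := by
          intro y
          rw [Finset.mem_erase, ← h2 y, List.mem_cons]
          constructor
          · intro hy
            exact ⟨fun h => h1.1 (h ▸ hy), Or.inr hy⟩
          · rintro ⟨hne, rfl | hy⟩
            · exact absurd rfl hne
            · exact hy
        have hc : (S.erase x).card = k := by rw [Finset.card_erase_of_mem hxS, hS]; rfl
        refine ⟨x, ?_, ?_⟩
        · rw [Finset.mem_filter]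
          exact ⟨hxS, fun y hy => h3.1 y ((hmem y).mpr hy)⟩
        · rw [Finset.mem_image]
          exact ⟨l', (ih _ hc l').mpr ⟨h1.2, hmem, h3.2⟩, rfl⟩

theorem card_equiv_eq_cnt [Fintype P] (irr : ∀ x, ¬ r x x) :
    Nat.card {e : P ≃ Fin (Fintype.card P) // ∀ u v, r u v → e u < e v} =
      cnt r (Fintype.card P) Finset.univ := by
  rw [Pool.Agent.Lib_MP_33fb9b_co.card_equiv_eq_card_list r irr, ← card_lst]
  apply Nat.subtype_card
  intro l
  rw [mem_lst r (Fintype.card P) Finset.univ Finset.card_univ l]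
  simp

end Count

/-! ### Probabilities as counts -/

theorem mono_iff {P : Type} [Fintype P] [PartialOrder P] (e : P ≃ Fin (Fintype.card P)) :
    Monotone e ↔ ∀ u v : P, u < v → e u < e v := by
  constructor
  · intro h u v huv
    exact lt_of_le_of_ne (h huv.le) (fun hc => huv.ne (e.injective hc))
  · intro h u v huv
    rcases huv.eq_or_lt with rfl | hlt
    · exact le_rfl
    · exact (h u v hlt).le

theorem card_mono_eq_cnt {P : Type} [Fintype P] [PartialOrder P] [DecidableEq P]
    [DecidableRel (fun u v : P => u < v)] :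
    Nat.card {e : P ≃ Fin (Fintype.card P) // Monotone e} =
      cnt (fun u v : P => u < v) (Fintype.card P) Finset.univ := by
  rw [← card_equiv_eq_cnt (fun u v : P => u < v) (fun x => lt_irrefl x)]
  exact Nat.card_congr (Equiv.subtypeEquivRight fun e => mono_iff e)

theorem card_pair_eq_cnt {P : Type} [Fintype P] [PartialOrder P] [DecidableEq P]
    [DecidableRel (fun u v : P => u < v)] (a b : P) (hab : a ≠ b) :
    Nat.card {e : P ≃ Fin (Fintype.card P) // Monotone e ∧ e a < e b} =
      cnt (fun u v : P => u < v ∨ (u = a ∧ v = b)) (Fintype.card P) Finset.univ := by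
  rw [← card_equiv_eq_cnt (fun u v : P => u < v ∨ (u = a ∧ v = b))
    (fun x h => by
      rcases h with h | ⟨h1, h2⟩
      · exact lt_irrefl x h
      · exact hab (h1 ▸ h2))]
  refine Nat.card_congr (Equiv.subtypeEquivRight fun e => ?_)
  rw [mono_iff]
  constructor
  · rintro ⟨h1, h2⟩ u v (h | ⟨rfl, rfl⟩)
    · exact h1 u v h
    · exact h2
  · intro h
    exact ⟨fun u v huv => h u v (Or.inl huv), h a b (Or.inr ⟨rfl, rfl⟩)⟩

/-! ### The example -/

/-- the seven elements -/
def P7 : Type := Fin 7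

instance : DecidableEq P7 := inferInstanceAs (DecidableEq (Fin 7))
instance : Fintype P7 := inferInstanceAs (Fintype (Fin 7))

/-- `i` is below `j` -/
def lt7 (i j : Fin 7) : Bool := Nat.ble ((![2, 4, 4, 6, 6, 7, 7] : Fin 7 → ℕ) i) j.val

instance : PartialOrder P7 where
  le i j := lt7 i j = true ∨ i = j
  lt i j := lt7 i j = true
  le_refl _ := Or.inr rfl
  le_trans := by
    have h : ∀ i j k : Fin 7, (lt7 i j = true ∨ i = j) → (lt7 j k = true ∨ j = k) →
        (lt7 i k = true ∨ i = k) := by decide +kernel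
    exact h
  le_antisymm := by
    have h : ∀ i j : Fin 7, (lt7 i j = true ∨ i = j) → (lt7 j i = true ∨ j = i) → i = j := by
      decide +kernel
    exact h
  lt_iff_le_not_ge := by
    have h : ∀ i j : Fin 7, lt7 i j = true ↔
        ((lt7 i j = true ∨ i = j) ∧ ¬ (lt7 j i = true ∨ j = i)) := by
      decide +kernel
    exact h

instance : DecidableRel (fun u v : P7 => u < v) := fun u v =>
  inferInstanceAs (Decidable (lt7 u v = true))

instance : DecidableRel (fun u v : P7 => u ≤ v) := fun u v =>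
  inferInstanceAs (Decidable (lt7 u v = true ∨ u = v))

/-- the element `1` -/
def p1 : P7 := (1 : Fin 7)
/-- the element `2` -/
def p2 : P7 := (2 : Fin 7)
/-- the element `3` -/
def p3 : P7 := (3 : Fin 7)

theorem card7 : Fintype.card P7 = 7 := Fintype.card_fin 7

theorem cnt39 : cnt (fun u v : P7 => u < v) 7 Finset.univ = 39 := by decide +kernel

theorem cnt_le : ∀ a b : P7, a ≠ b →
    min (cnt (fun u v : P7 => u < v ∨ (u = a ∧ v = b)) 7 Finset.univ)
      (cnt (fun u v : P7 => u < v ∨ (u = b ∧ v = a)) 7 Finset.univ) ≤ 14 := by decide +kernel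

theorem cnt_eq : ∃ a b : P7, a ≠ b ∧
    min (cnt (fun u v : P7 => u < v ∨ (u = a ∧ v = b)) 7 Finset.univ)
      (cnt (fun u v : P7 => u < v ∨ (u = b ∧ v = a)) 7 Finset.univ) = 14 := by decide +kernel

theorem prob7 (a b : P7) (hab : a ≠ b) : prob P7 a b =
    (cnt (fun u v : P7 => u < v ∨ (u = a ∧ v = b)) 7 Finset.univ : ℝ) / 39 := by
  unfold prob
  rw [card_mono_eq_cnt, card_pair_eq_cnt a b hab, card7, cnt39]
  norm_num

theorem prob7_self (a : P7) : prob P7 a a = 0 := by
  unfold prob
  have : Nat.card {e : P7 ≃ Fin (Fintype.card P7) // Monotone e ∧ e a < e a} = 0 := by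
    rw [Nat.card_eq_zero]
    left
    exact ⟨fun e => lt_irrefl _ e.2.2⟩
  rw [this]
  simp

theorem balance7 : balance P7 = 14 / 39 := by
  apply le_antisymm
  · have : Nonempty (P7 × P7) := ⟨(p1, p1)⟩
    apply ciSup_le
    rintro ⟨a, b⟩
    by_cases hab : a = b
    · subst hab
      simp only [prob7_self, min_self]
      norm_num
    · simp only
      rw [prob7 a b hab, prob7 b a (Ne.symm hab), min_div_div_right (by norm_num)]
      have h := cnt_le a b hab
      have h' : (min (cnt (fun u v : P7 => u < v ∨ (u = a ∧ v = b)) 7 Finset.univ : ℝ)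
          (cnt (fun u v : P7 => u < v ∨ (u = b ∧ v = a)) 7 Finset.univ : ℝ)) ≤ 14 := by
        exact_mod_cast h
      gcongr
  · obtain ⟨a, b, hab, h⟩ := cnt_eq
    refine le_trans (le_of_eq ?_) (le_balance P7 a b)
    rw [prob7 a b hab, prob7 b a (Ne.symm hab), min_div_div_right (by norm_num)]
    have h' : (min (cnt (fun u v : P7 => u < v ∨ (u = a ∧ v = b)) 7 Finset.univ : ℝ)
        (cnt (fun u v : P7 => u < v ∨ (u = b ∧ v = a)) 7 Finset.univ : ℝ)) = 14 := by
      exact_mod_cast h
    rw [h']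

theorem semi7 : IsSemiorder P7 := by
  have h : (∀ a b c d : P7, a < b → c < d → a < d ∨ c < b) ∧
    (∀ a b c d : P7, a < b → b < c → a < d ∨ d < c) := by
    constructor
    · decide +kernel
    · decide +kernel
  exact h

theorem no_three {S : Type} [PartialOrder S]
    (h : Nonempty (S ≃o Fin 1) ∨ Nonempty (S ≃o (Fin 2 ⊕ Fin 1))) (a b c : S)
    (hab : a ≠ b) (_ : a ≠ c) (_ : b ≠ c)
    (h1 : ¬ a ≤ b) (h2 : ¬ b ≤ a) (h3 : ¬ a ≤ c) (h4 : ¬ c ≤ a) (h5 : ¬ b ≤ c) (h6 : ¬ c ≤ b) :
    False := by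
  rcases h with ⟨⟨f⟩⟩ | ⟨⟨f⟩⟩
  · exact hab (f.injective (Subsingleton.elim _ _))
  · rw [← f.le_iff_le] at h1 h2 h3 h4 h5 h6
    generalize f a = x at *
    generalize f b = y at *
    generalize f c = z at *
    rcases x with x | x <;> rcases y with y | y <;> rcases z with z | z <;>
      simp only [Sum.inl_le_inl_iff, Sum.inr_le_inr_iff, Sum.not_inl_le_inr, Sum.not_inr_le_inl,
        not_false_eq_true] at h1 h2 h3 h4 h5 h6 <;> omega

theorem notD7 : ¬ InD P7 := by
  rintro ⟨k, S, hS, -, hiso, ⟨F⟩⟩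
  have hinc : ∀ a b : P7, ¬ a ≤ b → ¬ b ≤ a → (ofLex (F a)).1 = (ofLex (F b)).1 := by
    intro a b h1 h2
    rw [← F.le_iff_le] at h1 h2
    rcases lt_trichotomy (ofLex (F a)).1 (ofLex (F b)).1 with h | h | h
    · exact absurd (Sigma.Lex.le_def.mpr (Or.inl h)) h1
    · exact h
    · exact absurd (Sigma.Lex.le_def.mpr (Or.inl h)) h2
  have k12 : ¬ p1 ≤ p2 ∧ ¬ p2 ≤ p1 ∧
      p1 ≠ p2 := by decide +kernel
  have k13 : ¬ p1 ≤ p3 ∧ ¬ p3 ≤ p1 ∧
      p1 ≠ p3 := by decide +kernel
  have k23 : ¬ p2 ≤ p3 ∧ ¬ p3 ≤ p2 ∧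
      p2 ≠ p3 := by decide +kernel
  have e12 := hinc _ _ k12.1 k12.2.1
  have e13 := hinc _ _ k13.1 k13.2.1
  obtain ⟨a1, a2, a3⟩ := k12
  obtain ⟨b1, b2, b3⟩ := k13
  obtain ⟨c1, c2, c3⟩ := k23
  rw [← F.le_iff_le] at a1 a2 b1 b2 c1 c2
  rw [← F.injective.ne_iff] at a3 b3 c3
  generalize F p1 = p at *
  generalize F p2 = q at *
  generalize F p3 = r at *
  obtain ⟨i, x⟩ := p
  obtain ⟨j, y⟩ := q
  obtain ⟨l, z⟩ := r
  obtain rfl : i = j := e12
  obtain rfl : i = l := e13
  have key : ∀ u v : S i, ¬ (toLex (⟨i, u⟩ : Σ i, S i) ≤ toLex ⟨i, v⟩) → ¬ u ≤ v := by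
    intro u v h huv
    exact h (Sigma.Lex.le_def.mpr (Or.inr ⟨rfl, huv⟩))
  have key' : ∀ u v : S i, (toLex (⟨i, u⟩ : Σ i, S i) ≠ toLex ⟨i, v⟩) → u ≠ v := by
    intro u v h huv
    exact h (by rw [huv])
  exact no_three (hiso i) x y z (key' _ _ a3) (key' _ _ b3) (key' _ _ c3) (key _ _ a1) (key _ _ a2)
    (key _ _ b1) (key _ _ b2) (key _ _ c1) (key _ _ c2)

theorem sharp : ∃ (P : Type) (_ : Fintype P) (_ : PartialOrder P),
    Nonempty P ∧ IsSemiorder P ∧ ¬ InD P ∧ balance P = 14 / 39 :=
  ⟨P7, inferInstance, inferInstance, ⟨p1⟩, semi7, notD7, balance7⟩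

end Pool.Agent.Semi
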