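import Mathlib
import Pool.Agent.Lib_MP_33fb9b_semi.Induct
import Pool.Agent.Lib_MP_33fb9b_semi.Sharp

set_option autoImplicit false

/-!
# The sharp gap for semiorders

Definitions: `prob`, `balance`, `InD` (the class `𝒟`) and `Autonomous` (module) are in
`Pool.Agent.Lib_MP_33fb9b_gap.Defs`; `IsSemiorder` (no induced `2 + 2`, no induced `3 + 1`) is in
`Pool.Agent.Lib_MP_33fb9b_semi.Defs`.
-/

namespace Pool.Agent.Semi.SemiorderGapResult

open Pool.Agent.Gap Pool.Agent.Semi

/-- **Sharp uniform gap for semiorders.** Every nonempty finite semiorder outside the class `𝒟` has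
balance constant at least `14 / 39`. More generally the same bound holds for every finite poset `P`
that has a nonempty autonomous subset `M` which is a semiorder outside the class `𝒟`. The constant is
best possible: some semiorder outside `𝒟` has balance constant exactly `14 / 39`. -/
theorem result :
    (∀ (P : Type) [Fintype P] [PartialOrder P] [Nonempty P], IsSemiorder P → ¬ InD P →
      (14 : ℝ) / 39 ≤ balance P) ∧
    (∀ (P : Type) [Fintype P] [PartialOrder P] (M : Set P) [Nonempty M],
      Autonomous P M → IsSemiorder M → ¬ InD M → (14 : ℝ) / 39 ≤ balance P) ∧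
    (∃ (P : Type) (_ : Fintype P) (_ : PartialOrder P), Nonempty P ∧ IsSemiorder P ∧ ¬ InD P ∧
      balance P = 14 / 39) := by
  classical
  have key : ∀ (P : Type) [Fintype P] [PartialOrder P] [Nonempty P], IsSemiorder P → ¬ InD P →
      (14 : ℝ) / 39 ≤ balance P := by
    intro P _ _ _ hs hD
    by_contra hcon
    push Not at hcon
    exact hD (semi_DSall (Fintype.card P) P rfl hs hcon).inD
  refine ⟨key, ?_, sharp⟩
  intro P _ _ M _ hM hs hD
  exact (key M hs hD).trans (balance_autonomous M hM)

end Pool.Agent.Semi.SemiorderGapResult
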